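import Pool.Agent.H121R3.Joint

/-!
# Entire curves in abelian covers of products of projective lines
-/

namespace H121R3

open Topology Filter Complex

noncomputable section

theorem ord_prod {σ : Type*} (s : Finset σ) (f : σ → ℂ → ℂ) (hf : ∀ x ∈ s, Differentiable ℂ (f x))
    (hne : ∀ x ∈ s, ∃ t, f x t ≠ 0) (z₀ : ℂ) :
    Differentiable ℂ (fun t => ∏ x ∈ s, f x t) ∧ (∃ t, ∏ x ∈ s, f x t ≠ 0) ∧
    analyticOrderNatAt (fun t => ∏ x ∈ s, f x t) z₀ = ∑ x ∈ s, analyticOrderNatAt (f x) z₀ := by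
  classical
  induction s using Finset.induction_on with
  | empty =>
    refine ⟨by simp, ⟨0, by simp⟩, ?_⟩
    simp only [Finset.prod_empty, Finset.sum_empty]
    have : analyticOrderAt (fun _ : ℂ => (1 : ℂ)) z₀ = 0 :=
      (analyticAt_const (v := (1 : ℂ))).analyticOrderAt_eq_zero.2 one_ne_zero
    unfold analyticOrderNatAt
    rw [this]; rfl
  | insert a s ha ih =>
    obtain ⟨h1, h2, h3⟩ := ih (fun x hx => hf x (Finset.mem_insert_of_mem hx))
      (fun x hx => hne x (Finset.mem_insert_of_mem hx))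
    have hfa := hf a (Finset.mem_insert_self _ _)
    have hna := hne a (Finset.mem_insert_self _ _)
    have e : (fun t => ∏ x ∈ insert a s, f x t) = (f a) * (fun t => ∏ x ∈ s, f x t) := by
      ext t; simp [Finset.prod_insert ha]
    refine ⟨?_, ?_, ?_⟩
    · rw [e]; exact hfa.mul h1
    · obtain ⟨t, ht, ht'⟩ := ((ent_ne hfa hna 0).and (ent_ne h1 h2 0)).exists
      exact ⟨t, by rw [Finset.prod_insert ha]; exact mul_ne_zero ht ht'⟩
    · rw [e, analyticOrderNatAt_mul (hfa.analyticAt z₀) (h1.analyticAt z₀)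
        (ent_order hfa hna z₀) (ent_order h1 h2 z₀), h3, Finset.sum_insert ha]

variable {ι κ τ : Type*} [Fintype ι]

/-- The criterion for points given by unit vectors. -/
theorem cover_unit (S O : ι → Finset τ) (pt : ι → τ → ℂ × ℂ)
    (hS : ∀ i, ∀ a ∈ S i, ‖(pt i a).1‖ ^ 2 + ‖(pt i a).2‖ ^ 2 = 1)
    (hne : ∀ i, ∀ a ∈ S i, ∀ b ∈ S i, a ≠ b →
      (pt i a).1 * (pt i b).2 - (pt i a).2 * (pt i b).1 ≠ 0)
    (n : κ → ℕ) (c : κ → ℂ) (hc : ∀ j, c j ≠ 0) (e : κ → ι → τ → ℕ)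
    (w : ι → τ → ℝ) (hw0 : ∀ i, ∀ a ∈ S i, 0 < w i a) (hw1 : ∀ i, ∀ a ∈ S i, w i a < 1)
    (hsum : ∀ i, 2 < ∑ a ∈ S i, w i a) (lam : ι → ℝ) (hlam : ∀ i, 0 < lam i)
    (hcond : ∀ I : Finset ι, I.Nonempty → ∀ (a : ι → τ) (m : ι → ℕ),
      (∀ i ∈ I, a i ∈ S i ∧ a i ∉ O i ∧ 1 ≤ m i) →
      (∀ j, n j ∣ ∑ i ∈ I, e j i (a i) * m i) →
      0 < ∑ i ∈ I, lam i * (m i * (1 - w i (a i)) - 1))
    (p q : ι → ℂ → ℂ) (hp : ∀ i, Differentiable ℂ (p i)) (hq : ∀ i, Differentiable ℂ (q i))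
    (hpq : ∀ i z, p i z ≠ 0 ∨ q i z ≠ 0)
    (f : κ → ℂ → ℂ) (hf : ∀ j, Differentiable ℂ (f j))
    (heq : ∀ j z, f j z ^ n j = c j * ∏ i, ∏ a ∈ S i, ell (p i) (q i) (pt i a) z ^ e j i a)
    (hO : ∀ i, ∀ a ∈ O i, ∀ z, ell (p i) (q i) (pt i a) z ≠ 0)
    (hnz : ∀ i, ∀ a ∈ S i, ∃ z, ell (p i) (q i) (pt i a) z ≠ 0) :
    ∀ i, ∀ z, WW (p i) (q i) z = 0 := by
  classical
  by_contra hcon
  push Not at hcon
  obtain ⟨i₀, z₁, hi₀⟩ := hcon
  set J : Finset ι := Finset.univ.filter fun i => ∃ z, WW (p i) (q i) z ≠ 0 with hJ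
  have hJne : J.Nonempty := ⟨i₀, Finset.mem_filter.2 ⟨Finset.mem_univ _, z₁, hi₀⟩⟩
  have hJW : ∀ i ∈ J, ∃ z, WW (p i) (q i) z ≠ 0 := fun i hi => (Finset.mem_filter.1 hi).2
  -- outside `J` the linear forms have no zeros
  have hout : ∀ i, i ∉ J → ∀ a ∈ S i, ∀ z, ell (p i) (q i) (pt i a) z ≠ 0 := by
    intro i hi a ha z hz
    have hW : ∀ z, WW (p i) (q i) z = 0 := by
      by_contra h
      push Not at h
      exact hi (Finset.mem_filter.2 ⟨Finset.mem_univ _, h⟩)
    have hc := const_of_WW (hp i) (hq i) (hpq i) hW z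
    obtain ⟨t, ht⟩ := hnz i a ha
    apply ht
    have h1 := hc t
    unfold ell at hz ⊢
    -- (p z, q z) is proportional to pt i a
    rcases hpq i z with h | h
    · have : p i z * ((pt i a).2 * p i t - (pt i a).1 * q i t) = 0 := by
        linear_combination p i t * hz + (pt i a).1 * h1
      exact (mul_eq_zero.1 this).resolve_left h
    · have : q i z * ((pt i a).2 * p i t - (pt i a).1 * q i t) = 0 := by
        linear_combination q i t * hz + (pt i a).2 * h1
      exact (mul_eq_zero.1 this).resolve_left h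
  refine joint (w := w) (lam := lam) hJne (fun i _ => hp i) (fun i _ => hq i) (fun i _ => hpq i)
    (fun i _ => hS i) (fun i _ => hne i) (fun i _ => hw0 i) (fun i _ => hw1 i)
    (fun i _ => hsum i) (fun i _ => hlam i) hJW ?_
  rintro z₀ ⟨i₁, hi₁, a₁, ha₁, hz₁⟩
  -- the set of indices with a zero
  set I : Finset ι := J.filter fun i => ∃ a ∈ S i, ell (p i) (q i) (pt i a) z₀ = 0 with hI
  have hIne : I.Nonempty := ⟨i₁, Finset.mem_filter.2 ⟨hi₁, a₁, ha₁, hz₁⟩⟩
  have hex : ∀ i : ι, ∃ a : τ, i ∈ I → a ∈ S i ∧ ell (p i) (q i) (pt i a) z₀ = 0 := by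
    intro i
    by_cases hi : i ∈ I
    · obtain ⟨a, ha, ha'⟩ := (Finset.mem_filter.1 hi).2
      exact ⟨a, fun _ => ⟨ha, ha'⟩⟩
    · exact ⟨a₁, fun h => absurd h hi⟩
  choose a ha using hex
  set m : ι → ℕ := fun i => analyticOrderNatAt (ell (p i) (q i) (pt i (a i))) z₀ with hm
  have huniq : ∀ i ∈ I, ∀ b ∈ S i, ell (p i) (q i) (pt i b) z₀ = 0 → b = a i := by
    intro i hi b hb hb'
    by_contra hab
    exact ell_common (hne i b hb (a i) (ha i hi).1 hab) (hpq i) hb' (ha i hi).2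
  have hord0 : ∀ i, ∀ b ∈ S i, ell (p i) (q i) (pt i b) z₀ ≠ 0 →
      analyticOrderNatAt (ell (p i) (q i) (pt i b)) z₀ = 0 := by
    intro i b _ hb'
    unfold analyticOrderNatAt
    rw [((ell_diff (hp i) (hq i) _).analyticAt z₀).analyticOrderAt_eq_zero.2 hb']; rfl
  have hm1 : ∀ i ∈ I, 1 ≤ m i := by
    intro i hi
    rw [Nat.one_le_iff_ne_zero]
    intro h0
    have h1 : analyticOrderAt (ell (p i) (q i) (pt i (a i))) z₀ = 0 := by
      rw [← Nat.cast_analyticOrderNatAt (ent_order (ell_diff (hp i) (hq i) _)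
        (hnz i _ (ha i hi).1) z₀)]
      simp only [hm] at h0
      rw [h0]; rfl
    exact (((ell_diff (hp i) (hq i) _).analyticAt z₀).analyticOrderAt_eq_zero.1 h1) (ha i hi).2
  have hdiv : ∀ j, n j ∣ ∑ i ∈ I, e j i (a i) * m i := by
    intro j
    have hpow : ∀ i, ∀ b ∈ S i, Differentiable ℂ (ell (p i) (q i) (pt i b) ^ e j i b) ∧
        ∃ t, (ell (p i) (q i) (pt i b) ^ e j i b) t ≠ 0 := by
      intro i b hb
      refine ⟨(ell_diff (hp i) (hq i) _).pow _, ?_⟩
      obtain ⟨t, ht⟩ := hnz i b hb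
      exact ⟨t, by simpa using pow_ne_zero _ ht⟩
    have hin : ∀ i, _ := fun i => ord_prod (S i) (fun b => ell (p i) (q i) (pt i b) ^ e j i b)
      (fun b hb => (hpow i b hb).1) (fun b hb => (hpow i b hb).2) z₀
    have hout' := ord_prod Finset.univ (fun i t => ∏ b ∈ S i,
      (ell (p i) (q i) (pt i b) ^ e j i b) t) (fun i _ => (hin i).1) (fun i _ => (hin i).2.1) z₀
    have e1 : f j ^ n j = (fun _ => c j) * (fun t => ∏ i, ∏ b ∈ S i,
        (ell (p i) (q i) (pt i b) ^ e j i b) t) := by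
      ext t
      simp only [Pi.pow_apply, Pi.mul_apply]
      exact heq j t
    have e2 : analyticOrderNatAt (f j ^ n j) z₀ = n j * analyticOrderNatAt (f j) z₀ := by
      rw [analyticOrderNatAt_pow ((hf j).analyticAt z₀)]; simp
    have hcord : analyticOrderAt (fun _ : ℂ => c j) z₀ = 0 :=
      (analyticAt_const (v := c j)).analyticOrderAt_eq_zero.2 (hc j)
    have e3 : analyticOrderNatAt (f j ^ n j) z₀ = ∑ i, ∑ b ∈ S i,
        e j i b * analyticOrderNatAt (ell (p i) (q i) (pt i b)) z₀ := by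
      rw [e1, analyticOrderNatAt_mul analyticAt_const (hout'.1.analyticAt z₀)
        (by rw [hcord]; simp) (ent_order hout'.1 hout'.2.1 z₀), hout'.2.2]
      have : analyticOrderNatAt (fun _ : ℂ => c j) z₀ = 0 := by
        unfold analyticOrderNatAt; rw [hcord]; rfl
      rw [this, zero_add]
      refine Finset.sum_congr rfl fun i _ => ?_
      rw [(hin i).2.2]
      refine Finset.sum_congr rfl fun b hb => ?_
      rw [analyticOrderNatAt_pow ((ell_diff (hp i) (hq i) _).analyticAt z₀)]; simp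
    have e4 : ∑ i, ∑ b ∈ S i, e j i b * analyticOrderNatAt (ell (p i) (q i) (pt i b)) z₀ =
        ∑ i ∈ I, e j i (a i) * m i := by
      rw [← Finset.sum_subset (Finset.subset_univ I)]
      · refine Finset.sum_congr rfl fun i hi => ?_
        rw [Finset.sum_eq_single_of_mem (a i) (ha i hi).1]
        intro b hb hba
        rw [hord0 i b hb fun h => hba (huniq i hi b hb h), mul_zero]
      · intro i _ hi
        refine Finset.sum_eq_zero fun b hb => ?_
        rw [hord0 i b hb ?_, mul_zero]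
        by_cases hiJ : i ∈ J
        · intro h
          exact hi (Finset.mem_filter.2 ⟨hiJ, b, hb, h⟩)
        · exact hout i hiJ b hb z₀
    exact ⟨analyticOrderNatAt (f j) z₀, by rw [← e4, ← e3, e2]⟩
  have hfinal := hcond I hIne a m (fun i hi =>
    ⟨(ha i hi).1, fun h => hO i (a i) h z₀ (ha i hi).2, hm1 i hi⟩) hdiv
  have hmu : ∑ i ∈ J, lam i * mu (p i) (q i) (S i) (pt i) (w i) z₀ =
      ∑ i ∈ I, lam i * (m i * (1 - w i (a i)) - 1) := by
    have hIJ : I ⊆ J := fun i hi => (Finset.mem_filter.1 hi).1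
    rw [← Finset.sum_subset hIJ]
    · refine Finset.sum_congr rfl fun i hi => ?_
      congr 1
      unfold mu
      rw [Finset.sum_eq_single_of_mem (a i) (Finset.mem_filter.2 (ha i hi))]
      intro b hb hba
      obtain ⟨hb1, hb2⟩ := Finset.mem_filter.1 hb
      exact absurd (huniq i hi b hb1 hb2) hba
    · intro i hiJ hi
      unfold mu
      rw [Finset.sum_eq_zero, mul_zero]
      intro b hb
      obtain ⟨hb1, hb2⟩ := Finset.mem_filter.1 hb
      exact absurd (Finset.mem_filter.2 ⟨hiJ, b, hb1, hb2⟩) hi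
  rw [hmu]
  exact hfinal

end

end H121R3
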