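import Pool.Agent.H121R3.Siegel

/-!
# `Γ_g(2,4)` is a group, and it acts properly discontinuously near `i · 1`
-/

namespace H121R3

open Matrix

variable {g : ℕ}

theorem gam_iff (γ : symplecticGroup (Fin g) ℤ) :
    γ ∈ Gam24 g ↔
      (∀ i j, (2 : ℤ) ∣ γ.1 i j - (1 : Matrix (Fin g ⊕ Fin g) (Fin g ⊕ Fin g) ℤ) i j) ∧
      ∀ i, (4 : ℤ) ∣ γ.1 (Sum.inl i) (Sum.inr i) ∧ (4 : ℤ) ∣ γ.1 (Sum.inr i) (Sum.inl i) := by
  unfold Gam24
  simp only [Set.mem_setOf_eq]
  refine and_congr_right fun h2 => forall_congr' fun i => ?_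
  have key1 : (4 : ℤ) ∣ (γ.1.toBlocks₁₁ * (γ.1.toBlocks₁₂)ᵀ) i i - γ.1 (Sum.inl i) (Sum.inr i) := by
    have e : (γ.1.toBlocks₁₁ * (γ.1.toBlocks₁₂)ᵀ) i i - γ.1 (Sum.inl i) (Sum.inr i) =
        ∑ k, (γ.1 (Sum.inl i) (Sum.inl k) -
          (1 : Matrix (Fin g ⊕ Fin g) (Fin g ⊕ Fin g) ℤ) (Sum.inl i) (Sum.inl k)) *
          γ.1 (Sum.inl i) (Sum.inr k) := by
      simp only [Matrix.mul_apply, transpose_apply, toBlocks₁₁, toBlocks₁₂, of_apply, sub_mul,
        Finset.sum_sub_distrib]
      congr 1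
      simp [Matrix.one_apply]
    rw [e]
    refine Finset.dvd_sum fun k _ => ?_
    have a1 := h2 (Sum.inl i) (Sum.inl k)
    have a2 := h2 (Sum.inl i) (Sum.inr k)
    simp only [Matrix.one_apply, reduceCtorEq, if_false, sub_zero] at a2
    have := mul_dvd_mul a1 a2
    norm_num at this
    simpa using this
  have key2 : (4 : ℤ) ∣ (γ.1.toBlocks₂₁ * (γ.1.toBlocks₂₂)ᵀ) i i - γ.1 (Sum.inr i) (Sum.inl i) := by
    have e : (γ.1.toBlocks₂₁ * (γ.1.toBlocks₂₂)ᵀ) i i - γ.1 (Sum.inr i) (Sum.inl i) =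
        ∑ k, γ.1 (Sum.inr i) (Sum.inl k) * (γ.1 (Sum.inr i) (Sum.inr k) -
          (1 : Matrix (Fin g ⊕ Fin g) (Fin g ⊕ Fin g) ℤ) (Sum.inr i) (Sum.inr k)) := by
      simp only [Matrix.mul_apply, transpose_apply, toBlocks₂₁, toBlocks₂₂, of_apply, mul_sub,
        Finset.sum_sub_distrib]
      congr 1
      simp [Matrix.one_apply]
    rw [e]
    refine Finset.dvd_sum fun k _ => ?_
    have a1 := h2 (Sum.inr i) (Sum.inr k)
    have a2 := h2 (Sum.inr i) (Sum.inl k)
    simp only [Matrix.one_apply, reduceCtorEq, if_false, sub_zero] at a2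
    have := mul_dvd_mul a2 a1
    norm_num at this
    simpa using this
  exact and_congr ((Int.dvd_iff_dvd_of_dvd_sub key1)) ((Int.dvd_iff_dvd_of_dvd_sub key2))

theorem gam_one : (1 : symplecticGroup (Fin g) ℤ) ∈ Gam24 g := by
  rw [gam_iff]
  have h : (1 : symplecticGroup (Fin g) ℤ).1 = 1 := rfl
  refine ⟨fun i j => by rw [h]; simp, fun i => by rw [h]; simp [Matrix.one_apply]⟩

theorem gam_mul {γ δ : symplecticGroup (Fin g) ℤ} (hγ : γ ∈ Gam24 g) (hδ : δ ∈ Gam24 g) :
    γ * δ ∈ Gam24 g := by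
  rw [gam_iff] at *
  have h : (γ * δ).1 = γ.1 * δ.1 := rfl
  have key : ∀ i j, (4 : ℤ) ∣ (γ * δ).1 i j - γ.1 i j - δ.1 i j +
      (1 : Matrix (Fin g ⊕ Fin g) (Fin g ⊕ Fin g) ℤ) i j := by
    intro i j
    have e : (γ.1 - 1) * (δ.1 - 1) = (γ * δ).1 - γ.1 - δ.1 + 1 := by
      rw [h]; noncomm_ring
    have e2 := congrFun (congrFun e i) j
    simp only [Matrix.add_apply, Matrix.sub_apply] at e2
    rw [← e2, Matrix.mul_apply]
    refine Finset.dvd_sum fun k _ => ?_
    have := mul_dvd_mul (hγ.1 i k) (hδ.1 k j)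
    norm_num at this
    simpa using this
  refine ⟨fun i j => ?_, fun i => ⟨?_, ?_⟩⟩
  · have k1 := key i j
    have k2 := hγ.1 i j
    have k3 := hδ.1 i j
    omega
  · have k1 := key (Sum.inl i) (Sum.inr i)
    have k2 := (hγ.2 i).1
    have k3 := (hδ.2 i).1
    simp only [Matrix.one_apply, reduceCtorEq, if_false, add_zero] at k1
    omega
  · have k1 := key (Sum.inr i) (Sum.inl i)
    have k2 := (hγ.2 i).2
    have k3 := (hδ.2 i).2
    simp only [Matrix.one_apply, reduceCtorEq, if_false, add_zero] at k1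
    omega

theorem gam_inv {γ : symplecticGroup (Fin g) ℤ} (hγ : γ ∈ Gam24 g) : γ⁻¹ ∈ Gam24 g := by
  rw [gam_iff] at *
  have h : γ.1 * (γ⁻¹).1 = 1 := by
    have : (γ * γ⁻¹).1 = (1 : symplecticGroup (Fin g) ℤ).1 := by rw [mul_inv_cancel]
    exact this
  have h2 : ∀ i j, (2 : ℤ) ∣ (γ⁻¹).1 i j -
      (1 : Matrix (Fin g ⊕ Fin g) (Fin g ⊕ Fin g) ℤ) i j := by
    intro i j
    have e : (γ.1 - 1) * (γ⁻¹).1 = 1 - (γ⁻¹).1 := by
      rw [Matrix.sub_mul, h, Matrix.one_mul]
    have e2 := congrFun (congrFun e i) j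
    rw [Matrix.mul_apply, Matrix.sub_apply] at e2
    have : (2 : ℤ) ∣ ∑ k, (γ.1 - 1) i k * (γ⁻¹).1 k j :=
      Finset.dvd_sum fun k _ => Dvd.dvd.mul_right (by simpa using hγ.1 i k) _
    rw [e2] at this
    omega
  have key : ∀ i j, (4 : ℤ) ∣ γ.1 i j + (γ⁻¹).1 i j -
      2 * (1 : Matrix (Fin g ⊕ Fin g) (Fin g ⊕ Fin g) ℤ) i j := by
    intro i j
    have e : (γ.1 - 1) * ((γ⁻¹).1 - 1) = 1 - (γ⁻¹).1 - γ.1 + 1 := by
      have : (γ.1 - 1) * ((γ⁻¹).1 - 1) = γ.1 * (γ⁻¹).1 - (γ⁻¹).1 - γ.1 + 1 := by noncomm_ring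
      rw [this, h]
    have e2 := congrFun (congrFun e i) j
    simp only [Matrix.add_apply, Matrix.sub_apply] at e2
    have : (4 : ℤ) ∣ ((γ.1 - 1) * ((γ⁻¹).1 - 1)) i j := by
      rw [Matrix.mul_apply]
      refine Finset.dvd_sum fun k _ => ?_
      have := mul_dvd_mul (hγ.1 i k) (h2 k j)
      norm_num at this
      simpa using this
    omega
  refine ⟨h2, fun i => ⟨?_, ?_⟩⟩
  · have k1 := key (Sum.inl i) (Sum.inr i)
    have k2 := (hγ.2 i).1
    simp only [Matrix.one_apply, reduceCtorEq, if_false, mul_zero, sub_zero] at k1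
    omega
  · have k1 := key (Sum.inr i) (Sum.inl i)
    have k2 := (hγ.2 i).2
    simp only [Matrix.one_apply, reduceCtorEq, if_false, mul_zero, sub_zero] at k1
    omega

/-- The Hermitian form of the imaginary part. -/
def qf (τ : Mat g) (v : Fin g → ℂ) : ℝ :=
  (∑ i, ∑ j, (v i).re * (τ i j).im * (v j).re) + (∑ i, ∑ j, (v i).im * (τ i j).im * (v j).im)

theorem quad_transfer (γ : symplecticGroup (Fin g) ℤ) {τ : Mat g} (hτ : τ ∈ siegel g)
    (v : Fin g → ℂ) : qf (act γ τ) ((bC γ * Matrix.of τ + bD γ) *ᵥ v) = qf τ v := by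
  set Q := bC γ * Matrix.of τ + bD γ with hQ
  have h1 : star (Q *ᵥ v) ⬝ᵥ ((Matrix.of (act γ τ) - (Matrix.of (act γ τ))ᴴ) *ᵥ (Q *ᵥ v)) =
      star v ⬝ᵥ ((Matrix.of τ - (Matrix.of τ)ᴴ) *ᵥ v) := by
    rw [← act_herm γ hτ, ← mulVec_mulVec, ← mulVec_mulVec, dotProduct_mulVec (star v),
      ← star_mulVec]
  rw [tsub _ (act_symm γ hτ), tsub _ hτ.1, quad_split _ (fun i j => by rw [act_symm γ hτ]),
    quad_split _ (fun i j => by rw [hτ.1])] at h1
  have h2 := mul_left_cancel₀ (by simp) h1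
  exact Complex.ofReal_injective h2

/-- `τ` is close to `i · 1`. -/
def Near (r : ℝ) (τ : Mat g) : Prop := ∀ i j, ‖τ i j - (if i = j then Complex.I else 0)‖ < r

theorem near_im {r : ℝ} {τ : Mat g} (h : Near r τ) (i j : Fin g) :
    |(τ i j).im - (if i = j then 1 else 0)| < r := by
  refine lt_of_le_of_lt ?_ (h i j)
  have : (τ i j).im - (if i = j then 1 else 0) = (τ i j - (if i = j then Complex.I else 0)).im := by
    split_ifs <;> simp
  rw [this]
  exact Complex.abs_im_le_norm _

theorem real_lower {r : ℝ} {τ : Mat g} (h : Near r τ) (x : Fin g → ℝ) :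
    (1 - g * r) * ∑ i, x i ^ 2 ≤ ∑ i, ∑ j, x i * (τ i j).im * x j := by
  have e : ∑ i, ∑ j, x i * (τ i j).im * x j =
      ∑ i, x i ^ 2 + ∑ i, ∑ j, x i * ((τ i j).im - (if i = j then 1 else 0)) * x j := by
    rw [← Finset.sum_add_distrib]
    refine Finset.sum_congr rfl fun i _ => ?_
    have : x i ^ 2 = ∑ j, x i * (if i = j then 1 else 0) * x j := by simp [sq]
    rw [this, ← Finset.sum_add_distrib]
    exact Finset.sum_congr rfl fun j _ => by ring
  have hr : 0 ≤ r ∨ IsEmpty (Fin g) := by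
    by_cases hg : Nonempty (Fin g)
    · obtain ⟨i⟩ := hg
      exact Or.inl (le_trans (norm_nonneg _) (h i i).le)
    · exact Or.inr (not_nonempty_iff.1 hg)
  rcases hr with hr | hr
  · have b : ∀ i j, -(r * (|x i| * |x j|)) ≤
        x i * ((τ i j).im - (if i = j then 1 else 0)) * x j := by
      intro i j
      have h1 := near_im h i j
      have h2 : |x i * ((τ i j).im - (if i = j then 1 else 0)) * x j| ≤ r * (|x i| * |x j|) := by
        rw [abs_mul, abs_mul]
        have := mul_le_mul_of_nonneg_right h1.le (by positivity : (0 : ℝ) ≤ |x i| * |x j|)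
        linarith
      exact (abs_le.1 h2).1
    have b2 : -(r * (∑ i, |x i|) ^ 2) ≤
        ∑ i, ∑ j, x i * ((τ i j).im - (if i = j then 1 else 0)) * x j := by
      calc -(r * (∑ i, |x i|) ^ 2) = ∑ i, ∑ j, -(r * (|x i| * |x j|)) := by
            rw [sq, Finset.sum_mul_sum, Finset.mul_sum, ← Finset.sum_neg_distrib]
            refine Finset.sum_congr rfl fun i _ => ?_
            rw [Finset.mul_sum, ← Finset.sum_neg_distrib]
        _ ≤ _ := Finset.sum_le_sum fun i _ => Finset.sum_le_sum fun j _ => b i j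
    have b3 : (∑ i, |x i|) ^ 2 ≤ g * ∑ i, x i ^ 2 := by
      have := sq_sum_le_card_mul_sum_sq (s := (Finset.univ : Finset (Fin g))) (f := fun i => |x i|)
      simpa using this
    rw [e]
    nlinarith [mul_le_mul_of_nonneg_left b3 hr]
  · rw [e]; simp

theorem qf_lower {r : ℝ} {τ : Mat g} (h : Near r τ) (v : Fin g → ℂ) :
    (1 - g * r) * ∑ i, ‖v i‖ ^ 2 ≤ qf τ v := by
  have h1 := real_lower h fun i => (v i).re
  have h2 := real_lower h fun i => (v i).im
  have e : ∑ i, ‖v i‖ ^ 2 = ∑ i, (v i).re ^ 2 + ∑ i, (v i).im ^ 2 := by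
    rw [← Finset.sum_add_distrib]
    refine Finset.sum_congr rfl fun i _ => ?_
    rw [← Complex.normSq_eq_norm_sq, Complex.normSq_apply]; ring
  unfold qf
  rw [e, mul_add]
  linarith

theorem int_small {n : ℤ} (h : |(n : ℝ)| < 1) : n = 0 := by
  have : |n| < 1 := by exact_mod_cast h
  exact Int.abs_lt_one_iff.1 this

theorem disc {r : ℝ} (hgr : g * r ≤ 1 / 20) (γ : symplecticGroup (Fin g) ℤ)
    (h2 : ∀ i j, (2 : ℤ) ∣ γ.1 i j - (1 : Matrix (Fin g ⊕ Fin g) (Fin g ⊕ Fin g) ℤ) i j)
    {τ : Mat g} (hτ : τ ∈ siegel g) (hn : Near r τ) (hn' : Near r (act γ τ)) :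
    ∃ s : Fin g → ℤ, (∀ i, s i = 1 ∨ s i = -1) ∧ ∀ i j, act γ τ i j = s i * s j * τ i j := by
  set c : Fin g → Fin g → ℤ := fun i j => γ.1 (Sum.inr i) (Sum.inl j) with hc
  set d : Fin g → Fin g → ℤ := fun i j => γ.1 (Sum.inr i) (Sum.inr j) with hd
  set Q := bC γ * Matrix.of τ + bD γ with hQ
  have Qe : ∀ i j, Q i j = ∑ k, (c i k : ℂ) * τ k j + d i j := by
    intro i j
    simp [hQ, Matrix.mul_apply, bC, bD, hc, hd, toBlocks₂₁, toBlocks₂₂]
  have hg0 : ∀ i : Fin g, (1 : ℝ) ≤ g := fun i => by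
    have : 0 < g := Fin.pos i
    exact_mod_cast this
  have hr0 : ∀ i : Fin g, 0 < r := fun i => lt_of_le_of_lt (norm_nonneg _) (hn i i)
  have hrs : ∀ i : Fin g, r ≤ 1 / 20 := fun i => by
    nlinarith [hg0 i, hr0 i]
  -- column sums
  have col : ∀ j, ∑ i, ‖Q i j‖ ^ 2 ≤ 21 / 19 := by
    intro j
    have t := quad_transfer γ hτ (Pi.single j 1)
    have e1 : (bC γ * Matrix.of τ + bD γ) *ᵥ (Pi.single j 1) = fun i => Q i j := by
      ext i; rw [← hQ]; simp
    have e2 : qf τ (Pi.single j 1) = (τ j j).im := by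
      unfold qf
      have p1 : ∀ i, ((Pi.single j (1 : ℂ) : Fin g → ℂ) i).re = if i = j then 1 else 0 := by
        intro i; by_cases h : i = j
        · subst h; simp
        · simp [h]
      have p2 : ∀ i, ((Pi.single j (1 : ℂ) : Fin g → ℂ) i).im = 0 := by
        intro i; by_cases h : i = j
        · subst h; simp
        · simp [h]
      simp [p1, p2]
    rw [e1, e2] at t
    have l := qf_lower hn' (fun i => Q i j)
    rw [t] at l
    have u := near_im hn j j
    simp only [if_true] at u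
    have u2 := (abs_lt.1 u).2
    have hs : 0 ≤ ∑ i, ‖Q i j‖ ^ 2 := Finset.sum_nonneg fun i _ => by positivity
    have := hrs j
    nlinarith
  have ent : ∀ i j, ‖Q i j‖ ^ 2 ≤ 21 / 19 := fun i j =>
    (Finset.single_le_sum (f := fun i => ‖Q i j‖ ^ 2) (fun i _ => by positivity)
      (Finset.mem_univ i)).trans (col j)
  have ent1 : ∀ i j, ‖Q i j‖ ≤ 21 / 19 := fun i j => by
    nlinarith [ent i j, norm_nonneg (Q i j)]
  have imQ : ∀ i j, (Q i j).im = ∑ k, (c i k : ℝ) * (τ k j).im := by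
    intro i j
    rw [Qe]
    simp [Complex.im_sum]
  -- bound on c
  have cb : ∀ i k, |(c i k : ℝ)| ≤ 1 := by
    intro i
    haveI : Nonempty (Fin g) := ⟨i⟩
    obtain ⟨k0, hk0⟩ := Finite.exists_max fun k => |(c i k : ℝ)|
    set M := |(c i k0 : ℝ)| with hM
    have h1 : (Q i k0).im = c i k0 + ∑ k, (c i k : ℝ) * ((τ k k0).im - (if k = k0 then 1 else 0)) := by
      rw [imQ]
      have : (c i k0 : ℝ) = ∑ k, (c i k : ℝ) * (if k = k0 then 1 else 0) := by simp
      rw [this, ← Finset.sum_add_distrib]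
      exact Finset.sum_congr rfl fun k _ => by ring
    have h3 : |∑ k, (c i k : ℝ) * ((τ k k0).im - (if k = k0 then 1 else 0))| ≤ g * (M * r) := by
      calc |∑ k, (c i k : ℝ) * ((τ k k0).im - (if k = k0 then 1 else 0))|
          ≤ ∑ k, |(c i k : ℝ) * ((τ k k0).im - (if k = k0 then 1 else 0))| :=
            Finset.abs_sum_le_sum_abs _ _
        _ ≤ ∑ _k : Fin g, M * r := by
            refine Finset.sum_le_sum fun k _ => ?_
            rw [abs_mul]
            exact mul_le_mul (hk0 k) (near_im hn k k0).le (abs_nonneg _) (abs_nonneg _)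
        _ = g * (M * r) := by simp
    have h4 : |(Q i k0).im| ≤ 21 / 19 := (Complex.abs_im_le_norm _).trans (ent1 i k0)
    have h5 : M ≤ |(Q i k0).im| + g * (M * r) := by
      have : (c i k0 : ℝ) = (Q i k0).im -
          ∑ k, (c i k : ℝ) * ((τ k k0).im - (if k = k0 then 1 else 0)) := by rw [h1]; ring
      calc M = |(Q i k0).im - ∑ k, (c i k : ℝ) * ((τ k k0).im - (if k = k0 then 1 else 0))| := by
            rw [hM]; exact congrArg abs this
        _ ≤ |(Q i k0).im| + |∑ k, (c i k : ℝ) * ((τ k k0).im - (if k = k0 then 1 else 0))| :=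
            abs_sub _ _
        _ ≤ _ := by linarith
    have hM0 : 0 ≤ M := abs_nonneg _
    have h6 : M < 2 := by
      have : g * (M * r) ≤ 1 / 20 * M := by
        calc g * (M * r) = (g * r) * M := by ring
          _ ≤ 1 / 20 * M := mul_le_mul_of_nonneg_right hgr hM0
      linarith
    have h7 : |c i k0| ≤ 1 := by
      have : |c i k0| < 2 := by
        have h8 : ((|c i k0| : ℤ) : ℝ) < 2 := by push_cast; exact h6
        exact_mod_cast h8
      omega
    intro k
    refine (hk0 k).trans ?_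
    have : ((|c i k0| : ℤ) : ℝ) ≤ 1 := by exact_mod_cast h7
    push_cast at this
    exact this
  -- Q is close to i c + d
  have close : ∀ i j, ‖Q i j - (Complex.I * c i j + d i j)‖ ≤ 1 / 20 := by
    intro i j
    have e : Q i j - (Complex.I * c i j + d i j) =
        ∑ k, (c i k : ℂ) * (τ k j - (if k = j then Complex.I else 0)) := by
      rw [Qe]
      have : Complex.I * c i j = ∑ k, (c i k : ℂ) * (if k = j then Complex.I else 0) := by
        simp [mul_comm]
      rw [this, add_sub_add_right_eq_sub, ← Finset.sum_sub_distrib]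
      exact Finset.sum_congr rfl fun k _ => by ring
    rw [e]
    calc ‖∑ k, (c i k : ℂ) * (τ k j - (if k = j then Complex.I else 0))‖
        ≤ ∑ k, ‖(c i k : ℂ) * (τ k j - (if k = j then Complex.I else 0))‖ := norm_sum_le _ _
      _ ≤ ∑ _k : Fin g, 1 * r := by
          refine Finset.sum_le_sum fun k _ => ?_
          rw [norm_mul]
          refine mul_le_mul ?_ (hn k j).le (norm_nonneg _) zero_le_one
          have : ‖(c i k : ℂ)‖ = |(c i k : ℝ)| := by
            rw [← Complex.ofReal_intCast, Complex.norm_real, Real.norm_eq_abs]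
          rw [this]; exact cb i k
      _ ≤ 1 / 20 := by simpa using hgr
  have nrm : ∀ m n : ℤ, ‖Complex.I * m + n‖ ^ 2 = ((m ^ 2 + n ^ 2 : ℤ) : ℝ) := by
    intro m n
    rw [← Complex.normSq_eq_norm_sq, Complex.normSq_apply]
    simp; ring
  have le1 : ∀ i j, c i j ^ 2 + d i j ^ 2 ≤ 1 := by
    intro i j
    have h3 : ‖Complex.I * c i j + d i j‖ ≤ 21 / 19 + 1 / 20 := by
      have : Complex.I * c i j + d i j = Q i j - (Q i j - (Complex.I * c i j + d i j)) := by ring
      rw [this]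
      exact (norm_sub_le _ _).trans (add_le_add (ent1 i j) (close i j))
    have h4 := nrm (c i j) (d i j)
    have h5 : ((c i j ^ 2 + d i j ^ 2 : ℤ) : ℝ) < 2 := by
      rw [← h4]; nlinarith [norm_nonneg (Complex.I * c i j + d i j)]
    have : c i j ^ 2 + d i j ^ 2 < 2 := by exact_mod_cast h5
    omega
  have dodd : ∀ j, (2 : ℤ) ∣ d j j - 1 := by
    intro j
    have := h2 (Sum.inr j) (Sum.inr j)
    simpa [Matrix.one_apply] using this
  have djj : ∀ j, d j j ≠ 0 := fun j h => by
    have := dodd j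
    omega
  have djsq : ∀ j, d j j ^ 2 = 1 ∧ c j j = 0 := by
    intro j
    have a1 := le1 j j
    have a2 : 1 ≤ d j j ^ 2 := by
      have := djj j
      have : 0 < d j j ^ 2 := by positivity
      omega
    have a3 : 0 ≤ c j j ^ 2 := sq_nonneg _
    refine ⟨by omega, ?_⟩
    have : c j j ^ 2 = 0 := by omega
    exact pow_eq_zero_iff (two_ne_zero) |>.1 this
  have dpm : ∀ j, d j j = 1 ∨ d j j = -1 := fun j => by
    have h : (d j j - 1) * (d j j + 1) = 0 := by
      have := (djsq j).1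
      linear_combination this
    rcases mul_eq_zero.1 h with h | h
    · exact Or.inl (by omega)
    · exact Or.inr (by omega)
  have off : ∀ i j, i ≠ j → c i j = 0 ∧ d i j = 0 := by
    intro i j hij
    have a1 : ‖Complex.I * c j j + d j j‖ = 1 := by
      have := nrm (c j j) (d j j)
      rw [(djsq j).1, (djsq j).2] at this
      rw [(djsq j).2]
      have h0 : ‖Complex.I * ((0 : ℤ) : ℂ) + d j j‖ ^ 2 = 1 := by rw [this]; norm_num
      nlinarith [norm_nonneg (Complex.I * ((0 : ℤ) : ℂ) + d j j),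
        sq_nonneg (‖Complex.I * ((0 : ℤ) : ℂ) + d j j‖ - 1)]
    have a2 : 19 / 20 ≤ ‖Q j j‖ := by
      have h3 : Complex.I * c j j + d j j = Q j j - (Q j j - (Complex.I * c j j + d j j)) := by ring
      have h4 := norm_sub_le (Q j j) (Q j j - (Complex.I * c j j + d j j))
      rw [← h3, a1] at h4
      linarith [close j j]
    have a3 : ‖Q i j‖ ^ 2 + ‖Q j j‖ ^ 2 ≤ 21 / 19 := by
      refine le_trans ?_ (col j)
      rw [← Finset.sum_pair (f := fun i => ‖Q i j‖ ^ 2) hij]
      exact Finset.sum_le_sum_of_subset_of_nonneg (Finset.subset_univ _)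
        fun _ _ _ => by positivity
    have a4 : ‖Q i j‖ ≤ 1 / 2 := by
      nlinarith [norm_nonneg (Q i j)]
    have a5 : ‖Complex.I * c i j + d i j‖ ≤ 1 / 2 + 1 / 20 := by
      have : Complex.I * c i j + d i j = Q i j - (Q i j - (Complex.I * c i j + d i j)) := by ring
      rw [this]
      exact (norm_sub_le _ _).trans (add_le_add a4 (close i j))
    have a6 := nrm (c i j) (d i j)
    have a7 : ((c i j ^ 2 + d i j ^ 2 : ℤ) : ℝ) < 1 := by
      rw [← a6]; nlinarith [norm_nonneg (Complex.I * c i j + d i j)]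
    have a8 : c i j ^ 2 + d i j ^ 2 < 1 := by exact_mod_cast a7
    have a9 : 0 ≤ c i j ^ 2 := sq_nonneg _
    have a10 : 0 ≤ d i j ^ 2 := sq_nonneg _
    refine ⟨?_, ?_⟩
    · exact pow_eq_zero_iff (two_ne_zero) |>.1 (by omega : c i j ^ 2 = 0)
    · exact pow_eq_zero_iff (two_ne_zero) |>.1 (by omega : d i j ^ 2 = 0)
  have c0 : ∀ i j, c i j = 0 := by
    intro i j
    by_cases h : i = j
    · subst h; exact (djsq i).2
    · exact (off i j h).1
  have dd : ∀ i j, d i j = if i = j then d i i else 0 := by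
    intro i j
    by_cases h : i = j
    · subst h; simp
    · simp [h, (off i j h).2]
  -- the block a
  obtain ⟨-, -, r3, -⟩ := relsZ γ
  set a : Fin g → Fin g → ℤ := fun i j => γ.1 (Sum.inl i) (Sum.inl j) with ha
  set b : Fin g → Fin g → ℤ := fun i j => γ.1 (Sum.inl i) (Sum.inr j) with hb
  have aa : ∀ i j, a i j = if i = j then d i i else 0 := by
    intro i j
    have e := congrFun (congrFun r3 j) i
    simp only [Matrix.sub_apply, Matrix.mul_apply, transpose_apply, toBlocks₁₁, toBlocks₂₂,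
      toBlocks₂₁, toBlocks₁₂, of_apply] at e
    have e2 : ∑ x, γ.1 (Sum.inr x) (Sum.inl j) * γ.1 (Sum.inl x) (Sum.inr i) = 0 :=
      Finset.sum_eq_zero fun x _ => by
        have := c0 x j
        simp only [hc] at this
        rw [this, zero_mul]
    have e3 : ∑ x, γ.1 (Sum.inl x) (Sum.inl j) * γ.1 (Sum.inr x) (Sum.inr i) = a i j * d i i := by
      rw [Finset.sum_eq_single i]
      · intro x _ hx
        have := (off x i hx).2
        simp only [hd] at this
        rw [this, mul_zero]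
      · intro h; exact absurd (Finset.mem_univ _) h
    rw [e2, e3, sub_zero, Matrix.one_apply] at e
    have s := (djsq i).1
    by_cases h : i = j
    · subst h
      simp only [if_true] at e ⊢
      have : a i i * d i i ^ 2 = d i i := by rw [sq, ← mul_assoc, e, one_mul]
      rw [s, mul_one] at this
      exact this
    · simp only [h, Ne.symm h, if_false] at e ⊢
      rcases mul_eq_zero.1 e with h3 | h3
      · exact h3
      · exact absurd h3 (djj i)
  -- the relation τ' d = a τ + b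
  have P := act_mul_denom γ hτ
  have rel : ∀ i j, act γ τ i j * d j j = d i i * τ i j + b i j := by
    intro i j
    have e := congrFun (congrFun P i) j
    rw [← hQ, Matrix.mul_apply] at e
    have e1 : ∑ k, Matrix.of (act γ τ) i k * Q k j = act γ τ i j * d j j := by
      rw [Finset.sum_eq_single j]
      · rw [Qe]
        simp [c0]
      · intro k _ hk
        rw [Qe, dd k j]
        simp [c0, hk]
      · intro h; exact absurd (Finset.mem_univ _) h
    have e2 : (bA γ * Matrix.of τ + bB γ) i j = d i i * τ i j + b i j := by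
      have : ∀ k, (bA γ) i k = if i = k then (d i i : ℂ) else 0 := by
        intro k
        have h3 : (bA γ) i k = (a i k : ℂ) := by simp [bA, ha, toBlocks₁₁]
        rw [h3, aa]
        split_ifs <;> simp
      rw [Matrix.add_apply, Matrix.mul_apply]
      simp only [this, of_apply, ite_mul, zero_mul, Finset.sum_ite_eq, Finset.mem_univ, if_true]
      simp [bB, hb, toBlocks₁₂]
    rw [e1, e2] at e
    exact e
  have b0 : ∀ i j, b i j = 0 := by
    intro i j
    apply int_small
    have hs : ∀ i, ‖(d i i : ℂ)‖ = 1 := by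
      intro i
      rcases dpm i with h | h <;> simp [h]
    have e : (b i j : ℂ) = (act γ τ i j - (if i = j then Complex.I else 0)) * d j j -
        d i i * (τ i j - (if i = j then Complex.I else 0)) := by
      have := rel i j
      by_cases h : i = j
      · subst h
        simp only [if_true]
        linear_combination -this
      · simp only [h, if_false]
        linear_combination -this
    have : |(b i j : ℝ)| = ‖(b i j : ℂ)‖ := by
      rw [← Complex.ofReal_intCast, Complex.norm_real, Real.norm_eq_abs]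
    rw [this, e]
    calc _ ≤ ‖(act γ τ i j - (if i = j then Complex.I else 0)) * d j j‖ +
          ‖d i i * (τ i j - (if i = j then Complex.I else 0))‖ := norm_sub_le _ _
      _ < 1 := by
        rw [norm_mul, norm_mul, hs, hs]
        have := hn i j
        have := hn' i j
        have := hrs i
        linarith
  refine ⟨fun i => d i i, dpm, fun i j => ?_⟩
  have e := rel i j
  rw [b0] at e
  have s : ((d j j : ℂ)) ^ 2 = 1 := by exact_mod_cast (djsq j).1
  have : act γ τ i j * d j j * d j j = (d i i * τ i j + ((0 : ℤ) : ℂ)) * d j j := by rw [e]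
  rw [mul_assoc, ← sq, s, mul_one] at this
  rw [this]; push_cast; ring

end H121R3
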