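import Mathlib

/-!
# Second order expansion of symmetric exponential sums
-/

namespace H121R3

open Topology Filter

theorem summable_pi_prod (g : ℕ) (f : Fin g → ℤ → ℝ) (hf : ∀ i, Summable (f i))
    (h0 : ∀ i k, 0 ≤ f i k) : Summable (fun n : Fin g → ℤ => ∏ i, f i (n i)) := by
  induction g with
  | zero => exact (hasSum_unique _).summable
  | succ g ih =>
    have h1 := ih (fun i => f i.succ) (fun i => hf _) (fun i k => h0 _ _)
    have h2 := (hf 0).mul_of_nonneg h1 (fun k => h0 0 k)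
      (fun n => Finset.prod_nonneg fun i _ => h0 _ _)
    rw [← (Fin.consEquiv (fun _ : Fin (g + 1) => ℤ)).summable_iff]
    refine h2.congr fun x => ?_
    simp [Fin.prod_univ_succ, Fin.consEquiv]

theorem summable_one (ε : ℝ) (h0 : 0 ≤ ε) (h1 : ε ≤ 1) :
    Summable (fun k : ℤ => Real.exp (-((k : ℝ) + ε) ^ 2)) := by
  have b : ∀ k : ℤ, Real.exp (-((k : ℝ) + ε) ^ 2) ≤ Real.exp 2 * Real.exp (-|(k : ℝ)|) := by
    intro k
    rw [← Real.exp_add]
    apply Real.exp_le_exp.2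
    rcases abs_cases (k : ℝ) with ⟨h, _⟩ | ⟨h, _⟩ <;> rw [h] <;>
      nlinarith [sq_nonneg ((k : ℝ) + ε - 1 / 2), sq_nonneg ((k : ℝ) + ε + 1 / 2)]
  have s : Summable (fun k : ℤ => Real.exp (-|(k : ℝ)|)) := by
    rw [summable_int_iff_summable_nat_and_neg]
    have : Summable fun n : ℕ => Real.exp (-(n : ℝ)) := Real.summable_exp_neg_nat
    constructor
    · refine this.congr fun n => ?_
      simp
    · refine this.congr fun n => ?_
      simp
  exact Summable.of_nonneg_of_le (fun k => (Real.exp_pos _).le) b (s.mul_left _)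

theorem exp_second (z : ℂ) :
    ‖Complex.exp z + Complex.exp (-z) - 2 - z ^ 2‖ ≤ 2 * (‖z‖ ^ 3 * Real.exp ‖z‖) := by
  have h1 := Complex.norm_exp_sub_sum_le_norm_mul_exp z 3
  have h2 := Complex.norm_exp_sub_sum_le_norm_mul_exp (-z) 3
  rw [norm_neg] at h2
  simp only [Finset.sum_range_succ, Finset.sum_range_zero] at h1 h2
  have e : Complex.exp z + Complex.exp (-z) - 2 - z ^ 2 =
      (Complex.exp z - (0 + z ^ 0 / (Nat.factorial 0 : ℂ) + z ^ 1 / (Nat.factorial 1 : ℂ) +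
        z ^ 2 / (Nat.factorial 2 : ℂ))) +
      (Complex.exp (-z) - (0 + (-z) ^ 0 / (Nat.factorial 0 : ℂ) + (-z) ^ 1 / (Nat.factorial 1 : ℂ) +
        (-z) ^ 2 / (Nat.factorial 2 : ℂ))) := by
    simp [Nat.factorial]; ring
  rw [e]
  refine (norm_add_le _ _).trans ?_
  linarith

theorem exp_first (z : ℂ) : ‖Complex.exp z - 1‖ ≤ ‖z‖ * Real.exp ‖z‖ := by
  have h1 := Complex.norm_exp_sub_sum_le_norm_mul_exp z 1
  simpa using h1

theorem cube_le_exp {S : ℝ} (h : 0 ≤ S) : S ^ 3 ≤ 6 * Real.exp S := by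
  have := Real.pow_div_factorial_le_exp S h 3
  have h6 : ((Nat.factorial 3 : ℕ) : ℝ) = 6 := by norm_num [Nat.factorial]
  rw [h6] at this
  linarith [this, (div_le_iff₀ (by norm_num : (0 : ℝ) < 6)).1 this]

theorem sq_le_exp {S : ℝ} (h : 0 ≤ S) : S ^ 2 ≤ 2 * Real.exp S := by
  have := Real.pow_div_factorial_le_exp S h 2
  have h6 : ((Nat.factorial 2 : ℕ) : ℝ) = 2 := by norm_num [Nat.factorial]
  rw [h6] at this
  linarith [this, (div_le_iff₀ (by norm_num : (0 : ℝ) < 2)).1 this]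

section
variable {ι : Type*} {w : ι → ℂ} {S : ι → ℝ}

theorem nrmα (s x : ℝ) (hs : 0 ≤ s) :
    ‖(4 * Real.pi * Complex.I * s * x : ℂ)‖ = 4 * Real.pi * s * |x| := by
  simp [abs_of_nonneg Real.pi_pos.le, abs_of_nonneg hs]

theorem nrm_le {s x S : ℝ} (hs : 0 ≤ s) (hx : |x| ≤ S / 2) :
    ‖(4 * Real.pi * Complex.I * s * x : ℂ)‖ ≤ 2 * Real.pi * s * S := by
  rw [nrmα s x hs]
  have h : 0 ≤ 4 * Real.pi * s := by positivity
  nlinarith [mul_le_mul_of_nonneg_left hx h]

theorem pibound {s S : ℝ} (hs : s ≤ 1 / 8) (hS : 0 ≤ S) :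
    -(2 * Real.pi * S) + 2 * Real.pi * s * S + S ≤ -S := by
  have h3 := Real.pi_gt_three
  have : 2 * Real.pi * s * S ≤ 2 * Real.pi * (1 / 8) * S := by
    have : 0 ≤ 2 * Real.pi * S := by positivity
    nlinarith
  nlinarith

theorem summand_summable (hS : ∀ n, 0 ≤ S n) (hsum : Summable fun n => Real.exp (-S n))
    (hw : ∀ n, ‖w n‖ ≤ Real.exp (-(2 * Real.pi * S n))) {X : ι → ℝ} (hX : ∀ n, |X n| ≤ S n / 2)
    {s : ℝ} (hs0 : 0 ≤ s) (hs : s ≤ 1 / 8) (ε : ℂ) (hε : ‖ε‖ = 1) :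
    Summable fun n => w n * Complex.exp (ε * (4 * Real.pi * Complex.I * s * X n)) := by
  refine Summable.of_norm_bounded hsum fun n => ?_
  rw [norm_mul]
  have h1 : ‖Complex.exp (ε * (4 * Real.pi * Complex.I * s * X n))‖ ≤
      Real.exp (2 * Real.pi * s * S n) := by
    refine (Complex.norm_exp_le_exp_norm _).trans (Real.exp_le_exp.2 ?_)
    rw [norm_mul, hε, one_mul]
    exact nrm_le hs0 (hX n)
  calc _ ≤ Real.exp (-(2 * Real.pi * S n)) * Real.exp (2 * Real.pi * s * S n) :=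
        mul_le_mul (hw n) h1 (norm_nonneg _) (Real.exp_pos _).le
    _ = Real.exp (-(2 * Real.pi * S n) + 2 * Real.pi * s * S n) := (Real.exp_add _ _).symm
    _ ≤ _ := Real.exp_le_exp.2 (by linarith [pibound hs (hS n), hS n])

theorem quad_summable (hS : ∀ n, 0 ≤ S n) (hsum : Summable fun n => Real.exp (-S n))
    (hw : ∀ n, ‖w n‖ ≤ Real.exp (-(2 * Real.pi * S n))) {X : ι → ℝ} (hX : ∀ n, |X n| ≤ S n / 2) :
    Summable fun n => w n * ((4 * Real.pi * Complex.I) ^ 2 * (X n : ℂ) ^ 2) := by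
  have hb : Summable fun n => (16 * Real.pi ^ 2) * Real.exp (-S n) := hsum.mul_left _
  refine Summable.of_norm_bounded hb fun n => ?_
  have h1 : ‖((4 * Real.pi * Complex.I) ^ 2 * (X n : ℂ) ^ 2)‖ ≤ (16 * Real.pi ^ 2) * Real.exp (S n) := by
    rw [norm_mul, norm_pow, norm_pow]
    have e1 : ‖(4 * Real.pi * Complex.I : ℂ)‖ = 4 * Real.pi := by
      simp [abs_of_nonneg Real.pi_pos.le]
    have e2 : ‖(X n : ℂ)‖ ^ 2 ≤ Real.exp (S n) := by
      rw [Complex.norm_real, Real.norm_eq_abs]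
      have := sq_le_exp (hS n)
      have h2 : |X n| ^ 2 ≤ (S n / 2) ^ 2 := pow_le_pow_left₀ (abs_nonneg _) (hX n) 2
      have := Real.exp_pos (S n)
      nlinarith
    rw [e1, mul_pow]
    have : 0 ≤ Real.pi ^ 2 := by positivity
    nlinarith
  rw [norm_mul]
  calc _ ≤ Real.exp (-(2 * Real.pi * S n)) * ((16 * Real.pi ^ 2) * Real.exp (S n)) :=
        mul_le_mul (hw n) h1 (norm_nonneg _) (Real.exp_pos _).le
    _ = (16 * Real.pi ^ 2) * Real.exp (-(2 * Real.pi * S n) + S n) := by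
        rw [Real.exp_add]; ring
    _ ≤ _ := by
        refine mul_le_mul_of_nonneg_left (Real.exp_le_exp.2 ?_) (by positivity)
        have := pibound (s := 0) (by norm_num) (hS n)
        simp only [mul_zero, zero_mul, add_zero] at this
        linarith

theorem sym_sum (φ : ι ≃ ι) {X : ι → ℝ} (hφw : ∀ n, w (φ n) = w n) (hφX : ∀ n, X (φ n) = -X n)
    (hS : ∀ n, 0 ≤ S n) (hsum : Summable fun n => Real.exp (-S n))
    (hw : ∀ n, ‖w n‖ ≤ Real.exp (-(2 * Real.pi * S n))) (hX : ∀ n, |X n| ≤ S n / 2)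
    {s : ℝ} (hs0 : 0 ≤ s) (hs : s ≤ 1 / 8) :
    2 * ∑' n, w n * Complex.exp (4 * Real.pi * Complex.I * s * X n) =
      ∑' n, w n * (Complex.exp (4 * Real.pi * Complex.I * s * X n) +
        Complex.exp (-(4 * Real.pi * Complex.I * s * X n))) := by
  have s1 := summand_summable hS hsum hw hX hs0 hs 1 (by simp)
  have s2 := summand_summable hS hsum hw hX hs0 hs (-1) (by simp)
  simp only [one_mul, neg_one_mul] at s1 s2
  have e : ∑' n, w n * Complex.exp (4 * Real.pi * Complex.I * s * X n) =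
      ∑' n, w n * Complex.exp (-(4 * Real.pi * Complex.I * s * X n)) := by
    rw [← φ.tsum_eq]
    refine tsum_congr fun n => ?_
    rw [hφw, hφX]
    push_cast
    ring_nf
  have : ∑' n, w n * (Complex.exp (4 * Real.pi * Complex.I * s * X n) +
        Complex.exp (-(4 * Real.pi * Complex.I * s * X n))) =
      ∑' n, w n * Complex.exp (4 * Real.pi * Complex.I * s * X n) +
      ∑' n, w n * Complex.exp (-(4 * Real.pi * Complex.I * s * X n)) := by
    rw [← s1.tsum_add s2]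
    exact tsum_congr fun n => by ring
  rw [this, ← e]; ring

/-- Second order expansion of a difference of two symmetric exponential sums. -/
theorem expand (φ : ι ≃ ι) {X Y : ι → ℝ} (hφw : ∀ n, w (φ n) = w n) (hφX : ∀ n, X (φ n) = -X n)
    (hφY : ∀ n, Y (φ n) = -Y n)
    (hS : ∀ n, 0 ≤ S n) (hsum : Summable fun n => Real.exp (-S n))
    (hw : ∀ n, ‖w n‖ ≤ Real.exp (-(2 * Real.pi * S n))) (hX : ∀ n, |X n| ≤ S n / 2)
    (hY : ∀ n, |Y n| ≤ S n / 2) :
    ∃ C : ℝ, ∀ s : ℝ, 0 ≤ s → s ≤ 1 / 8 →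
      ‖∑' n, w n * Complex.exp (4 * Real.pi * Complex.I * s * X n) -
        ∑' n, w n * Complex.exp (4 * Real.pi * Complex.I * s * Y n) -
        (s : ℂ) ^ 2 * ∑' n, w n * ((4 * Real.pi * Complex.I) ^ 2 * ((X n : ℂ) ^ 2 - (Y n : ℂ) ^ 2) / 2)‖
        ≤ C * s ^ 3 := by
  refine ⟨12 * (2 * Real.pi) ^ 3 * ∑' n, Real.exp (-S n), fun s hs0 hs => ?_⟩
  have eX := sym_sum φ hφw hφX hS hsum hw hX hs0 hs
  have eY := sym_sum φ hφw hφY hS hsum hw hY hs0 hs
  have sX1 := summand_summable hS hsum hw hX hs0 hs 1 (by simp)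
  have sX2 := summand_summable hS hsum hw hX hs0 hs (-1) (by simp)
  have sY1 := summand_summable hS hsum hw hY hs0 hs 1 (by simp)
  have sY2 := summand_summable hS hsum hw hY hs0 hs (-1) (by simp)
  have qX := quad_summable hS hsum hw hX
  have qY := quad_summable hS hsum hw hY
  simp only [one_mul, neg_one_mul] at sX1 sX2 sY1 sY2
  have sX : Summable fun n => w n * (Complex.exp (4 * Real.pi * Complex.I * s * X n) +
        Complex.exp (-(4 * Real.pi * Complex.I * s * X n))) :=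
    (sX1.add sX2).congr fun n => by ring
  have sY : Summable fun n => w n * (Complex.exp (4 * Real.pi * Complex.I * s * Y n) +
        Complex.exp (-(4 * Real.pi * Complex.I * s * Y n))) :=
    (sY1.add sY2).congr fun n => by ring
  have qq : Summable fun n =>
      w n * ((4 * Real.pi * Complex.I) ^ 2 * ((X n : ℂ) ^ 2 - (Y n : ℂ) ^ 2)) :=
    (qX.sub qY).congr fun n => by ring
  set D := ∑' n, w n * Complex.exp (4 * Real.pi * Complex.I * s * X n) -
        ∑' n, w n * Complex.exp (4 * Real.pi * Complex.I * s * Y n) -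
        (s : ℂ) ^ 2 * ∑' n, w n * ((4 * Real.pi * Complex.I) ^ 2 * ((X n : ℂ) ^ 2 - (Y n : ℂ) ^ 2) / 2)
    with hD
  have half : ∑' n, w n * ((4 * Real.pi * Complex.I) ^ 2 * ((X n : ℂ) ^ 2 - (Y n : ℂ) ^ 2) / 2) =
      (∑' n, w n * ((4 * Real.pi * Complex.I) ^ 2 * ((X n : ℂ) ^ 2 - (Y n : ℂ) ^ 2))) / 2 := by
    rw [← tsum_div_const]
    exact tsum_congr fun n => by ring
  have h2D : 2 * D = ∑' n, w n * ((Complex.exp (4 * Real.pi * Complex.I * s * X n) +
        Complex.exp (-(4 * Real.pi * Complex.I * s * X n)) - 2 -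
          (4 * Real.pi * Complex.I * s * X n) ^ 2) -
        (Complex.exp (4 * Real.pi * Complex.I * s * Y n) +
        Complex.exp (-(4 * Real.pi * Complex.I * s * Y n)) - 2 -
          (4 * Real.pi * Complex.I * s * Y n) ^ 2)) := by
    have : 2 * D = (2 * ∑' n, w n * Complex.exp (4 * Real.pi * Complex.I * s * X n)) -
        (2 * ∑' n, w n * Complex.exp (4 * Real.pi * Complex.I * s * Y n)) -
        (s : ℂ) ^ 2 * ∑' n,
          w n * ((4 * Real.pi * Complex.I) ^ 2 * ((X n : ℂ) ^ 2 - (Y n : ℂ) ^ 2)) := by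
      rw [hD, half]; ring
    rw [this, eX, eY, ← sX.tsum_sub sY, ← tsum_mul_left, ← (sX.sub sY).tsum_sub (qq.mul_left _)]
    exact tsum_congr fun n => by ring
  have hterm : ∀ n, ‖w n * ((Complex.exp (4 * Real.pi * Complex.I * s * X n) +
        Complex.exp (-(4 * Real.pi * Complex.I * s * X n)) - 2 -
          (4 * Real.pi * Complex.I * s * X n) ^ 2) -
        (Complex.exp (4 * Real.pi * Complex.I * s * Y n) +
        Complex.exp (-(4 * Real.pi * Complex.I * s * Y n)) - 2 -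
          (4 * Real.pi * Complex.I * s * Y n) ^ 2))‖ ≤
        (24 * (2 * Real.pi) ^ 3 * s ^ 3) * Real.exp (-S n) := by
    intro n
    have g1 : ∀ {Z : ℝ}, |Z| ≤ S n / 2 → ‖Complex.exp (4 * Real.pi * Complex.I * s * Z) +
        Complex.exp (-(4 * Real.pi * Complex.I * s * Z)) - 2 -
          (4 * Real.pi * Complex.I * s * Z) ^ 2‖ ≤
        2 * ((2 * Real.pi * s * S n) ^ 3 * Real.exp (2 * Real.pi * s * S n)) := by
      intro Z hZ
      refine (exp_second _).trans ?_
      have := nrm_le hs0 hZ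
      have h0 : 0 ≤ 2 * Real.pi * s * S n := mul_nonneg (by positivity) (hS n)
      gcongr
    rw [norm_mul]
    have g2 := norm_sub_le (Complex.exp (4 * Real.pi * Complex.I * s * X n) +
        Complex.exp (-(4 * Real.pi * Complex.I * s * X n)) - 2 -
          (4 * Real.pi * Complex.I * s * X n) ^ 2)
        (Complex.exp (4 * Real.pi * Complex.I * s * Y n) +
        Complex.exp (-(4 * Real.pi * Complex.I * s * Y n)) - 2 -
          (4 * Real.pi * Complex.I * s * Y n) ^ 2)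
    have g3 := g1 (hX n)
    have g4 := g1 (hY n)
    have g5 := cube_le_exp (hS n)
    calc _ ≤ Real.exp (-(2 * Real.pi * S n)) *
          (4 * ((2 * Real.pi * s * S n) ^ 3 * Real.exp (2 * Real.pi * s * S n))) :=
          mul_le_mul (hw n) (by linarith) (norm_nonneg _) (Real.exp_pos _).le
      _ = 4 * (2 * Real.pi) ^ 3 * s ^ 3 * (S n ^ 3 *
          (Real.exp (-(2 * Real.pi * S n)) * Real.exp (2 * Real.pi * s * S n))) := by ring
      _ ≤ 4 * (2 * Real.pi) ^ 3 * s ^ 3 * ((6 * Real.exp (S n)) *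
          (Real.exp (-(2 * Real.pi * S n)) * Real.exp (2 * Real.pi * s * S n))) := by
          gcongr
      _ = 24 * (2 * Real.pi) ^ 3 * s ^ 3 *
          Real.exp (-(2 * Real.pi * S n) + 2 * Real.pi * s * S n + S n) := by
          rw [Real.exp_add, Real.exp_add]; ring
      _ ≤ _ := by
          gcongr
          exact pibound hs (hS n)
  have hb : Summable fun n => (24 * (2 * Real.pi) ^ 3 * s ^ 3) * Real.exp (-S n) :=
    hsum.mul_left _
  have hfin : ‖2 * D‖ ≤ ∑' n, (24 * (2 * Real.pi) ^ 3 * s ^ 3) * Real.exp (-S n) := by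
    rw [h2D]
    exact tsum_of_norm_bounded hb.hasSum hterm
  rw [tsum_mul_left, norm_mul] at hfin
  have : ‖(2 : ℂ)‖ = 2 := by simp
  rw [this] at hfin
  linarith

/-- Continuity at zero of exponential sums. -/
theorem cont (hS : ∀ n, 0 ≤ S n) (hsum : Summable fun n => Real.exp (-S n))
    (hw : ∀ n, ‖w n‖ ≤ Real.exp (-(2 * Real.pi * S n))) {X : ι → ℝ} (hX : ∀ n, |X n| ≤ S n / 2) :
    ∃ C : ℝ, ∀ s : ℝ, 0 ≤ s → s ≤ 1 / 8 →
      ‖∑' n, w n * Complex.exp (4 * Real.pi * Complex.I * s * X n) - ∑' n, w n‖ ≤ C * s := by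
  refine ⟨2 * Real.pi * ∑' n, Real.exp (-S n), fun s hs0 hs => ?_⟩
  have s1 := summand_summable hS hsum hw hX hs0 hs 1 (by simp)
  have s0 := summand_summable hS hsum hw hX le_rfl (by norm_num : (0 : ℝ) ≤ 1 / 8) 1 (by simp)
  simp only [one_mul] at s1 s0
  have s0' : Summable w := s0.congr fun n => by simp
  rw [← s1.tsum_sub s0']
  have hterm : ∀ n, ‖w n * Complex.exp (4 * Real.pi * Complex.I * s * X n) - w n‖ ≤
      (2 * Real.pi * s) * Real.exp (-S n) := by
    intro n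
    have e : w n * Complex.exp (4 * Real.pi * Complex.I * s * X n) - w n =
        w n * (Complex.exp (4 * Real.pi * Complex.I * s * X n) - 1) := by ring
    rw [e, norm_mul]
    have g1 : ‖Complex.exp (4 * Real.pi * Complex.I * s * X n) - 1‖ ≤
        (2 * Real.pi * s * S n) * Real.exp (2 * Real.pi * s * S n) := by
      refine (exp_first _).trans ?_
      have := nrm_le hs0 (hX n)
      have h0 : 0 ≤ 2 * Real.pi * s * S n := mul_nonneg (by positivity) (hS n)
      gcongr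
    have g2 : S n ≤ Real.exp (S n) := by linarith [Real.add_one_le_exp (S n)]
    calc _ ≤ Real.exp (-(2 * Real.pi * S n)) *
          ((2 * Real.pi * s * S n) * Real.exp (2 * Real.pi * s * S n)) :=
          mul_le_mul (hw n) g1 (norm_nonneg _) (Real.exp_pos _).le
      _ = (2 * Real.pi * s) * (S n *
          (Real.exp (-(2 * Real.pi * S n)) * Real.exp (2 * Real.pi * s * S n))) := by ring
      _ ≤ (2 * Real.pi * s) * (Real.exp (S n) *
          (Real.exp (-(2 * Real.pi * S n)) * Real.exp (2 * Real.pi * s * S n))) := by gcongr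
      _ = (2 * Real.pi * s) * Real.exp (-(2 * Real.pi * S n) + 2 * Real.pi * s * S n + S n) := by
          rw [Real.exp_add, Real.exp_add]; ring
      _ ≤ _ := by
          gcongr
          exact pibound hs (hS n)
  have hb : Summable fun n => (2 * Real.pi * s) * Real.exp (-S n) := hsum.mul_left _
  have := tsum_of_norm_bounded hb.hasSum hterm
  rw [tsum_mul_left] at this
  linarith

end

/-- Abstract comparison: strict differentiability detects the second order coefficient. -/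
theorem key {V : Type*} [NormedAddCommGroup V] [NormedSpace ℂ V] {F : V → ℂ} {L : V →L[ℂ] ℂ}
    {v₀ : V} (hL : HasStrictFDerivAt F L v₀) {P M : ℝ → V}
    (hP : Tendsto P (𝓝[>] 0) (𝓝 v₀)) (hM : Tendsto M (𝓝[>] 0) (𝓝 v₀)) {c : V} {C : ℝ}
    (h : ∀ᶠ s : ℝ in 𝓝[>] 0, ‖P s - M s - ((s : ℂ) ^ 2) • c‖ ≤ C * s ^ 3) {a : ℂ}
    (ha : ∀ᶠ s : ℝ in 𝓝[>] 0, F (P s) - F (M s) = a * (s : ℂ) ^ 2) : L c = a := by
  have hpos : ∀ᶠ s : ℝ in 𝓝[>] 0, 0 < s := self_mem_nhdsWithin
  have hsm : ∀ᶠ s : ℝ in 𝓝[>] 0, s < 1 :=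
    (mem_nhdsWithin_of_mem_nhds (Iio_mem_nhds (by norm_num : (0 : ℝ) < 1)))
  have hC : Asymptotics.IsBigO (𝓝[>] (0 : ℝ)) (fun s => P s - M s - ((s : ℂ) ^ 2) • c)
      (fun s => s ^ 3) := by
    refine Asymptotics.IsBigO.of_bound C ?_
    filter_upwards [h, hpos] with s h1 h2
    rwa [Real.norm_of_nonneg (by positivity)]
  have h32 : Asymptotics.IsLittleO (𝓝[>] (0 : ℝ)) (fun s : ℝ => s ^ 3) (fun s : ℝ => s ^ 2) :=
    (Asymptotics.isLittleO_pow_pow (by norm_num : 2 < 3)).mono nhdsWithin_le_nhds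
  have h1 : Asymptotics.IsLittleO (𝓝[>] (0 : ℝ)) (fun s => P s - M s - ((s : ℂ) ^ 2) • c)
      (fun s => s ^ 2) := hC.trans_isLittleO h32
  have h2 : Asymptotics.IsBigO (𝓝[>] (0 : ℝ)) (fun s => P s - M s) (fun s : ℝ => s ^ 2) := by
    have h3 : Asymptotics.IsBigO (𝓝[>] (0 : ℝ)) (fun s : ℝ => ((s : ℂ) ^ 2) • c)
        (fun s : ℝ => s ^ 2) := by
      refine Asymptotics.IsBigO.of_bound ‖c‖ (Eventually.of_forall fun s => ?_)
      rw [norm_smul, norm_pow, Complex.norm_real, norm_pow, mul_comm]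
    have := h1.isBigO.add h3
    simpa using this
  have h3 : Asymptotics.IsLittleO (𝓝[>] (0 : ℝ))
      (fun s => F (P s) - F (M s) - L (P s - M s)) (fun s : ℝ => s ^ 2) := by
    have := (hasStrictFDerivAt_iff_isLittleO.1 hL).comp_tendsto (hP.prodMk_nhds hM)
    exact this.trans_isBigO h2
  have h4 : Asymptotics.IsLittleO (𝓝[>] (0 : ℝ))
      (fun s : ℝ => L (P s - M s - ((s : ℂ) ^ 2) • c)) (fun s : ℝ => s ^ 2) :=
    (L.isBigO_comp _ _).trans_isLittleO h1
  have h5 : Asymptotics.IsLittleO (𝓝[>] (0 : ℝ))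
      (fun s : ℝ => (a - L c) * (s : ℂ) ^ 2) (fun s : ℝ => s ^ 2) := by
    refine (h3.add h4).congr' ?_ EventuallyEq.rfl
    filter_upwards [ha] with s hs
    rw [hs, map_sub, map_sub, map_smul, smul_eq_mul]
    simp only [map_sub]
    ring
  have h6 : Asymptotics.IsLittleO (𝓝[>] (0 : ℝ)) (fun _ : ℝ => (a - L c)) (fun _ : ℝ => (1 : ℝ)) := by
    rw [Asymptotics.isLittleO_iff] at h5 ⊢
    intro ε hε
    filter_upwards [h5 hε, hpos] with s h7 h8
    rw [norm_mul, norm_pow, Complex.norm_real, norm_pow] at h7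
    have : 0 < ‖s‖ ^ 2 := by
      have : s ≠ 0 := h8.ne'
      positivity
    rw [norm_one, mul_one]
    exact le_of_mul_le_mul_right h7 this
  have h7 := (Asymptotics.isLittleO_one_iff ℝ).1 h6
  have h8 := tendsto_nhds_unique h7 tendsto_const_nhds
  exact (sub_eq_zero.1 h8.symm).symm

end H121R3
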