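import Pool.Agent.H121R3.Disc

/-!
# Holomorphy of the action and gluing of invariant functions
-/

namespace H121R3

open Matrix Topology Filter

variable {g : ℕ}

theorem det_analytic {M : Mat g → Matrix (Fin g) (Fin g) ℂ} {τ : Mat g}
    (h : ∀ i j, AnalyticAt ℂ (fun σ => M σ i j) τ) : AnalyticAt ℂ (fun σ => (M σ).det) τ := by
  simp only [Matrix.det_apply]
  refine Finset.analyticAt_fun_sum _ fun p _ => ?_
  have : AnalyticAt ℂ (fun σ => ∏ i, M σ (p i) i) τ :=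
    Finset.analyticAt_fun_prod _ fun i _ => h _ _
  exact this.const_smul

theorem adj_analytic {M : Mat g → Matrix (Fin g) (Fin g) ℂ} {τ : Mat g}
    (h : ∀ i j, AnalyticAt ℂ (fun σ => M σ i j) τ) (i j : Fin g) :
    AnalyticAt ℂ (fun σ => (M σ).adjugate i j) τ := by
  simp only [Matrix.adjugate_apply]
  refine det_analytic fun k l => ?_
  by_cases hk : k = j
  · subst hk
    simp only [updateRow_self]
    exact analyticAt_const
  · simp only [updateRow_ne hk]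
    exact h k l

theorem inv_analytic {M : Mat g → Matrix (Fin g) (Fin g) ℂ} {τ : Mat g}
    (h : ∀ i j, AnalyticAt ℂ (fun σ => M σ i j) τ) (h0 : (M τ).det ≠ 0) (i j : Fin g) :
    AnalyticAt ℂ (fun σ => (M σ)⁻¹ i j) τ := by
  have e : (fun σ => (M σ)⁻¹ i j) = fun σ => ((M σ).det)⁻¹ * (M σ).adjugate i j := by
    ext σ
    rw [Matrix.inv_def, Ring.inverse_eq_inv', Matrix.smul_apply, smul_eq_mul]
  rw [e]
  exact (det_analytic h).inv h0 |>.mul (adj_analytic h i j)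

theorem entry_analytic (τ : Mat g) (i j : Fin g) : AnalyticAt ℂ (fun σ : Mat g => σ i j) τ := by
  have : (fun σ : Mat g => σ i j) =
      ((ContinuousLinearMap.proj (R := ℂ) (φ := fun _ : Fin g => ℂ) j).comp
        (ContinuousLinearMap.proj (R := ℂ) (φ := fun _ : Fin g => Fin g → ℂ) i)) := rfl
  rw [this]
  exact ContinuousLinearMap.analyticAt _ _

theorem affine_analytic (A B : Matrix (Fin g) (Fin g) ℂ) (τ : Mat g) (i j : Fin g) :
    AnalyticAt ℂ (fun σ : Mat g => (A * Matrix.of σ + B) i j) τ := by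
  simp only [Matrix.add_apply, Matrix.mul_apply, of_apply]
  refine AnalyticAt.add (Finset.analyticAt_fun_sum _ fun k _ => ?_) analyticAt_const
  exact analyticAt_const.mul (entry_analytic τ k j)

theorem act_analytic (γ : symplecticGroup (Fin g) ℤ) {τ : Mat g} (hτ : τ ∈ siegel g) :
    AnalyticAt ℂ (act γ) τ := by
  rw [analyticAt_pi_iff]
  intro i
  rw [analyticAt_pi_iff]
  intro j
  have e : (fun σ => act γ σ i j) = fun σ => ∑ k, (bA γ * Matrix.of σ + bB γ) i k *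
      (bC γ * Matrix.of σ + bD γ)⁻¹ k j := by
    ext σ
    simp only [act, of_symm_apply, Matrix.mul_apply (M := bA γ * Matrix.of σ + bB γ)]
  rw [e]
  refine Finset.analyticAt_fun_sum _ fun k _ => ?_
  exact (affine_analytic _ _ τ i k).mul
    (inv_analytic (fun i j => affine_analytic _ _ τ i j) (denom_unit γ hτ).ne_zero k j)

/-- Gluing: an analytic function that is compatible with the group on a relatively open set `U`
extends to an invariant holomorphic function on an invariant open set containing `U`. -/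
theorem glue {U : Set (Mat g)} (hU : ∃ O, IsOpen O ∧ U = O ∩ siegel g) {f₀ : Mat g → ℂ}
    (hf : ∀ τ, AnalyticAt ℂ f₀ τ)
    (hinv : ∀ γ ∈ Gam24 g, ∀ τ ∈ U, act γ τ ∈ U → f₀ (act γ τ) = f₀ τ) :
    ∃ W : Set (Mat g), ∃ f : Mat g → ℂ, U ⊆ W ∧ W ⊆ siegel g ∧
      (∃ O, IsOpen O ∧ W = O ∩ siegel g) ∧
      (∀ γ ∈ Gam24 g, ∀ τ ∈ W, act γ τ ∈ W ∧ f (act γ τ) = f τ) ∧
      AnalyticOn ℂ f W ∧ ∀ τ ∈ U, f τ = f₀ τ := by
  classical
  obtain ⟨O, hO, hUO⟩ := hU
  have hUs : U ⊆ siegel g := by rw [hUO]; exact Set.inter_subset_right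
  set W : Set (Mat g) := {τ | τ ∈ siegel g ∧ ∃ γ ∈ Gam24 g, act γ τ ∈ U} with hW
  set f : Mat g → ℂ := fun τ => if h : ∃ γ ∈ Gam24 g, act γ τ ∈ U then f₀ (act h.choose τ) else 0
    with hfdef
  have wd : ∀ τ ∈ siegel g, ∀ γ ∈ Gam24 g, act γ τ ∈ U → f τ = f₀ (act γ τ) := by
    intro τ hτ γ hγ hγU
    have h : ∃ γ ∈ Gam24 g, act γ τ ∈ U := ⟨γ, hγ, hγU⟩
    have e : f τ = f₀ (act h.choose τ) := by
      simp only [hfdef]; rw [dif_pos h]
    obtain ⟨h1, h2⟩ := h.choose_spec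
    rw [e]
    set δ := h.choose with hδ
    have k := hinv (δ * γ⁻¹) (gam_mul h1 (gam_inv hγ)) (act γ τ) hγU
    have e2 : act (δ * γ⁻¹) (act γ τ) = act δ τ := by
      rw [← act_mul _ _ hτ, mul_assoc, inv_mul_cancel, mul_one]
    rw [e2] at k
    exact k h2
  refine ⟨W, f, ?_, fun τ h => h.1, ?_, ?_, ?_, ?_⟩
  · intro τ hτ
    refine ⟨hUs hτ, 1, gam_one, ?_⟩
    rwa [act_one]
  · refine ⟨interior (W ∪ (siegel g)ᶜ), isOpen_interior, ?_⟩
    ext τ
    constructor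
    · rintro ⟨hτ, γ, hγ, hγU⟩
      refine ⟨?_, hτ⟩
      rw [mem_interior_iff_mem_nhds]
      have hc : ContinuousAt (act γ) τ := (act_analytic γ hτ).continuousAt
      have hO' : O ∈ 𝓝 (act γ τ) := hO.mem_nhds (by rw [hUO] at hγU; exact hγU.1)
      filter_upwards [hc.preimage_mem_nhds hO'] with σ hσ
      by_cases hs : σ ∈ siegel g
      · exact Or.inl ⟨hs, γ, hγ, by rw [hUO]; exact ⟨hσ, act_mem γ hs⟩⟩
      · exact Or.inr hs
    · rintro ⟨h1, h2⟩
      rcases interior_subset h1 with h | h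
      · exact h
      · exact absurd h2 h
  · rintro γ hγ τ ⟨hτ, δ, hδ, hδU⟩
    have e : act (δ * γ⁻¹) (act γ τ) = act δ τ := by
      rw [← act_mul _ _ hτ, mul_assoc, inv_mul_cancel, mul_one]
    have m := gam_mul hδ (gam_inv hγ)
    refine ⟨⟨act_mem γ hτ, δ * γ⁻¹, m, by rw [e]; exact hδU⟩, ?_⟩
    rw [wd _ (act_mem γ hτ) _ m (by rw [e]; exact hδU), e, wd _ hτ _ hδ hδU]
  · rintro τ ⟨hτ, γ, hγ, hγU⟩
    have a : AnalyticWithinAt ℂ (fun σ => f₀ (act γ σ)) W τ :=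
      ((hf (act γ τ)).comp (act_analytic γ hτ)).analyticWithinAt
    refine a.congr_of_eventuallyEq ?_ (wd τ hτ γ hγ hγU)
    have hc : ContinuousAt (act γ) τ := (act_analytic γ hτ).continuousAt
    have hO' : O ∈ 𝓝 (act γ τ) := hO.mem_nhds (by rw [hUO] at hγU; exact hγU.1)
    have h1 : ∀ᶠ σ in 𝓝[W] τ, act γ σ ∈ O :=
      (hc.preimage_mem_nhds hO' : act γ ⁻¹' O ∈ 𝓝 τ) |> fun h => mem_nhdsWithin_of_mem_nhds h
    filter_upwards [h1, self_mem_nhdsWithin] with σ hσ hσW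
    exact wd σ hσW.1 γ hγ (by rw [hUO]; exact ⟨hσ, act_mem γ hσW.1⟩)
  · intro τ hτ
    have := wd τ (hUs hτ) 1 gam_one (by rwa [act_one])
    rw [this, act_one]

end H121R3
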