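import Pool.Agent.H121R3.Sph

/-!
# Separation of points and the curvature inequality
-/

namespace H121R3

open Topology Filter Complex

noncomputable section

variable {p q : ℂ → ℂ}

theorem sg_nonneg (z : ℂ) (a : ℂ × ℂ) : 0 ≤ sg p q a z := by
  unfold sg NN; positivity

theorem sg_le_one (h : ∀ z, p z ≠ 0 ∨ q z ≠ 0) {a : ℂ × ℂ} (ha : ‖a.1‖ ^ 2 + ‖a.2‖ ^ 2 = 1)
    (z : ℂ) : sg p q a z ≤ 1 := by
  have hN := NN_pos h z
  unfold sg
  rw [div_le_one hN]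
  have e2 : ‖a.1 * (starRingEnd ℂ) (p z) + a.2 * (starRingEnd ℂ) (q z)‖ ^ 2 +
      ‖ell p q a z‖ ^ 2 = (‖a.1‖ ^ 2 + ‖a.2‖ ^ 2) * NN p q z := by
    unfold ell NN
    simp only [← Complex.normSq_eq_norm_sq, Complex.normSq_apply, Complex.mul_re, Complex.mul_im,
      Complex.add_re, Complex.add_im, Complex.sub_re, Complex.sub_im, Complex.conj_re,
      Complex.conj_im]
    ring
  rw [ha, one_mul] at e2
  nlinarith [sq_nonneg ‖a.1 * (starRingEnd ℂ) (p z) + a.2 * (starRingEnd ℂ) (q z)‖]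

/-- Two different points are separated. -/
theorem sg_sep (h : ∀ z, p z ≠ 0 ∨ q z ≠ 0) {a b : ℂ × ℂ} (ha : ‖a.1‖ ^ 2 + ‖a.2‖ ^ 2 = 1)
    (hb : ‖b.1‖ ^ 2 + ‖b.2‖ ^ 2 = 1) (z : ℂ) :
    ‖a.1 * b.2 - a.2 * b.1‖ ^ 2 ≤ 2 * (sg p q a z + sg p q b z) := by
  have hN := NN_pos h z
  set A := ell p q a z with hA
  set B := ell p q b z with hB
  set D := a.1 * b.2 - a.2 * b.1 with hD
  have e1 : D * p z = a.1 * B - b.1 * A := by rw [hA, hB, hD]; unfold ell; ring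
  have e2 : D * q z = a.2 * B - b.2 * A := by rw [hA, hB, hD]; unfold ell; ring
  have key : ∀ x y u v : ℂ, ‖x * u - y * v‖ ^ 2 ≤ 2 * (‖x‖ ^ 2 * ‖u‖ ^ 2 + ‖y‖ ^ 2 * ‖v‖ ^ 2) := by
    intro x y u v
    have h1 : ‖x * u - y * v‖ ≤ ‖x‖ * ‖u‖ + ‖y‖ * ‖v‖ := by
      refine (norm_sub_le _ _).trans ?_
      rw [norm_mul, norm_mul]
    have h2 : 0 ≤ ‖x * u - y * v‖ := norm_nonneg _
    nlinarith [sq_nonneg (‖x‖ * ‖u‖ - ‖y‖ * ‖v‖)]
  have k1 := key a.1 b.1 B A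
  have k2 := key a.2 b.2 B A
  rw [← e1, norm_mul, mul_pow] at k1
  rw [← e2, norm_mul, mul_pow] at k2
  have k3 : ‖D‖ ^ 2 * NN p q z ≤ 2 * (‖A‖ ^ 2 + ‖B‖ ^ 2) := by
    unfold NN
    nlinarith
  unfold sg
  rw [← hA, ← hB, ← add_div, ← mul_div_assoc, le_div_iff₀ hN]
  exact k3

/-- Uniform separation. -/
theorem sep {τ : Type*} {S : Finset τ} {pt : τ → ℂ × ℂ}
    (hS : ∀ a ∈ S, ‖(pt a).1‖ ^ 2 + ‖(pt a).2‖ ^ 2 = 1)
    (hne : ∀ a ∈ S, ∀ b ∈ S, a ≠ b → (pt a).1 * (pt b).2 - (pt a).2 * (pt b).1 ≠ 0) :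
    ∃ δ : ℝ, 0 < δ ∧ δ ≤ 1 / 2 ∧ ∀ p q : ℂ → ℂ, (∀ z, p z ≠ 0 ∨ q z ≠ 0) → ∀ z,
      ∀ a ∈ S, ∀ b ∈ S, a ≠ b → δ ≤ sg p q (pt a) z ∨ δ ≤ sg p q (pt b) z := by
  classical
  obtain ⟨δ, hδ, hδ'⟩ : ∃ δ : ℝ, 0 < δ ∧ ∀ x ∈ S ×ˢ S, x.1 ≠ x.2 →
      δ ≤ ‖(pt x.1).1 * (pt x.2).2 - (pt x.1).2 * (pt x.2).1‖ ^ 2 / 4 := by
    have : ∀ T : Finset (τ × τ), (∀ x ∈ T, x.1 ∈ S ∧ x.2 ∈ S) → ∃ δ : ℝ, 0 < δ ∧
        ∀ x ∈ T, x.1 ≠ x.2 →
        δ ≤ ‖(pt x.1).1 * (pt x.2).2 - (pt x.1).2 * (pt x.2).1‖ ^ 2 / 4 := by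
      intro T
      induction T using Finset.induction_on with
      | empty => exact fun _ => ⟨1, one_pos, by simp⟩
      | insert y T hy ih =>
        intro hT
        obtain ⟨δ, hδ, h⟩ := ih fun x hx => hT x (Finset.mem_insert_of_mem hx)
        by_cases hyy : y.1 = y.2
        · refine ⟨δ, hδ, fun x hx hx' => ?_⟩
          rcases Finset.mem_insert.1 hx with rfl | hx
          · exact absurd hyy hx'
          · exact h x hx hx'
        · have hy' := hT y (Finset.mem_insert_self _ _)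
          have h0 := hne y.1 hy'.1 y.2 hy'.2 hyy
          have hp : 0 < ‖(pt y.1).1 * (pt y.2).2 - (pt y.1).2 * (pt y.2).1‖ := norm_pos_iff.2 h0
          refine ⟨min δ (‖(pt y.1).1 * (pt y.2).2 - (pt y.1).2 * (pt y.2).1‖ ^ 2 / 4),
            lt_min hδ (by positivity), fun x hx hx' => ?_⟩
          rcases Finset.mem_insert.1 hx with rfl | hx
          · exact min_le_right _ _
          · exact (min_le_left _ _).trans (h x hx hx')
    exact this _ fun x hx => Finset.mem_product.1 hx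
  refine ⟨min δ (1 / 2), lt_min hδ (by norm_num), min_le_right _ _,
    fun p q h z a ha b hb hab => ?_⟩
  have h1 := hδ' (a, b) (Finset.mem_product.2 ⟨ha, hb⟩) hab
  have h2 := sg_sep h (hS a ha) (hS b hb) z
  by_contra hcon
  push Not at hcon
  have h3 : min δ (1 / 2) ≤ δ := min_le_left _ _
  simp only at h1
  linarith [hcon.1, hcon.2]

/-- The scalar curvature inequality. -/
theorem scal {τ : Type*} {S : Finset τ} {w : τ → ℝ} (hw0 : ∀ a ∈ S, 0 < w a)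
    (hw1 : ∀ a ∈ S, w a < 1) (hsum : 2 < ∑ a ∈ S, w a) {δ : ℝ} (hδ : 0 < δ) (hδ2 : δ ≤ 1 / 2) :
    ∃ α : ℝ, 0 < α ∧ ∃ c : ℝ, 0 < c ∧ ∀ σ : τ → ℝ, (∀ a ∈ S, 0 < σ a) → (∀ a ∈ S, σ a ≤ 1) →
      (∀ a ∈ S, ∀ b ∈ S, a ≠ b → δ ≤ σ a ∨ δ ≤ σ b) →
      c * (∏ a ∈ S, ((1 + σ a ^ α) * σ a ^ (-(w a) / 2))) ^ 2 ≤
        -4 + ∑ a ∈ S, (4 * α ^ 2 * (σ a ^ α / (1 + σ a ^ α) ^ 2) * ((1 - σ a) / σ a)
          - 4 * α * (σ a ^ α / (1 + σ a ^ α)) + 2 * w a) := by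
  classical
  have hSne : S.Nonempty := by
    rcases S.eq_empty_or_nonempty with h | h
    · rw [h] at hsum; simp at hsum; linarith
    · exact h
  have hcard : (0 : ℝ) < S.card := by exact_mod_cast hSne.card_pos
  set κ := ∑ a ∈ S, w a - 2 with hκ
  have hκ0 : 0 < κ := by linarith
  obtain ⟨β, hβ, hβ'⟩ : ∃ β : ℝ, 0 < β ∧ ∀ a ∈ S, β ≤ 1 - w a := by
    obtain ⟨a, ha, hmin⟩ := S.exists_min_image (fun a => 1 - w a) hSne
    exact ⟨1 - w a, by linarith [hw1 a ha], fun b hb => hmin b hb⟩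
  set α := min β (κ / (4 * S.card)) with hα
  have hα0 : 0 < α := lt_min hβ (by positivity)
  have hαβ : ∀ a ∈ S, α ≤ 1 - w a := fun a ha => (min_le_left _ _).trans (hβ' a ha)
  have hακ : 4 * α * S.card ≤ κ := by
    have : α ≤ κ / (4 * S.card) := min_le_right _ _
    rw [le_div_iff₀ (by positivity)] at this
    linarith
  set K := ∏ a ∈ S, (4 * δ ^ (-w a)) with hK
  have hK0 : 0 < K := Finset.prod_pos fun a _ => by positivity
  have hfac1 : ∀ a ∈ S, 1 ≤ 4 * δ ^ (-w a) := by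
    intro a ha
    have : 1 ≤ δ ^ (-w a) :=
      Real.one_le_rpow_of_pos_of_le_one_of_nonpos hδ (by linarith) (by linarith [hw0 a ha])
    linarith
  set c := min κ (α ^ 2 / 2) / K with hc
  have hc0 : 0 < c := div_pos (lt_min hκ0 (by positivity)) hK0
  refine ⟨α, hα0, c, hc0, fun σ h0 h1 hsep => ?_⟩
  -- each factor squared
  have hsq : (∏ a ∈ S, ((1 + σ a ^ α) * σ a ^ (-(w a) / 2))) ^ 2 =
      ∏ a ∈ S, ((1 + σ a ^ α) ^ 2 * σ a ^ (-w a)) := by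
    rw [← Finset.prod_pow]
    refine Finset.prod_congr rfl fun a ha => ?_
    rw [mul_pow, ← Real.rpow_natCast (σ a ^ (-(w a) / 2)) 2, ← Real.rpow_mul (h0 a ha).le]
    congr 2
    push_cast; ring
  rw [hsq]
  have hpa : ∀ a ∈ S, 0 < σ a ^ α := fun a ha => Real.rpow_pos_of_pos (h0 a ha) _
  have hpa1 : ∀ a ∈ S, σ a ^ α ≤ 1 := fun a ha => Real.rpow_le_one (h0 a ha).le (h1 a ha) hα0.le
  -- lower bound of the right side: every term is at least `2 w a - 4 α`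
  have hterm : ∀ a ∈ S, 0 ≤ 4 * α ^ 2 * (σ a ^ α / (1 + σ a ^ α) ^ 2) * ((1 - σ a) / σ a) := by
    intro a ha
    have := hpa a ha
    have := h0 a ha
    have := h1 a ha
    have : 0 ≤ (1 - σ a) / σ a := div_nonneg (by linarith) (by linarith)
    positivity
  have hterm2 : ∀ a ∈ S, 4 * α * (σ a ^ α / (1 + σ a ^ α)) ≤ 4 * α := by
    intro a ha
    have h2 := hpa a ha
    have : σ a ^ α / (1 + σ a ^ α) ≤ 1 := by rw [div_le_one (by positivity)]; linarith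
    nlinarith
  have hlow : κ + ∑ a ∈ S, 4 * α ^ 2 * (σ a ^ α / (1 + σ a ^ α) ^ 2) * ((1 - σ a) / σ a) ≤
      -4 + ∑ a ∈ S, (4 * α ^ 2 * (σ a ^ α / (1 + σ a ^ α) ^ 2) * ((1 - σ a) / σ a)
          - 4 * α * (σ a ^ α / (1 + σ a ^ α)) + 2 * w a) := by
    have : ∑ a ∈ S, (4 * α ^ 2 * (σ a ^ α / (1 + σ a ^ α) ^ 2) * ((1 - σ a) / σ a)
          - 4 * α + 2 * w a) ≤
        ∑ a ∈ S, (4 * α ^ 2 * (σ a ^ α / (1 + σ a ^ α) ^ 2) * ((1 - σ a) / σ a)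
          - 4 * α * (σ a ^ α / (1 + σ a ^ α)) + 2 * w a) :=
      Finset.sum_le_sum fun a ha => by linarith [hterm2 a ha]
    rw [Finset.sum_add_distrib, Finset.sum_sub_distrib, ← Finset.mul_sum S w] at this
    rw [Finset.sum_const, nsmul_eq_mul] at this
    nlinarith
  refine le_trans ?_ hlow
  -- bound for factors with `δ ≤ σ a`
  have hbig : ∀ a ∈ S, δ ≤ σ a → (1 + σ a ^ α) ^ 2 * σ a ^ (-w a) ≤ 4 * δ ^ (-w a) := by
    intro a ha hd
    have e1 : (1 + σ a ^ α) ^ 2 ≤ 4 := by nlinarith [hpa a ha, hpa1 a ha]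
    have e2 : σ a ^ (-w a) ≤ δ ^ (-w a) :=
      Real.rpow_le_rpow_of_nonpos hδ hd (by linarith [hw0 a ha])
    have e3 : 0 ≤ σ a ^ (-w a) := (Real.rpow_pos_of_pos (h0 a ha) _).le
    exact mul_le_mul e1 e2 e3 (by norm_num)
  by_cases hall : ∀ a ∈ S, δ ≤ σ a
  · have hP : ∏ a ∈ S, ((1 + σ a ^ α) ^ 2 * σ a ^ (-w a)) ≤ K :=
      Finset.prod_le_prod (fun a ha => by
        have := hpa a ha
        have := Real.rpow_pos_of_pos (h0 a ha) (-w a)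
        positivity) fun a ha => hbig a ha (hall a ha)
    have : c * ∏ a ∈ S, ((1 + σ a ^ α) ^ 2 * σ a ^ (-w a)) ≤ c * K := by
      exact mul_le_mul_of_nonneg_left hP hc0.le
    have e : c * K = min κ (α ^ 2 / 2) := by rw [hc]; field_simp
    have e2 : min κ (α ^ 2 / 2) ≤ κ := min_le_left _ _
    have e3 : 0 ≤ ∑ a ∈ S, 4 * α ^ 2 * (σ a ^ α / (1 + σ a ^ α) ^ 2) * ((1 - σ a) / σ a) :=
      Finset.sum_nonneg hterm
    linarith
  · push Not at hall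
    obtain ⟨b, hb, hbδ⟩ := hall
    have hoth : ∀ a ∈ S.erase b, δ ≤ σ a := by
      intro a ha
      rcases hsep a (Finset.mem_of_mem_erase ha) b hb (Finset.ne_of_mem_erase ha) with h | h
      · exact h
      · linarith
    have hσb := h0 b hb
    have hP : ∏ a ∈ S, ((1 + σ a ^ α) ^ 2 * σ a ^ (-w a)) ≤ K * σ b ^ (-w b) := by
      rw [hK, ← Finset.mul_prod_erase S _ hb, ← Finset.mul_prod_erase S (fun a => 4 * δ ^ (-w a)) hb]
      have e1 : (1 + σ b ^ α) ^ 2 ≤ 4 * δ ^ (-w b) := by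
        have := hfac1 b hb
        have : 1 ≤ δ ^ (-w b) :=
          Real.one_le_rpow_of_pos_of_le_one_of_nonpos hδ (by linarith) (by linarith [hw0 b hb])
        nlinarith [hpa b hb, hpa1 b hb]
      have e2 : ∏ a ∈ S.erase b, ((1 + σ a ^ α) ^ 2 * σ a ^ (-w a)) ≤
          ∏ a ∈ S.erase b, (4 * δ ^ (-w a)) :=
        Finset.prod_le_prod (fun a ha => by
          have ha' := Finset.mem_of_mem_erase ha
          have := hpa a ha'
          have := Real.rpow_pos_of_pos (h0 a ha') (-w a)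
          positivity) fun a ha => hbig a (Finset.mem_of_mem_erase ha) (hoth a ha)
      have e3 : 0 ≤ ∏ a ∈ S.erase b, ((1 + σ a ^ α) ^ 2 * σ a ^ (-w a)) :=
        Finset.prod_nonneg fun a ha => by
          have ha' := Finset.mem_of_mem_erase ha
          have := hpa a ha'
          have := Real.rpow_pos_of_pos (h0 a ha') (-w a)
          positivity
      have e4 : 0 < σ b ^ (-w b) := Real.rpow_pos_of_pos hσb _
      calc (1 + σ b ^ α) ^ 2 * σ b ^ (-w b) *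
            ∏ a ∈ S.erase b, ((1 + σ a ^ α) ^ 2 * σ a ^ (-w a))
          ≤ 4 * δ ^ (-w b) * σ b ^ (-w b) * ∏ a ∈ S.erase b, (4 * δ ^ (-w a)) := by
            refine mul_le_mul ?_ e2 e3 ?_
            · exact mul_le_mul_of_nonneg_right e1 e4.le
            · have := Real.rpow_pos_of_pos hδ (-w b)
              positivity
        _ = 4 * δ ^ (-w b) * (∏ a ∈ S.erase b, (4 * δ ^ (-w a))) * σ b ^ (-w b) := by ring
    have h5 : c * ∏ a ∈ S, ((1 + σ a ^ α) ^ 2 * σ a ^ (-w a)) ≤ (α ^ 2 / 2) * σ b ^ (-w b) := by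
      have e4 : 0 < σ b ^ (-w b) := Real.rpow_pos_of_pos hσb _
      calc c * ∏ a ∈ S, ((1 + σ a ^ α) ^ 2 * σ a ^ (-w a)) ≤ c * (K * σ b ^ (-w b)) :=
            mul_le_mul_of_nonneg_left hP hc0.le
        _ = min κ (α ^ 2 / 2) * σ b ^ (-w b) := by rw [hc]; field_simp
        _ ≤ (α ^ 2 / 2) * σ b ^ (-w b) :=
            mul_le_mul_of_nonneg_right (min_le_right _ _) e4.le
    have h6 : (α ^ 2 / 2) * σ b ^ (-w b) ≤
        4 * α ^ 2 * (σ b ^ α / (1 + σ b ^ α) ^ 2) * ((1 - σ b) / σ b) := by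
      have e1 : σ b ^ (-w b) ≤ σ b ^ (α - 1) :=
        Real.rpow_le_rpow_of_exponent_ge hσb (h1 b hb) (by linarith [hαβ b hb])
      have e2 : σ b ^ (α - 1) = σ b ^ α / σ b := by
        rw [Real.rpow_sub hσb, Real.rpow_one]
      have e3 : σ b ^ α / 4 ≤ σ b ^ α / (1 + σ b ^ α) ^ 2 := by
        have := hpa b hb
        have := hpa1 b hb
        refine div_le_div_of_nonneg_left (by positivity) (by positivity) (by nlinarith)
      have e4 : 1 / 2 / σ b ≤ (1 - σ b) / σ b :=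
        div_le_div_of_nonneg_right (by linarith) hσb.le
      have e5 : 0 < 1 / 2 / σ b := by positivity
      have e6 := hpa b hb
      calc (α ^ 2 / 2) * σ b ^ (-w b) ≤ (α ^ 2 / 2) * (σ b ^ α / σ b) := by
            rw [← e2]; exact mul_le_mul_of_nonneg_left e1 (by positivity)
        _ = 4 * α ^ 2 * (σ b ^ α / 4) * (1 / 2 / σ b) := by ring
        _ ≤ 4 * α ^ 2 * (σ b ^ α / (1 + σ b ^ α) ^ 2) * ((1 - σ b) / σ b) := by
            refine mul_le_mul (mul_le_mul_of_nonneg_left e3 (by positivity)) e4 e5.le (by positivity)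
    have h7 : 4 * α ^ 2 * (σ b ^ α / (1 + σ b ^ α) ^ 2) * ((1 - σ b) / σ b) ≤
        ∑ a ∈ S, 4 * α ^ 2 * (σ a ^ α / (1 + σ a ^ α) ^ 2) * ((1 - σ a) / σ a) :=
      Finset.single_le_sum hterm hb
    linarith

/-- The curvature of the pseudo-metric is bounded above by a negative constant. -/
theorem curv {τ : Type*} {S : Finset τ} {pt : τ → ℂ × ℂ} {w : τ → ℝ}
    (hS : ∀ a ∈ S, ‖(pt a).1‖ ^ 2 + ‖(pt a).2‖ ^ 2 = 1)
    (hne : ∀ a ∈ S, ∀ b ∈ S, a ≠ b → (pt a).1 * (pt b).2 - (pt a).2 * (pt b).1 ≠ 0)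
    (hw0 : ∀ a ∈ S, 0 < w a) (hw1 : ∀ a ∈ S, w a < 1) (hsum : 2 < ∑ a ∈ S, w a) :
    ∃ α : ℝ, 0 < α ∧ ∃ c : ℝ, 0 < c ∧ ∀ p q : ℂ → ℂ, Differentiable ℂ p → Differentiable ℂ q →
      (∀ z, p z ≠ 0 ∨ q z ≠ 0) → ∀ z, (∀ a ∈ S, ell p q (pt a) z ≠ 0) → WW p q z ≠ 0 →
      ∃ g₁ g₂ Λ, HasLap (fun x => Real.log (uu p q S pt w α x)) z g₁ g₂ Λ ∧
        c * uu p q S pt w α z ^ 2 ≤ Λ := by
  obtain ⟨δ, hδ, hδ2, hsep⟩ := sep hS hne
  obtain ⟨α, hα, c, hc, hsc⟩ := scal hw0 hw1 hsum hδ hδ2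
  refine ⟨α, hα, c, hc, fun p q hp hq h z hl hW => ?_⟩
  obtain ⟨g₁, g₂, hL⟩ := lap_u hp hq h hS w α z hl hW
  refine ⟨g₁, g₂, _, hL, ?_⟩
  have hN := NN_pos h z
  have h1 := hsc (fun a => sg p q (pt a) z) (fun a ha => by
    have : 0 < ‖ell p q (pt a) z‖ := norm_pos_iff.2 (hl a ha)
    show 0 < sg p q (pt a) z
    unfold sg; positivity) (fun a ha => sg_le_one h (hS a ha) z) (hsep p q h z)
  have hWn : 0 ≤ ‖WW p q z‖ ^ 2 / NN p q z ^ 2 := by positivity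
  have h2 := mul_le_mul_of_nonneg_left h1 hWn
  refine le_trans (le_of_eq ?_) h2
  unfold uu
  rw [mul_pow, div_pow]
  ring

end

end H121R3
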