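import Pool.Agent.H121R3.Max

/-!
# The joint ramification theorem
-/

namespace H121R3

open Topology Filter Complex

noncomputable section

theorem ent_an {f : ℂ → ℂ} (hf : Differentiable ℂ f) : AnalyticOnNhd ℂ f Set.univ :=
  fun z _ => hf.analyticAt z

/-- An entire function which is not identically zero has isolated zeros. -/
theorem ent_ne {f : ℂ → ℂ} (hf : Differentiable ℂ f) (h : ∃ z, f z ≠ 0) (z₀ : ℂ) :
    ∀ᶠ z in 𝓝[≠] z₀, f z ≠ 0 := by
  rcases (hf.analyticAt z₀).eventually_eq_zero_or_eventually_ne_zero with h1 | h1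
  · exfalso
    obtain ⟨z, hz⟩ := h
    exact hz ((ent_an hf).eqOn_zero_of_preconnected_of_eventuallyEq_zero isPreconnected_univ
      (Set.mem_univ z₀) h1 (Set.mem_univ z))
  · exact h1

theorem ent_order {f : ℂ → ℂ} (hf : Differentiable ℂ f) (h : ∃ z, f z ≠ 0) (z₀ : ℂ) :
    analyticOrderAt f z₀ ≠ ⊤ := by
  intro ht
  rw [analyticOrderAt_eq_top] at ht
  have h1 := ent_ne hf h z₀
  have h2 := ht.filter_mono (nhdsWithin_le_nhds (s := {z₀}ᶜ))
  have h3 : ∀ᶠ z in 𝓝[≠] z₀, False := by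
    filter_upwards [h1, h2] with z a b using a b
  simp only [eventually_false_iff_eq_bot] at h3
  exact (NormedField.nhdsNE_neBot z₀).ne h3

/-- The Wronskian in terms of a linear form of norm one. -/
theorem WW_ell {p q : ℂ → ℂ} (hp : Differentiable ℂ p) (hq : Differentiable ℂ q) {a : ℂ × ℂ}
    (ha : ‖a.1‖ ^ 2 + ‖a.2‖ ^ 2 = 1) (z : ℂ) :
    WW p q z = deriv (ell p q a) z * ((starRingEnd ℂ) a.1 * p z + (starRingEnd ℂ) a.2 * q z) -
      ell p q a z * ((starRingEnd ℂ) a.1 * deriv p z + (starRingEnd ℂ) a.2 * deriv q z) := by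
  have hu : (starRingEnd ℂ) a.1 * a.1 + (starRingEnd ℂ) a.2 * a.2 = 1 := by
    rw [← Complex.normSq_eq_conj_mul_self, ← Complex.normSq_eq_conj_mul_self,
      Complex.normSq_eq_norm_sq, Complex.normSq_eq_norm_sq]
    exact_mod_cast ha
  rw [ell_deriv hp hq]
  unfold WW ell
  linear_combination -(deriv p z * q z - p z * deriv q z) * hu

theorem ell_ne_of_WW {p q : ℂ → ℂ} (hp : Differentiable ℂ p) (hq : Differentiable ℂ q)
    {a : ℂ × ℂ} (ha : ‖a.1‖ ^ 2 + ‖a.2‖ ^ 2 = 1) (hW : ∃ z, WW p q z ≠ 0) :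
    ∃ z, ell p q a z ≠ 0 := by
  by_contra hcon
  push Not at hcon
  obtain ⟨z, hz⟩ := hW
  apply hz
  have : ell p q a = fun _ => 0 := funext hcon
  rw [WW_ell hp hq ha, this]
  simp

/-- Vanishing of the Wronskian means that `[p : q]` is constant. -/
theorem const_of_WW {p q : ℂ → ℂ} (hp : Differentiable ℂ p) (hq : Differentiable ℂ q)
    (h : ∀ z, p z ≠ 0 ∨ q z ≠ 0) (hW : ∀ z, WW p q z = 0) (z₀ : ℂ) :
    ∀ z, q z₀ * p z - p z₀ * q z = 0 := by
  have main : ∀ {f g : ℂ → ℂ}, Differentiable ℂ f → Differentiable ℂ g →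
      (∀ z, deriv f z * g z - f z * deriv g z = 0) → g z₀ ≠ 0 → ∀ z, g z₀ * f z - f z₀ * g z = 0 := by
    intro f g hf hg hfg hg0
    have hc : ∀ᶠ z in 𝓝 z₀, g z ≠ 0 := hg.continuous.continuousAt.eventually_ne hg0
    obtain ⟨r, hr, hr'⟩ := Metric.eventually_nhds_iff_ball.1 hc
    have hdiv : DifferentiableOn ℂ (fun z => f z / g z) (Metric.ball z₀ r) := fun z hz =>
      ((hf z).div (hg z) (hr' z hz)).differentiableWithinAt
    have hd0 : ∀ z ∈ Metric.ball z₀ r, deriv (fun z => f z / g z) z = 0 := by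
      intro z hz
      rw [deriv_fun_div (hf z) (hg z) (hr' z hz), hfg z, zero_div]
    have hconst : ∀ z ∈ Metric.ball z₀ r, f z / g z = f z₀ / g z₀ := fun z hz =>
      Metric.isOpen_ball.is_const_of_deriv_eq_zero (convex_ball z₀ r).isPreconnected hdiv hd0 hz
        (Metric.mem_ball_self hr)
    have hF : Differentiable ℂ (fun z => g z₀ * f z - f z₀ * g z) :=
      (hf.const_mul _).sub (hg.const_mul _)
    have hev : (fun z => g z₀ * f z - f z₀ * g z) =ᶠ[𝓝 z₀] 0 := by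
      filter_upwards [Metric.ball_mem_nhds z₀ hr] with z hz
      have h1 := hconst z hz
      rw [div_eq_div_iff (hr' z hz) hg0] at h1
      simp only [Pi.zero_apply]
      linear_combination h1
    intro z
    exact (ent_an hF).eqOn_zero_of_preconnected_of_eventuallyEq_zero isPreconnected_univ
      (Set.mem_univ z₀) hev (Set.mem_univ z)
  rcases h z₀ with h0 | h0
  · intro z
    have := main hq hp (fun z => by have := hW z; unfold WW at this; linear_combination -this) h0 z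
    linear_combination -this
  · exact main hp hq hW h0

variable {ι τ : Type*}

/-- The joint ramification theorem. -/
theorem joint {J : Finset ι} {p q : ι → ℂ → ℂ} {S : ι → Finset τ} {pt : ι → τ → ℂ × ℂ}
    {w : ι → τ → ℝ} {lam : ι → ℝ} (hJ : J.Nonempty)
    (hp : ∀ i ∈ J, Differentiable ℂ (p i)) (hq : ∀ i ∈ J, Differentiable ℂ (q i))
    (h : ∀ i ∈ J, ∀ z, p i z ≠ 0 ∨ q i z ≠ 0)
    (hS : ∀ i ∈ J, ∀ a ∈ S i, ‖(pt i a).1‖ ^ 2 + ‖(pt i a).2‖ ^ 2 = 1)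
    (hne : ∀ i ∈ J, ∀ a ∈ S i, ∀ b ∈ S i, a ≠ b →
      (pt i a).1 * (pt i b).2 - (pt i a).2 * (pt i b).1 ≠ 0)
    (hw0 : ∀ i ∈ J, ∀ a ∈ S i, 0 < w i a) (hw1 : ∀ i ∈ J, ∀ a ∈ S i, w i a < 1)
    (hsum : ∀ i ∈ J, 2 < ∑ a ∈ S i, w i a) (hlam : ∀ i ∈ J, 0 < lam i)
    (hW : ∀ i ∈ J, ∃ z, WW (p i) (q i) z ≠ 0)
    (hjoint : ∀ z₀, (∃ i ∈ J, ∃ a ∈ S i, ell (p i) (q i) (pt i a) z₀ = 0) →
      0 < ∑ i ∈ J, lam i * mu (p i) (q i) (S i) (pt i) (w i) z₀) : False := by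
  classical
  have hcv : ∀ i ∈ J, ∃ α : ℝ, 0 < α ∧ ∃ c : ℝ, 0 < c ∧ ∀ p q : ℂ → ℂ, Differentiable ℂ p →
      Differentiable ℂ q → (∀ z, p z ≠ 0 ∨ q z ≠ 0) → ∀ z,
      (∀ a ∈ S i, ell p q (pt i a) z ≠ 0) → WW p q z ≠ 0 →
      ∃ g₁ g₂ Λ, HasLap (fun x => Real.log (uu p q (S i) (pt i) (w i) α x)) z g₁ g₂ Λ ∧
        c * uu p q (S i) (pt i) (w i) α z ^ 2 ≤ Λ := fun i hi =>
    curv (hS i hi) (hne i hi) (hw0 i hi) (hw1 i hi) (hsum i hi)
  choose! α hα c hc hcurv using hcv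
  obtain ⟨c₀, hc₀, hc₀'⟩ : ∃ l : ℝ, 0 < l ∧ ∀ i ∈ J, l ≤ c i := by
    obtain ⟨a, ha, hmin⟩ := J.exists_min_image c hJ
    exact ⟨c a, hc a ha, fun b hb => hmin b hb⟩
  have hell : ∀ i ∈ J, ∀ a ∈ S i, ∃ z, ell (p i) (q i) (pt i a) z ≠ 0 := fun i hi a ha =>
    ell_ne_of_WW (hp i hi) (hq i hi) (hS i hi a ha) (hW i hi)
  have hcont : Continuous (UU J p q S pt w α lam) :=
    UU_cont hp hq h hS hne hw0 hα hlam (fun i hi a ha z =>
      ent_order (ell_diff (hp i hi) (hq i hi) _) (hell i hi a ha) z) hjoint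
  have hU : ∀ z, UU J p q S pt w α lam z = 0 := fun z =>
    maxp hJ hlam hp hq h hα hw0 hc₀ (fun i hi z hz hz' => by
      obtain ⟨g₁, g₂, Λ, h1, h2⟩ := hcurv i hi (p i) (q i) (hp i hi) (hq i hi) (h i hi) z hz hz'
      exact ⟨g₁, g₂, Λ, h1, le_trans (mul_le_mul_of_nonneg_right (hc₀' i hi) (by positivity)) h2⟩)
      hcont z
  have e1 : ∀ᶠ z in 𝓝[≠] (0 : ℂ), ∀ i ∈ J, WW (p i) (q i) z ≠ 0 :=
    (Finset.eventually_all J).2 fun i hi => ent_ne (WW_diff (hp i hi) (hq i hi)) (hW i hi) 0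
  have e2 : ∀ᶠ z in 𝓝[≠] (0 : ℂ), ∀ i ∈ J, ∀ a ∈ S i, ell (p i) (q i) (pt i a) z ≠ 0 :=
    (Finset.eventually_all J).2 fun i hi => (Finset.eventually_all (S i)).2 fun a ha =>
      ent_ne (ell_diff (hp i hi) (hq i hi) _) (hell i hi a ha) 0
  obtain ⟨z, hz1, hz2⟩ := (e1.and e2).exists
  have : 0 < UU J p q S pt w α lam z := by
    refine Finset.prod_pos fun i hi => Real.rpow_pos_of_pos ?_ _
    have hN := NN_pos (h i hi) z
    have hWp : 0 < ‖WW (p i) (q i) z‖ := norm_pos_iff.2 (hz1 i hi)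
    unfold uu
    refine mul_pos (div_pos hWp hN) (Finset.prod_pos fun a ha => ?_)
    have := sg_pos (h i hi) (hz2 i hi a ha)
    positivity
  exact this.ne' (hU z)

end

end H121R3
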