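import Mathlib

/-!
# A small calculus for Laplacians along the coordinate directions of `ℂ`
-/

namespace H121R3

open Topology Filter Complex

/-- `φ` is differentiable near `0`, with first derivative `A` and second derivative `B` at `0`. -/
def D2 (φ : ℝ → ℝ) (A B : ℝ) : Prop :=
  ∃ φ' : ℝ → ℝ, (∀ᶠ t in 𝓝 0, HasDerivAt φ (φ' t) t) ∧ φ' 0 = A ∧ HasDerivAt φ' B 0

theorem D2.add {φ ψ : ℝ → ℝ} {A B C D : ℝ} (h : D2 φ A B) (k : D2 ψ C D) :
    D2 (fun t => φ t + ψ t) (A + C) (B + D) := by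
  obtain ⟨φ', h1, h2, h3⟩ := h
  obtain ⟨ψ', k1, k2, k3⟩ := k
  refine ⟨fun t => φ' t + ψ' t, ?_, by simp only [h2, k2], h3.add k3⟩
  filter_upwards [h1, k1] with t a b using a.add b

theorem D2.const_mul {φ : ℝ → ℝ} {A B : ℝ} (h : D2 φ A B) (c : ℝ) :
    D2 (fun t => c * φ t) (c * A) (c * B) := by
  obtain ⟨φ', h1, h2, h3⟩ := h
  refine ⟨fun t => c * φ' t, ?_, by simp only [h2], h3.const_mul c⟩
  filter_upwards [h1] with t a using a.const_mul c

theorem D2.const (c : ℝ) : D2 (fun _ => c) 0 0 :=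
  ⟨fun _ => 0, Eventually.of_forall fun t => hasDerivAt_const t c, rfl, hasDerivAt_const _ _⟩

theorem D2.comp {φ : ℝ → ℝ} {A B : ℝ} (h : D2 φ A B) {L L' : ℝ → ℝ} {L2 : ℝ}
    (hL : ∀ᶠ x in 𝓝 (φ 0), HasDerivAt L (L' x) x) (hL' : HasDerivAt L' L2 (φ 0)) :
    D2 (fun t => L (φ t)) (L' (φ 0) * A) (L2 * A ^ 2 + L' (φ 0) * B) := by
  obtain ⟨φ', h1, h2, h3⟩ := h
  have h0 : HasDerivAt φ (φ' 0) 0 := h1.self_of_nhds
  refine ⟨fun t => L' (φ t) * φ' t, ?_, by simp only [h2], ?_⟩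
  · filter_upwards [h1, h0.continuousAt.eventually hL] with t a b
    exact b.comp t a
  · have := (hL'.comp 0 h0).mul h3
    refine this.congr_deriv ?_
    simp only [Function.comp, h2]; ring

theorem D2.congr {φ ψ : ℝ → ℝ} {A B : ℝ} (h : D2 φ A B) (e : φ =ᶠ[𝓝 0] ψ) : D2 ψ A B := by
  obtain ⟨φ', h1, h2, h3⟩ := h
  refine ⟨φ', ?_, h2, h3⟩
  filter_upwards [h1, e.eventuallyEq_nhds] with t a b
  exact a.congr_of_eventuallyEq b.symm

/-- Second derivative test. -/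
theorem D2.nonpos {φ : ℝ → ℝ} {A B : ℝ} (h : D2 φ A B) (hm : IsLocalMax φ 0) : B ≤ 0 := by
  obtain ⟨φ', h1, h2, h3⟩ := h
  by_contra hB
  push Not at hB
  have hA : φ' 0 = 0 := hm.hasDerivAt_eq_zero h1.self_of_nhds
  have hs : Tendsto (fun t => (φ' t) / t) (𝓝[>] 0) (𝓝 B) := by
    have := h3.tendsto_slope_zero_right
    simpa [hA, div_eq_inv_mul] using this
  have hpos : ∀ᶠ t in 𝓝[>] (0 : ℝ), 0 < φ' t := by
    filter_upwards [hs.eventually (lt_mem_nhds hB), self_mem_nhdsWithin] with t ht h0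
    have h0' : (0 : ℝ) < t := h0
    have := mul_pos ht h0'
    rwa [div_mul_cancel₀ _ h0'.ne'] at this
  obtain ⟨ε, hε, hε'⟩ := Metric.eventually_nhds_iff.1 (h1.and hm)
  obtain ⟨b, hb, hb'⟩ := mem_nhdsGT_iff_exists_Ioo_subset.1 hpos
  have hb0 : 0 < b := hb
  set t := min (ε / 2) (b / 2) with ht
  have t0 : 0 < t := by positivity
  have tε : t < ε := lt_of_le_of_lt (min_le_left _ _) (by linarith)
  have tb : t < b := lt_of_le_of_lt (min_le_right _ _) (by linarith)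
  obtain ⟨c, hc, hc'⟩ := exists_hasDerivAt_eq_slope φ φ' t0
    (fun x hx => ((hε' (by
      rw [Real.dist_eq, sub_zero, abs_of_nonneg hx.1]; linarith [hx.2])).1).continuousAt.continuousWithinAt)
    (fun x hx => (hε' (by rw [Real.dist_eq, sub_zero, abs_of_pos hx.1]; linarith [hx.2])).1)
  have p : 0 < φ' c := hb' ⟨hc.1, by linarith [hc.2]⟩
  have m : φ t ≤ φ 0 := (hε' (by rw [Real.dist_eq, sub_zero, abs_of_pos t0]; exact tε)).2
  rw [hc'] at p
  have : (φ t - φ 0) / (t - 0) ≤ 0 := div_nonpos_of_nonpos_of_nonneg (by linarith) (by linarith)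
  linarith

/-- `φ` has partial derivatives `A₁, A₂` and Laplacian `Λ` at `z`. -/
def HasLap (φ : ℂ → ℝ) (z : ℂ) (A₁ A₂ Λ : ℝ) : Prop :=
  ∃ B₁ B₂, D2 (fun t : ℝ => φ (z + t * 1)) A₁ B₁ ∧ D2 (fun t : ℝ => φ (z + t * I)) A₂ B₂ ∧
    B₁ + B₂ = Λ

theorem HasLap.add {φ ψ : ℂ → ℝ} {z : ℂ} {A₁ A₂ Λ C₁ C₂ M : ℝ} (h : HasLap φ z A₁ A₂ Λ)
    (k : HasLap ψ z C₁ C₂ M) : HasLap (fun x => φ x + ψ x) z (A₁ + C₁) (A₂ + C₂) (Λ + M) := by
  obtain ⟨B₁, B₂, h1, h2, h3⟩ := h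
  obtain ⟨D₁, D₂, k1, k2, k3⟩ := k
  exact ⟨_, _, h1.add k1, h2.add k2, by rw [← h3, ← k3]; ring⟩

theorem HasLap.const_mul {φ : ℂ → ℝ} {z : ℂ} {A₁ A₂ Λ : ℝ} (h : HasLap φ z A₁ A₂ Λ) (c : ℝ) :
    HasLap (fun x => c * φ x) z (c * A₁) (c * A₂) (c * Λ) := by
  obtain ⟨B₁, B₂, h1, h2, h3⟩ := h
  exact ⟨_, _, h1.const_mul c, h2.const_mul c, by rw [← h3]; ring⟩

theorem HasLap.const (c : ℝ) (z : ℂ) : HasLap (fun _ => c) z 0 0 0 :=
  ⟨0, 0, D2.const c, D2.const c, by simp⟩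

theorem HasLap.sum {ι : Type*} (s : Finset ι) {φ : ι → ℂ → ℝ} {z : ℂ} {A₁ A₂ Λ : ι → ℝ}
    (h : ∀ i ∈ s, HasLap (φ i) z (A₁ i) (A₂ i) (Λ i)) :
    HasLap (fun x => ∑ i ∈ s, φ i x) z (∑ i ∈ s, A₁ i) (∑ i ∈ s, A₂ i) (∑ i ∈ s, Λ i) := by
  classical
  induction s using Finset.induction_on with
  | empty => simpa using HasLap.const 0 z
  | insert a s ha ih =>
    simp only [Finset.sum_insert ha]
    exact (h a (Finset.mem_insert_self _ _)).add
      (ih fun i hi => h i (Finset.mem_insert_of_mem hi))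

theorem HasLap.comp {φ : ℂ → ℝ} {z : ℂ} {A₁ A₂ Λ : ℝ} (h : HasLap φ z A₁ A₂ Λ) {L L' : ℝ → ℝ}
    {L2 : ℝ} (hL : ∀ᶠ x in 𝓝 (φ z), HasDerivAt L (L' x) x) (hL' : HasDerivAt L' L2 (φ z)) :
    HasLap (fun x => L (φ x)) z (L' (φ z) * A₁) (L' (φ z) * A₂)
      (L2 * (A₁ ^ 2 + A₂ ^ 2) + L' (φ z) * Λ) := by
  obtain ⟨B₁, B₂, h1, h2, h3⟩ := h
  have k1 := h1.comp (L := L) (L' := L') (L2 := L2) (by simpa using hL) (by simpa using hL')
  have k2 := h2.comp (L := L) (L' := L') (L2 := L2) (by simpa using hL) (by simpa using hL')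
  simp only [ofReal_zero, zero_mul, add_zero] at k1 k2
  exact ⟨_, _, k1, k2, by rw [← h3]; ring⟩

theorem HasLap.congr {φ ψ : ℂ → ℝ} {z : ℂ} {A₁ A₂ Λ : ℝ} (h : HasLap φ z A₁ A₂ Λ)
    (e : φ =ᶠ[𝓝 z] ψ) : HasLap ψ z A₁ A₂ Λ := by
  obtain ⟨B₁, B₂, h1, h2, h3⟩ := h
  have c : ∀ e : ℂ, Tendsto (fun t : ℝ => z + t * e) (𝓝 0) (𝓝 z) := by
    intro e
    have : Continuous (fun t : ℝ => z + t * e) := by fun_prop
    simpa using this.tendsto 0
  exact ⟨_, _, h1.congr ((c 1).eventually e), h2.congr ((c I).eventually e), h3⟩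

theorem HasLap.vals {φ : ℂ → ℝ} {z : ℂ} {A₁ A₂ Λ C₁ C₂ M : ℝ} (h : HasLap φ z A₁ A₂ Λ)
    (e1 : A₁ = C₁) (e2 : A₂ = C₂) (e3 : Λ = M) : HasLap φ z C₁ C₂ M := by
  subst e1; subst e2; subst e3; exact h

theorem HasLap.nonpos {φ : ℂ → ℝ} {z : ℂ} {A₁ A₂ Λ : ℝ} (h : HasLap φ z A₁ A₂ Λ)
    (hm : IsLocalMax φ z) : Λ ≤ 0 := by
  obtain ⟨B₁, B₂, h1, h2, h3⟩ := h
  have c : ∀ e : ℂ, IsLocalMax (fun t : ℝ => φ (z + t * e)) 0 := by
    intro e
    have : Continuous (fun t : ℝ => z + t * e) := by fun_prop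
    have t : Tendsto (fun t : ℝ => z + t * e) (𝓝 0) (𝓝 z) := by simpa using this.tendsto 0
    have := t.eventually hm
    simpa [IsLocalMax, IsMaxFilter] using this
  have := h1.nonpos (c 1)
  have := h2.nonpos (c I)
  linarith

theorem line_deriv {F : ℂ → ℂ} (hF : Differentiable ℂ F) (z e : ℂ) (t : ℝ) :
    HasDerivAt (fun τ : ℂ => F (z + τ * e)) (deriv F (z + t * e) * e) (t : ℂ) := by
  have h1 : HasDerivAt (fun τ : ℂ => z + τ * e) e (t : ℂ) := by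
    simpa using ((hasDerivAt_id (t : ℂ)).mul_const e).const_add z
  exact (hF _).hasDerivAt.comp (t : ℂ) h1

theorem D2_normSq {F : ℂ → ℂ} (hF : Differentiable ℂ F) (z e : ℂ) :
    D2 (fun t : ℝ => ‖F (z + t * e)‖ ^ 2)
      (2 * ((starRingEnd ℂ) (F z) * (deriv F z * e)).re)
      (2 * ‖deriv F z * e‖ ^ 2 + 2 * ((starRingEnd ℂ) (F z) * (deriv (deriv F) z * e * e)).re) := by
  have hF' : Differentiable ℂ (deriv F) := fun x =>
    ((hF.differentiableOn (s := Set.univ)).deriv isOpen_univ).differentiableAt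
      (isOpen_univ.mem_nhds (Set.mem_univ x))
  have r : ∀ {G : ℂ → ℂ}, Differentiable ℂ G → ∀ t : ℝ,
      HasDerivAt (fun t : ℝ => (G (z + t * e)).re) (deriv G (z + t * e) * e).re t :=
    fun hG t => (line_deriv hG z e t).real_of_complex
  have i : ∀ {G : ℂ → ℂ}, Differentiable ℂ G → ∀ t : ℝ,
      HasDerivAt (fun t : ℝ => (G (z + t * e)).im) (deriv G (z + t * e) * e).im t := by
    intro G hG t
    have h := (line_deriv hG z e t).mul_const (-I)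
    have := h.real_of_complex
    simpa using this
  have hFe : Differentiable ℂ (fun x => deriv F x * e) := hF'.mul_const e
  have dFe : ∀ x, deriv (fun x => deriv F x * e) x = deriv (deriv F) x * e := fun x =>
    deriv_mul_const (hF' x) e
  refine ⟨fun t => 2 * ((F (z + t * e)).re * (deriv F (z + t * e) * e).re +
    (F (z + t * e)).im * (deriv F (z + t * e) * e).im), Eventually.of_forall fun t => ?_, ?_, ?_⟩
  · have h := ((r hF t).mul (r hF t)).add ((i hF t).mul (i hF t))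
    have e1 : (fun t : ℝ => ‖F (z + t * e)‖ ^ 2) = fun t : ℝ =>
        (F (z + t * e)).re * (F (z + t * e)).re + (F (z + t * e)).im * (F (z + t * e)).im := by
      ext t; rw [← Complex.normSq_eq_norm_sq, Complex.normSq_apply]
    rw [e1]
    exact h.congr_deriv (by ring)
  · simp [Complex.mul_re]
  · have h := (((r hF 0).mul (r hFe 0)).add ((i hF 0).mul (i hFe 0))).const_mul 2
    refine h.congr_deriv ?_
    rw [dFe]
    have e2 : ‖deriv F z * e‖ ^ 2 = (deriv F z * e).re * (deriv F z * e).re +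
        (deriv F z * e).im * (deriv F z * e).im := by
      rw [← Complex.normSq_eq_norm_sq, Complex.normSq_apply]
    rw [e2]
    simp only [ofReal_zero, zero_mul, add_zero]
    have e3 : ∀ a b : ℂ, ((starRingEnd ℂ) a * b).re = a.re * b.re + a.im * b.im := by
      intro a b; simp [Complex.mul_re]
    rw [e3]
    ring

theorem lap_normSq {F : ℂ → ℂ} (hF : Differentiable ℂ F) (z : ℂ) :
    HasLap (fun x => ‖F x‖ ^ 2) z (2 * ((starRingEnd ℂ) (F z) * deriv F z).re)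
      (2 * ((starRingEnd ℂ) (F z) * deriv F z * I).re) (4 * ‖deriv F z‖ ^ 2) := by
  have d1 := D2_normSq hF z 1
  have d2 := D2_normSq hF z I
  rw [mul_one] at d1
  rw [← mul_assoc] at d2
  refine ⟨_, _, d1, d2, ?_⟩
  · simp only [norm_mul, norm_I, mul_one]
    have : ((starRingEnd ℂ) (F z) * (deriv (deriv F) z * I * I)).re =
        -((starRingEnd ℂ) (F z) * (deriv (deriv F) z)).re := by
      rw [mul_assoc (deriv (deriv F) z), I_mul_I]; simp
    rw [this]; ring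

theorem lap_log {φ : ℂ → ℝ} {z : ℂ} {A₁ A₂ Λ : ℝ} (h : HasLap φ z A₁ A₂ Λ) (h0 : 0 < φ z) :
    HasLap (fun x => Real.log (φ x)) z (A₁ / φ z) (A₂ / φ z)
      (Λ / φ z - (A₁ ^ 2 + A₂ ^ 2) / φ z ^ 2) := by
  have hL : ∀ᶠ x in 𝓝 (φ z), HasDerivAt Real.log (x⁻¹) x := by
    filter_upwards [lt_mem_nhds h0] with x hx using Real.hasDerivAt_log hx.ne'
  have hL' : HasDerivAt (fun x : ℝ => x⁻¹) (-(φ z ^ 2)⁻¹) (φ z) := hasDerivAt_inv h0.ne'
  have := h.comp hL hL'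
  convert this using 1 <;> field_simp
  ring

end H121R3
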