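import Pool.Agent.H121R3.Siegel

/-!
# Second order theta constants and the theta map
-/

namespace H121R3

open Topology

/-- The theta function `θ[ε;δ](τ,z)` with real characteristics `ε`, `δ`. -/
noncomputable def theta {g : ℕ} (ε δ : Fin g → ℝ) (τ : Mat g) (z : Fin g → ℂ) : ℂ :=
  ∑' n : Fin g → ℤ, Complex.exp (Real.pi * Complex.I *
    ∑ i, ((n i : ℂ) + ε i) * ((∑ j, τ i j * ((n j : ℂ) + ε j)) + 2 * (z i + δ i)))

/-- The vector of second order theta constants `Θ[e/2](τ) = θ[e/2;0](2τ,0)`, `e ∈ {0,1}^g`;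
its class in projective space is `Th(τ)`. -/
noncomputable def Theta (g : ℕ) (τ : Mat g) : (Fin g → Fin 2) → ℂ :=
  fun e => theta (fun i => ((e i : ℕ) : ℝ) / 2) 0 (fun i j => 2 * τ i j) 0

/-- Surjectivity of the theta map on local rings at the point `[τ₀]` of `A_g(2,4)`: each
`Γ_g(2,4)`-invariant holomorphic function on a `Γ_g(2,4)`-stable open set `W ∋ τ₀` of the Siegel
space (that is, each holomorphic function on an open set of the quotient around `[τ₀]`) is, near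
`τ₀`, a holomorphic function of the theta constants. -/
def LocalIsoAt (g : ℕ) (τ₀ : Mat g) : Prop :=
  ∀ (W : Set (Mat g)) (f : Mat g → ℂ), τ₀ ∈ W → W ⊆ siegel g →
    (∃ O, IsOpen O ∧ W = O ∩ siegel g) →
    (∀ γ ∈ Gam24 g, ∀ τ ∈ W, act γ τ ∈ W ∧ f (act γ τ) = f τ) →
    AnalyticOn ℂ f W →
    ∃ F : ((Fin g → Fin 2) → ℂ) → ℂ, AnalyticAt ℂ F (Theta g τ₀) ∧
      ∀ᶠ τ in 𝓝[siegel g] τ₀, f τ = F (Theta g τ)

/-- Two necessary conditions for the theta map of genus `g` to be an embedding: injectivity on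
`A_g(2,4)` and surjectivity on all local rings. -/
def ThEmbedding (g : ℕ) : Prop :=
  (∀ τ ∈ siegel g, ∀ τ' ∈ siegel g, (∃ c : ℂ, c ≠ 0 ∧ Theta g τ' = c • Theta g τ) →
    ∃ γ ∈ Gam24 g, act γ τ = τ') ∧
  ∀ τ₀ ∈ siegel g, LocalIsoAt g τ₀

end H121R3
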