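import Pool.Agent.H121R3.Glue
import Pool.Agent.H121R3.Expand
import Pool.Agent.H121R3.ThetaDefs

/-!
# The theta map is not a local isomorphism at a product point, `g ≥ 4`
-/

namespace H121R3

open Matrix Topology Filter

variable {g : ℕ}

/-- `i · 1 + R` with `R` real. -/
def pert (R : Fin g → Fin g → ℝ) : Mat g := fun k l => (if k = l then Complex.I else 0) + R k l

theorem pert_mem {R : Fin g → Fin g → ℝ} (hR : ∀ i j, R i j = R j i) : pert R ∈ siegel g := by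
  refine ⟨fun i j => ?_, fun x hx => ?_⟩
  · simp only [pert, hR i j, eq_comm]
  · have e : ∀ i j, (pert R i j).im = if i = j then 1 else 0 := by
      intro i j
      simp only [pert, Complex.add_im, Complex.ofReal_im, add_zero]
      split_ifs <;> simp
    simp only [e, mul_ite, mul_one, mul_zero, ite_mul, zero_mul, Finset.sum_ite_eq,
      Finset.mem_univ, if_true]
    obtain ⟨i, hi⟩ := Function.ne_iff.1 hx
    refine Finset.sum_pos' (fun i _ => mul_self_nonneg _) ⟨i, Finset.mem_univ _, ?_⟩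
    exact mul_self_pos.2 hi

/-- `m = n + e/2`. -/
noncomputable def mm (e : Fin g → Fin 2) (n : Fin g → ℤ) (i : Fin g) : ℝ := (n i : ℝ) + ((e i : ℕ) : ℝ) / 2

/-- `|m|²`. -/
noncomputable def SS (e : Fin g → Fin 2) (n : Fin g → ℤ) : ℝ := ∑ i, mm e n i ^ 2

theorem Theta_pert (R : Fin g → Fin g → ℝ) (e : Fin g → Fin 2) :
    Theta g (pert R) e = ∑' n : Fin g → ℤ, Complex.exp
      (((-(2 * Real.pi * SS e n) : ℝ) : ℂ) +
        2 * Real.pi * Complex.I * ((∑ i, ∑ j, R i j * mm e n i * mm e n j : ℝ) : ℂ)) := by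
  unfold Theta theta
  refine tsum_congr fun n => congrArg _ ?_
  have h1 : ∀ i : Fin g, (n i : ℂ) + (((((e i : ℕ) : ℝ) / 2 : ℝ)) : ℂ) = ((mm e n i : ℝ) : ℂ) := by
    intro i; unfold mm; push_cast; ring
  simp only [h1, Pi.zero_apply, Complex.ofReal_zero, add_zero, mul_zero]
  have h2 : ∀ i, ((mm e n i : ℝ) : ℂ) * ∑ j, 2 * pert R i j * ((mm e n j : ℝ) : ℂ) =
      2 * Complex.I * ((mm e n i ^ 2 : ℝ) : ℂ) +
      2 * ((∑ j, R i j * mm e n i * mm e n j : ℝ) : ℂ) := by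
    intro i
    have : ∀ j, 2 * pert R i j * ((mm e n j : ℝ) : ℂ) =
        (if i = j then 2 * Complex.I * ((mm e n j : ℝ) : ℂ) else 0) +
          2 * ((R i j * mm e n j : ℝ) : ℂ) := by
      intro j; unfold pert; split_ifs <;> push_cast <;> ring
    simp only [this, Finset.sum_add_distrib, Finset.sum_ite_eq, Finset.mem_univ, if_true]
    push_cast
    rw [mul_add, Finset.mul_sum, Finset.mul_sum]
    congr 1
    · ring
    · exact Finset.sum_congr rfl fun j _ => by ring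
  rw [Finset.sum_congr rfl fun i _ => h2 i, Finset.sum_add_distrib, ← Finset.mul_sum,
    ← Finset.mul_sum]
  unfold SS
  push_cast
  have hI := Complex.I_mul_I
  set A := ∑ i, ((mm e n i : ℝ) : ℂ) ^ 2
  set B := ∑ i, ∑ j, (R i j : ℂ) * ((mm e n i : ℝ) : ℂ) * ((mm e n j : ℝ) : ℂ)
  linear_combination (2 * Real.pi * A : ℂ) * hI

/-- Symmetric elementary matrix. -/
def dr (i j k l : Fin g) : ℝ :=
  (if k = i then 1 else 0) * (if l = j then 1 else 0) +
    (if k = j then 1 else 0) * (if l = i then 1 else 0)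

theorem dr_symm (i j k l : Fin g) : dr i j k l = dr i j l k := by
  unfold dr; ring

theorem dr_sum (i j : Fin g) (m : Fin g → ℝ) :
    ∑ k, ∑ l, dr i j k l * m k * m l = 2 * (m i * m j) := by
  have : ∀ k l, dr i j k l * m k * m l =
      ((if k = i then m k else 0) * (if l = j then m l else 0)) +
      ((if k = j then m k else 0) * (if l = i then m l else 0)) := by
    intro k l; unfold dr; split_ifs <;> ring
  simp only [this, Finset.sum_add_distrib, ← Finset.mul_sum, ← Finset.sum_mul, Finset.sum_ite_eq',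
    Finset.mem_univ, if_true]
  ring

/-- The four distinguished indices. -/
def pt (hg : 4 ≤ g) (k : Fin 4) : Fin g := Fin.castLE hg k

theorem pt_inj (hg : 4 ≤ g) {k l : Fin 4} : pt hg k = pt hg l ↔ k = l :=
  (Fin.castLE_injective hg).eq_iff

/-- The real part of the base point and of its perturbations. -/
def RR (hg : 4 ≤ g) (κ s u : ℝ) (a b c d : Fin 4) (k l : Fin g) : ℝ :=
  κ * dr (pt hg 0) (pt hg 1) k l + κ * dr (pt hg 2) (pt hg 3) k l +
    s * dr (pt hg a) (pt hg b) k l + u * dr (pt hg c) (pt hg d) k l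

theorem RR_symm (hg : 4 ≤ g) (κ s u : ℝ) (a b c d : Fin 4) (k l : Fin g) :
    RR hg κ s u a b c d k l = RR hg κ s u a b c d l k := by
  unfold RR
  rw [dr_symm (pt hg 0), dr_symm (pt hg 2), dr_symm (pt hg a), dr_symm (pt hg c)]

theorem RR_sum (hg : 4 ≤ g) (κ s u : ℝ) (a b c d : Fin 4) (m : Fin g → ℝ) :
    ∑ k, ∑ l, RR hg κ s u a b c d k l * m k * m l =
      2 * (κ * (m (pt hg 0) * m (pt hg 1) + m (pt hg 2) * m (pt hg 3)) +
        s * (m (pt hg a) * m (pt hg b)) + u * (m (pt hg c) * m (pt hg d))) := by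
  have : ∀ k l, RR hg κ s u a b c d k l * m k * m l =
      κ * (dr (pt hg 0) (pt hg 1) k l * m k * m l) + κ * (dr (pt hg 2) (pt hg 3) k l * m k * m l) +
      s * (dr (pt hg a) (pt hg b) k l * m k * m l) +
      u * (dr (pt hg c) (pt hg d) k l * m k * m l) := by
    intro k l; unfold RR; ring
  simp only [this, Finset.sum_add_distrib, ← Finset.mul_sum, dr_sum]
  ring

/-- Weights at the base point. -/
noncomputable def ww (hg : 4 ≤ g) (κ : ℝ) (e : Fin g → Fin 2) (n : Fin g → ℤ) : ℂ :=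
  Complex.exp (((-(2 * Real.pi * SS e n) : ℝ) : ℂ) + 4 * Real.pi * Complex.I *
    ((κ * (mm e n (pt hg 0) * mm e n (pt hg 1) + mm e n (pt hg 2) * mm e n (pt hg 3)) : ℝ) : ℂ))

theorem ww_norm (hg : 4 ≤ g) (κ : ℝ) (e : Fin g → Fin 2) (n : Fin g → ℤ) :
    ‖ww hg κ e n‖ = Real.exp (-(2 * Real.pi * SS e n)) := by
  unfold ww
  rw [Complex.norm_exp]
  congr 1
  rw [Complex.add_re, Complex.ofReal_re]
  have : (4 * Real.pi * Complex.I *
    ((κ * (mm e n (pt hg 0) * mm e n (pt hg 1) + mm e n (pt hg 2) * mm e n (pt hg 3)) : ℝ) : ℂ)).re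
      = 0 := by
    rw [Complex.re_mul_ofReal]
    have : (4 * Real.pi * Complex.I : ℂ).re = 0 := by simp
    rw [this, zero_mul]
  rw [this, add_zero]

theorem Theta_RR (hg : 4 ≤ g) (κ s : ℝ) (σ : ℝ) (a b c d : Fin 4) (e : Fin g → Fin 2) :
    Theta g (pert (RR hg κ s (σ * s) a b c d)) e = ∑' n : Fin g → ℤ, ww hg κ e n *
      Complex.exp (4 * Real.pi * Complex.I * s *
        ((mm e n (pt hg a) * mm e n (pt hg b) + σ * (mm e n (pt hg c) * mm e n (pt hg d)) : ℝ) : ℂ)) := by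
  rw [Theta_pert]
  refine tsum_congr fun n => ?_
  rw [RR_sum]
  unfold ww
  rw [← Complex.exp_add]
  congr 1
  push_cast
  ring

/-- The flip of the first two coordinates. -/
def flip (hg : 4 ≤ g) (e : Fin g → Fin 2) (n : Fin g → ℤ) : Fin g → ℤ :=
  fun i => if i = pt hg 0 ∨ i = pt hg 1 then -n i - ((e i : ℕ) : ℤ) else n i

theorem flip_flip (hg : 4 ≤ g) (e : Fin g → Fin 2) (n : Fin g → ℤ) :
    flip hg e (flip hg e n) = n := by
  ext i
  unfold flip
  split_ifs <;> ring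

/-- The flip as an equivalence. -/
def flipE (hg : 4 ≤ g) (e : Fin g → Fin 2) : (Fin g → ℤ) ≃ (Fin g → ℤ) :=
  ⟨flip hg e, flip hg e, flip_flip hg e, flip_flip hg e⟩

theorem mm_flip (hg : 4 ≤ g) (e : Fin g → Fin 2) (n : Fin g → ℤ) (i : Fin g) :
    mm e (flipE hg e n) i = if i = pt hg 0 ∨ i = pt hg 1 then -mm e n i else mm e n i := by
  change mm e (flip hg e n) i = _
  unfold mm flip
  split_ifs
  · push_cast; ring
  · rfl

theorem SS_flip (hg : 4 ≤ g) (e : Fin g → Fin 2) (n : Fin g → ℤ) :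
    SS e (flipE hg e n) = SS e n := by
  unfold SS
  refine Finset.sum_congr rfl fun i _ => ?_
  rw [mm_flip]
  split_ifs <;> ring

theorem mf0 (hg : 4 ≤ g) (e : Fin g → Fin 2) (n : Fin g → ℤ) :
    mm e (flipE hg e n) (pt hg 0) = -mm e n (pt hg 0) := by rw [mm_flip]; simp
theorem mf1 (hg : 4 ≤ g) (e : Fin g → Fin 2) (n : Fin g → ℤ) :
    mm e (flipE hg e n) (pt hg 1) = -mm e n (pt hg 1) := by rw [mm_flip]; simp
theorem mf2 (hg : 4 ≤ g) (e : Fin g → Fin 2) (n : Fin g → ℤ) :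
    mm e (flipE hg e n) (pt hg 2) = mm e n (pt hg 2) := by
  rw [mm_flip, if_neg]; simp only [pt_inj]; decide
theorem mf3 (hg : 4 ≤ g) (e : Fin g → Fin 2) (n : Fin g → ℤ) :
    mm e (flipE hg e n) (pt hg 3) = mm e n (pt hg 3) := by
  rw [mm_flip, if_neg]; simp only [pt_inj]; decide

theorem ww_flip (hg : 4 ≤ g) (κ : ℝ) (e : Fin g → Fin 2) (n : Fin g → ℤ) :
    ww hg κ e (flipE hg e n) = ww hg κ e n := by
  unfold ww
  rw [SS_flip, mf0, mf1, mf2, mf3, neg_mul_neg]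

theorem SS_nonneg (e : Fin g → Fin 2) (n : Fin g → ℤ) : 0 ≤ SS e n :=
  Finset.sum_nonneg fun _ _ => sq_nonneg _

theorem four_le (hg : 4 ≤ g) (e : Fin g → Fin 2) (n : Fin g → ℤ) :
    mm e n (pt hg 0) ^ 2 + mm e n (pt hg 1) ^ 2 + mm e n (pt hg 2) ^ 2 + mm e n (pt hg 3) ^ 2 ≤
      SS e n := by
  have h : ∑ k : Fin 4, mm e n (pt hg k) ^ 2 ≤ SS e n := by
    have : ∑ k : Fin 4, mm e n (pt hg k) ^ 2 =
        ∑ i ∈ Finset.univ.map ⟨pt hg, Fin.castLE_injective hg⟩, mm e n i ^ 2 := by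
      rw [Finset.sum_map]; rfl
    rw [this]
    exact Finset.sum_le_sum_of_subset_of_nonneg (Finset.subset_univ _)
      fun _ _ _ => sq_nonneg _
  rwa [Fin.sum_univ_four] at h

theorem SS_summable (e : Fin g → Fin 2) : Summable fun n => Real.exp (-SS e n) := by
  have h := summable_pi_prod g (fun i k => Real.exp (-((k : ℝ) + ((e i : ℕ) : ℝ) / 2) ^ 2))
    (fun i => summable_one _ (by positivity) (by
      have : ((e i : ℕ) : ℝ) ≤ 1 := by exact_mod_cast Nat.lt_succ_iff.1 (e i).2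
      linarith)) (fun i k => (Real.exp_pos _).le)
  refine h.congr fun n => ?_
  rw [← Real.exp_sum]
  unfold SS mm
  rw [Finset.sum_neg_distrib]

theorem pt_ne (hg : 4 ≤ g) {k l : Fin 4} (h : k ≠ l) : pt hg k ≠ pt hg l :=
  fun h' => h ((pt_inj hg).1 h')

theorem pert_RR_apply (hg : 4 ≤ g) (κ s u : ℝ) (a b c d k l : Fin 4) :
    pert (RR hg κ s u a b c d) (pt hg k) (pt hg l) = (if k = l then Complex.I else 0) +
      ((κ * ((if k = 0 then 1 else 0) * (if l = 1 then 1 else 0) +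
        (if k = 1 then 1 else 0) * (if l = 0 then 1 else 0)) +
      κ * ((if k = 2 then 1 else 0) * (if l = 3 then 1 else 0) +
        (if k = 3 then 1 else 0) * (if l = 2 then 1 else 0)) +
      s * ((if k = a then 1 else 0) * (if l = b then 1 else 0) +
        (if k = b then 1 else 0) * (if l = a then 1 else 0)) +
      u * ((if k = c then 1 else 0) * (if l = d then 1 else 0) +
        (if k = d then 1 else 0) * (if l = c then 1 else 0)) : ℝ) : ℂ) := by
  simp only [pert, RR, dr, pt_inj]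

/-- The function that is not a function of the theta constants. -/
def f0 (hg : 4 ≤ g) (σ : Mat g) : ℂ :=
  σ (pt hg 0) (pt hg 2) * σ (pt hg 1) (pt hg 3) - σ (pt hg 0) (pt hg 3) * σ (pt hg 1) (pt hg 2)

theorem f0_analytic (hg : 4 ≤ g) (τ : Mat g) : AnalyticAt ℂ (f0 hg) τ :=
  ((entry_analytic τ _ _).mul (entry_analytic τ _ _)).sub
    ((entry_analytic τ _ _).mul (entry_analytic τ _ _))

theorem f0_A (hg : 4 ≤ g) (κ s u : ℝ) : f0 hg (pert (RR hg κ s u 0 2 1 3)) = s * u := by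
  unfold f0
  simp only [pert_RR_apply]
  simp

theorem f0_B (hg : 4 ≤ g) (κ s u : ℝ) : f0 hg (pert (RR hg κ s u 0 3 1 2)) = -(s * u) := by
  unfold f0
  simp only [pert_RR_apply]
  simp

theorem curve_tendsto (hg : 4 ≤ g) (κ σ : ℝ) (a b c d : Fin 4) :
    Tendsto (fun s : ℝ => pert (RR hg κ s (σ * s) a b c d)) (𝓝[>] 0)
      (𝓝[siegel g] (pert (RR hg κ 0 0 a b c d))) := by
  refine tendsto_nhdsWithin_iff.2 ⟨?_, Eventually.of_forall fun s => pert_mem (RR_symm hg _ _ _ _ _ _ _)⟩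
  have hc : Continuous (fun s : ℝ => pert (RR hg κ s (σ * s) a b c d)) := by
    refine continuous_pi fun k => continuous_pi fun l => ?_
    unfold pert RR
    fun_prop
  have := hc.tendsto 0
  simp only [mul_zero] at this
  exact this.mono_left nhdsWithin_le_nhds

theorem RR_zero (hg : 4 ≤ g) (κ : ℝ) (a b c d a' b' c' d' : Fin 4) :
    RR hg κ 0 0 a b c d = RR hg κ 0 0 a' b' c' d' := by
  ext k l; unfold RR; ring

theorem abs_pair (x y z t σ : ℝ) (hσ : σ = 1 ∨ σ = -1) :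
    |x * y + σ * (z * t)| ≤ (x ^ 2 + y ^ 2 + z ^ 2 + t ^ 2) / 2 := by
  have h1 : |x * y| ≤ (x ^ 2 + y ^ 2) / 2 := by
    rw [abs_le]; constructor <;> nlinarith [sq_nonneg (x - y), sq_nonneg (x + y)]
  have h2 : |σ * (z * t)| ≤ (z ^ 2 + t ^ 2) / 2 := by
    have : |σ| = 1 := by rcases hσ with h | h <;> simp [h]
    rw [abs_mul, this, one_mul, abs_le]
    constructor <;> nlinarith [sq_nonneg (z - t), sq_nonneg (z + t)]
  exact (abs_add_le _ _).trans (by linarith)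

theorem hX (hg : 4 ≤ g) {a b c d : Fin 4} (ha : a = 0) (hc : c = 1)
    (hbd : b = 2 ∧ d = 3 ∨ b = 3 ∧ d = 2) (σ : ℝ) (hσ : σ = 1 ∨ σ = -1) (e : Fin g → Fin 2)
    (n : Fin g → ℤ) :
    |mm e n (pt hg a) * mm e n (pt hg b) + σ * (mm e n (pt hg c) * mm e n (pt hg d))| ≤
      SS e n / 2 := by
  have h4 := four_le hg e n
  refine (abs_pair _ _ _ _ σ hσ).trans ?_
  subst ha; subst hc
  rcases hbd with ⟨rfl, rfl⟩ | ⟨rfl, rfl⟩ <;> linarith

theorem hφ (hg : 4 ≤ g) {a b c d : Fin 4} (ha : a = 0) (hc : c = 1)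
    (hbd : b = 2 ∧ d = 3 ∨ b = 3 ∧ d = 2) (σ : ℝ) (e : Fin g → Fin 2) (n : Fin g → ℤ) :
    mm e (flipE hg e n) (pt hg a) * mm e (flipE hg e n) (pt hg b) +
      σ * (mm e (flipE hg e n) (pt hg c) * mm e (flipE hg e n) (pt hg d)) =
    -(mm e n (pt hg a) * mm e n (pt hg b) + σ * (mm e n (pt hg c) * mm e n (pt hg d))) := by
  subst ha; subst hc
  rcases hbd with ⟨rfl, rfl⟩ | ⟨rfl, rfl⟩ <;> rw [mf0, mf1, mf2, mf3] <;> ring

/-- The second order coefficient. -/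
noncomputable def cc (hg : 4 ≤ g) (κ : ℝ) (e : Fin g → Fin 2) : ℂ :=
  ∑' n, ww hg κ e n * ((4 * Real.pi * Complex.I) ^ 2 *
    (((mm e n (pt hg 0) * mm e n (pt hg 1) * mm e n (pt hg 2) * mm e n (pt hg 3) : ℝ) : ℂ) * 2))

theorem coef_eq (hg : 4 ≤ g) {a b c d : Fin 4} (ha : a = 0) (hc : c = 1)
    (hbd : b = 2 ∧ d = 3 ∨ b = 3 ∧ d = 2) (κ : ℝ) (e : Fin g → Fin 2) :
    ∑' n, ww hg κ e n * ((4 * Real.pi * Complex.I) ^ 2 *
      ((((mm e n (pt hg a) * mm e n (pt hg b) +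
        1 * (mm e n (pt hg c) * mm e n (pt hg d)) : ℝ)) : ℂ) ^ 2 -
      (((mm e n (pt hg a) * mm e n (pt hg b) +
        (-1) * (mm e n (pt hg c) * mm e n (pt hg d)) : ℝ)) : ℂ) ^ 2) / 2) = cc hg κ e := by
  unfold cc
  refine tsum_congr fun n => ?_
  congr 1
  have k : ∀ x y z t u : ℝ, ∀ q : ℂ, x * y * (z * t) = u →
      q * (((x * y + 1 * (z * t) : ℝ) : ℂ) ^ 2 - ((x * y + (-1) * (z * t) : ℝ) : ℂ) ^ 2) / 2 =
        q * ((u : ℂ) * 2) := by
    intro x y z t u q h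
    rw [← h]; push_cast; ring
  apply k
  subst ha; subst hc
  rcases hbd with ⟨rfl, rfl⟩ | ⟨rfl, rfl⟩ <;> ring

theorem curveE (hg : 4 ≤ g) {a b c d : Fin 4} (ha : a = 0) (hc : c = 1)
    (hbd : b = 2 ∧ d = 3 ∨ b = 3 ∧ d = 2) (κ : ℝ) (e : Fin g → Fin 2) :
    ∃ C : ℝ, ∀ s : ℝ, 0 ≤ s → s ≤ 1 / 8 →
      ‖Theta g (pert (RR hg κ s (1 * s) a b c d)) e -
        Theta g (pert (RR hg κ s (-1 * s) a b c d)) e - (s : ℂ) ^ 2 * cc hg κ e‖ ≤ C * s ^ 3 := by
  obtain ⟨C, hC⟩ := expand (w := ww hg κ e) (S := SS e) (flipE hg e)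
    (X := fun n => mm e n (pt hg a) * mm e n (pt hg b) +
      1 * (mm e n (pt hg c) * mm e n (pt hg d)))
    (Y := fun n => mm e n (pt hg a) * mm e n (pt hg b) +
      (-1) * (mm e n (pt hg c) * mm e n (pt hg d)))
    (ww_flip hg κ e) (hφ hg ha hc hbd 1 e) (hφ hg ha hc hbd (-1) e) (SS_nonneg e) (SS_summable e)
    (fun n => (ww_norm hg κ e n).le) (hX hg ha hc hbd 1 (Or.inl rfl) e)
    (hX hg ha hc hbd (-1) (Or.inr rfl) e)
  refine ⟨C, fun s hs0 hs => ?_⟩
  have := hC s hs0 hs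
  rw [coef_eq hg ha hc hbd κ e] at this
  rw [Theta_RR, Theta_RR]
  exact this

theorem curveA (hg : 4 ≤ g) {a b c d : Fin 4} (ha : a = 0) (hc : c = 1)
    (hbd : b = 2 ∧ d = 3 ∨ b = 3 ∧ d = 2) (κ : ℝ) :
    ∃ C : ℝ, ∀ᶠ s : ℝ in 𝓝[>] 0,
      ‖Theta g (pert (RR hg κ s (1 * s) a b c d)) - Theta g (pert (RR hg κ s (-1 * s) a b c d)) -
        ((s : ℂ) ^ 2) • cc hg κ‖ ≤ C * s ^ 3 := by
  choose C hC using curveE hg ha hc hbd κ
  refine ⟨∑ e, |C e|, ?_⟩
  have hpos : ∀ᶠ s : ℝ in 𝓝[>] 0, 0 < s := self_mem_nhdsWithin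
  have hsm : ∀ᶠ s : ℝ in 𝓝[>] 0, s < 1 / 8 :=
    (mem_nhdsWithin_of_mem_nhds (Iio_mem_nhds (by norm_num : (0 : ℝ) < 1 / 8)))
  filter_upwards [hpos, hsm] with s h1 h2
  have h3 : 0 ≤ ∑ e, |C e| := Finset.sum_nonneg fun _ _ => abs_nonneg _
  refine (pi_norm_le_iff_of_nonneg (by positivity)).2 fun e => ?_
  have := hC e s h1.le h2.le
  simp only [Pi.sub_apply, Pi.smul_apply, smul_eq_mul]
  refine this.trans ?_
  have h4 : C e ≤ ∑ e, |C e| := (le_abs_self _).trans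
    (Finset.single_le_sum (f := fun e => |C e|) (fun _ _ => abs_nonneg _) (Finset.mem_univ e))
  exact mul_le_mul_of_nonneg_right h4 (by positivity)

theorem curveT (hg : 4 ≤ g) {a b c d : Fin 4} (ha : a = 0) (hc : c = 1)
    (hbd : b = 2 ∧ d = 3 ∨ b = 3 ∧ d = 2) (κ : ℝ) (σ : ℝ) (hσ : σ = 1 ∨ σ = -1) :
    Tendsto (fun s : ℝ => Theta g (pert (RR hg κ s (σ * s) a b c d))) (𝓝[>] 0)
      (𝓝 (Theta g (pert (RR hg κ 0 0 0 2 1 3)))) := by
  rw [tendsto_pi_nhds]
  intro e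
  obtain ⟨C, hC⟩ := cont (w := ww hg κ e) (S := SS e) (SS_nonneg e) (SS_summable e)
      (fun n => (ww_norm hg κ e n).le) (X := fun n => mm e n (pt hg a) * mm e n (pt hg b) +
        σ * (mm e n (pt hg c) * mm e n (pt hg d))) (hX hg ha hc hbd σ hσ e)
  have e0 : Theta g (pert (RR hg κ 0 0 0 2 1 3)) e = ∑' n, ww hg κ e n := by
    have := Theta_RR hg κ 0 1 0 2 1 3 e
    rw [mul_zero] at this
    rw [this]
    exact tsum_congr fun n => by simp
  rw [e0, tendsto_iff_norm_sub_tendsto_zero]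
  have hpos : ∀ᶠ s : ℝ in 𝓝[>] 0, 0 < s := self_mem_nhdsWithin
  have hsm : ∀ᶠ s : ℝ in 𝓝[>] 0, s < 1 / 8 :=
    (mem_nhdsWithin_of_mem_nhds (Iio_mem_nhds (by norm_num : (0 : ℝ) < 1 / 8)))
  have hlim : Tendsto (fun s : ℝ => C * s) (𝓝[>] 0) (𝓝 0) := by
    have : Tendsto (fun s : ℝ => C * s) (𝓝 0) (𝓝 (C * 0)) := tendsto_id.const_mul C
    rw [mul_zero] at this
    exact this.mono_left nhdsWithin_le_nhds
  refine squeeze_zero' (Eventually.of_forall fun s => norm_nonneg _) ?_ hlim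
  filter_upwards [hpos, hsm] with s h1 h2
  rw [Theta_RR]
  exact hC s h1.le h2.le

theorem main (hg : 4 ≤ g) : ∃ τ₀ ∈ siegel g, ¬ LocalIsoAt g τ₀ := by
  have hgpos : (0 : ℝ) < g := by exact_mod_cast (by omega : 0 < g)
  set κ : ℝ := 1 / (40 * g) with hκ
  have hκ0 : 0 < κ := by positivity
  set τ₀ : Mat g := pert (RR hg κ 0 0 0 2 1 3) with hτ₀
  have hτ₀B : τ₀ = pert (RR hg κ 0 0 0 3 1 2) := by rw [hτ₀, RR_zero]
  have hmem : τ₀ ∈ siegel g := pert_mem (RR_symm hg _ _ _ _ _ _ _)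
  refine ⟨τ₀, hmem, fun hloc => ?_⟩
  set U : Set (Mat g) := Metric.ball τ₀ (κ / 2) ∩ siegel g with hU
  have ballent : ∀ σ ∈ Metric.ball τ₀ (κ / 2), ∀ i j, ‖σ i j - τ₀ i j‖ < κ / 2 := by
    intro σ hσ i j
    rw [Metric.mem_ball, dist_eq_norm] at hσ
    exact lt_of_le_of_lt ((norm_le_pi_norm ((σ - τ₀) i) j).trans (norm_le_pi_norm (σ - τ₀) i)) hσ
  have near : ∀ σ ∈ Metric.ball τ₀ (κ / 2), Near (2 * κ) σ := by
    intro σ hσ i j
    have h1 := ballent σ hσ i j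
    have h2 : ‖τ₀ i j - (if i = j then Complex.I else 0)‖ ≤ κ := by
      have e : τ₀ i j - (if i = j then Complex.I else 0) = ((RR hg κ 0 0 0 2 1 3 i j : ℝ) : ℂ) := by
        rw [hτ₀]; unfold pert; ring
      rw [e, Complex.norm_real, Real.norm_eq_abs]
      have hd : ∀ p q : Fin g, p ≠ q → ∀ k l, dr p q k l = 0 ∨ dr p q k l = 1 := by
        intro p q hpq k l
        unfold dr
        by_cases h1 : k = p <;> by_cases h2 : l = q <;> by_cases h3 : k = q <;>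
          by_cases h4 : l = p <;> simp_all
      have hx : ∀ k l : Fin g, dr (pt hg 0) (pt hg 1) k l = 1 → dr (pt hg 2) (pt hg 3) k l = 0 := by
        intro k l h
        have n02 := pt_ne hg (by decide : (0 : Fin 4) ≠ 2)
        have n03 := pt_ne hg (by decide : (0 : Fin 4) ≠ 3)
        have n12 := pt_ne hg (by decide : (1 : Fin 4) ≠ 2)
        have n13 := pt_ne hg (by decide : (1 : Fin 4) ≠ 3)
        unfold dr at h ⊢
        by_cases h1 : k = pt hg 0
        · subst h1; simp [n02, n03]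
        · by_cases h2 : k = pt hg 1
          · subst h2; simp [n12, n13]
          · simp [h1, h2] at h
      unfold RR
      simp only [zero_mul, add_zero]
      rcases hd _ _ (pt_ne hg (by decide : (0 : Fin 4) ≠ 1)) i j with h | h
      · rcases hd _ _ (pt_ne hg (by decide : (2 : Fin 4) ≠ 3)) i j with h' | h'
        · rw [h, h']; simp [hκ0.le]
        · rw [h, h']; simp [abs_of_pos hκ0]
      · rw [h, hx i j h]; simp [abs_of_pos hκ0]
    have : σ i j - (if i = j then Complex.I else 0) =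
        (σ i j - τ₀ i j) + (τ₀ i j - (if i = j then Complex.I else 0)) := by ring
    rw [this]
    exact lt_of_le_of_lt (norm_add_le _ _) (by linarith)
  have hgr : (g : ℝ) * (2 * κ) ≤ 1 / 20 := by
    rw [hκ]
    have : (g : ℝ) * (2 * (1 / (40 * g))) = 1 / 20 := by field_simp; norm_num
    exact this.le
  have hinv : ∀ γ ∈ Gam24 g, ∀ τ ∈ U, act γ τ ∈ U → f0 hg (act γ τ) = f0 hg τ := by
    intro γ hγ τ hτ hτ'
    obtain ⟨s, hs, hst⟩ := disc hgr γ hγ.1 hτ.2 (near τ hτ.1) (near _ hτ'.1)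
    have v01 : τ₀ (pt hg 0) (pt hg 1) = κ := by
      rw [hτ₀, pert_RR_apply]; simp
    have v23 : τ₀ (pt hg 2) (pt hg 3) = κ := by
      rw [hτ₀, pert_RR_apply]; simp
    have sgn : ∀ i j : Fin g, τ₀ i j = κ → s i * s j = 1 := by
      intro i j hij
      by_contra hne
      have hm : s i * s j = -1 := by
        rcases hs i with h1 | h1 <;> rcases hs j with h2 | h2 <;> simp_all
      have b1 := ballent τ hτ.1 i j
      have b2 := ballent _ hτ'.1 i j
      have hc : (s i : ℂ) * s j = -1 := by exact_mod_cast congrArg (Int.cast : ℤ → ℂ) hm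
      rw [hst i j, hc, hij] at b2
      rw [hij] at b1
      have : ((2 * κ : ℝ) : ℂ) = -((τ i j - κ) + (-1 * τ i j - κ)) := by push_cast; ring
      have n : ‖((2 * κ : ℝ) : ℂ)‖ < κ := by
        rw [this, norm_neg]
        exact lt_of_le_of_lt (norm_add_le _ _) (by linarith)
      rw [Complex.norm_real, Real.norm_eq_abs, abs_of_pos (by linarith)] at n
      linarith
    have s01 := sgn _ _ v01
    have s23 := sgn _ _ v23
    have c01 : (s (pt hg 0) : ℂ) * s (pt hg 1) = 1 := by exact_mod_cast congrArg (Int.cast : ℤ → ℂ) s01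
    have c23 : (s (pt hg 2) : ℂ) * s (pt hg 3) = 1 := by exact_mod_cast congrArg (Int.cast : ℤ → ℂ) s23
    unfold f0
    simp only [hst]
    have : ∀ x y z w p q r t : ℂ, x * y = 1 → z * w = 1 →
        x * z * p * (y * w * q) - x * w * r * (y * z * t) = p * q - r * t := by
      intro x y z w p q r t h1 h2
      linear_combination (z * w * p * q - z * w * r * t) * h1 + (p * q - r * t) * h2
    exact this _ _ _ _ _ _ _ _ c01 c23
  obtain ⟨W, f, hUW, hWs, hWo, hWi, hWa, hWf⟩ := glue ⟨_, Metric.isOpen_ball, hU⟩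
    (f0_analytic hg) hinv
  have hτU : τ₀ ∈ U := ⟨Metric.mem_ball_self (by positivity), hmem⟩
  obtain ⟨F, hF, hfF⟩ := hloc W f (hUW hτU) hWs hWo hWi hWa
  have hUn : U ∈ 𝓝[siegel g] τ₀ :=
    Filter.inter_mem (mem_nhdsWithin_of_mem_nhds (Metric.ball_mem_nhds τ₀ (by positivity)))
      self_mem_nhdsWithin
  have hfF0 : ∀ᶠ τ in 𝓝[siegel g] τ₀, f0 hg τ = F (Theta g τ) := by
    filter_upwards [hfF, hUn] with τ h1 h2
    rw [← hWf τ h2, h1]
  obtain ⟨CA, hA⟩ := curveA hg (a := 0) (b := 2) (c := 1) (d := 3) rfl rfl (Or.inl ⟨rfl, rfl⟩) κ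
  obtain ⟨CB, hB⟩ := curveA hg (a := 0) (b := 3) (c := 1) (d := 2) rfl rfl (Or.inr ⟨rfl, rfl⟩) κ
  have tA := curveT hg (a := 0) (b := 2) (c := 1) (d := 3) rfl rfl (Or.inl ⟨rfl, rfl⟩) κ
  have tB := curveT hg (a := 0) (b := 3) (c := 1) (d := 2) rfl rfl (Or.inr ⟨rfl, rfl⟩) κ
  have hst := hF.hasStrictFDerivAt
  have kA := key hst (tA 1 (Or.inl rfl)) (tA (-1) (Or.inr rfl)) hA (a := 2) (by
    have e1 := (curve_tendsto hg κ 1 0 2 1 3).eventually hfF0
    have e2 := (curve_tendsto hg κ (-1) 0 2 1 3).eventually hfF0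
    filter_upwards [e1, e2] with s h1 h2
    rw [← h1, ← h2, f0_A, f0_A]
    push_cast; ring)
  have kB := key hst (tB 1 (Or.inl rfl)) (tB (-1) (Or.inr rfl)) hB (a := -2) (by
    have hfF0' := hfF0
    rw [hτ₀B] at hfF0'
    have e1 := (curve_tendsto hg κ 1 0 3 1 2).eventually hfF0'
    have e2 := (curve_tendsto hg κ (-1) 0 3 1 2).eventually hfF0'
    filter_upwards [e1, e2] with s h1 h2
    rw [← h1, ← h2, f0_B, f0_B]
    push_cast; ring)
  rw [kA] at kB
  norm_num at kB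

end H121R3
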