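import Pool.Agent.H121R3.Zero

/-!
# The maximum principle for the product pseudo-metric
-/

namespace H121R3

open Topology Filter Complex

noncomputable section

variable {ι τ : Type*}

/-- The product pseudo-metric. -/
def UU (J : Finset ι) (p q : ι → ℂ → ℂ) (S : ι → Finset τ) (pt : ι → τ → ℂ × ℂ)
    (w : ι → τ → ℝ) (α lam : ι → ℝ) (z : ℂ) : ℝ :=
  ∏ i ∈ J, uu (p i) (q i) (S i) (pt i) (w i) (α i) z ^ lam i

variable {J : Finset ι} {p q : ι → ℂ → ℂ} {S : ι → Finset τ} {pt : ι → τ → ℂ × ℂ}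
  {w : ι → τ → ℝ} {α lam : ι → ℝ}

theorem UU_nonneg (z : ℂ) : 0 ≤ UU J p q S pt w α lam z :=
  Finset.prod_nonneg fun _ _ => Real.rpow_nonneg (uu_nonneg _ _ _ _ _) _

theorem UU_cont (hp : ∀ i ∈ J, Differentiable ℂ (p i)) (hq : ∀ i ∈ J, Differentiable ℂ (q i))
    (h : ∀ i ∈ J, ∀ z, p i z ≠ 0 ∨ q i z ≠ 0)
    (hS : ∀ i ∈ J, ∀ a ∈ S i, ‖(pt i a).1‖ ^ 2 + ‖(pt i a).2‖ ^ 2 = 1)
    (hne : ∀ i ∈ J, ∀ a ∈ S i, ∀ b ∈ S i, a ≠ b →
      (pt i a).1 * (pt i b).2 - (pt i a).2 * (pt i b).1 ≠ 0)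
    (hw0 : ∀ i ∈ J, ∀ a ∈ S i, 0 < w i a)
    (hα : ∀ i ∈ J, 0 < α i) (hlam : ∀ i ∈ J, 0 < lam i)
    (hfin : ∀ i ∈ J, ∀ a ∈ S i, ∀ z, analyticOrderAt (ell (p i) (q i) (pt i a)) z ≠ ⊤)
    (hjoint : ∀ z₀, (∃ i ∈ J, ∃ a ∈ S i, ell (p i) (q i) (pt i a) z₀ = 0) →
      0 < ∑ i ∈ J, lam i * mu (p i) (q i) (S i) (pt i) (w i) z₀) :
    Continuous (UU J p q S pt w α lam) := by
  rw [continuous_iff_continuousAt]
  intro z₀
  by_cases hz : ∃ i ∈ J, ∃ a ∈ S i, ell (p i) (q i) (pt i a) z₀ = 0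
  · have hs := hjoint z₀ hz
    obtain ⟨i, hi, a, ha, hza⟩ := hz
    rw [continuousAt_iff_punctured_nhds]
    have h0 : UU J p q S pt w α lam z₀ = 0 := by
      unfold UU
      refine Finset.prod_eq_zero hi ?_
      rw [uu_zero (hw0 i hi) ha hza, Real.zero_rpow (hlam i hi).ne']
    rw [h0]
    have hloc : ∀ i ∈ J, ∃ H : ℂ → ℝ, ContinuousAt H z₀ ∧ (∀ᶠ z in 𝓝[≠] z₀, 0 ≤ H z) ∧
        ∀ᶠ z in 𝓝[≠] z₀, uu (p i) (q i) (S i) (pt i) (w i) (α i) z =
          ‖z - z₀‖ ^ (mu (p i) (q i) (S i) (pt i) (w i) z₀) * H z := fun i hi =>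
      uu_loc (hp i hi) (hq i hi) (h i hi) (hS i hi) (hne i hi) (hα i hi) z₀
        fun a ha => hfin i hi a ha z₀
    choose! H hH1 hH2 hH3 using hloc
    have e : ∀ᶠ z in 𝓝[≠] z₀, ‖z - z₀‖ ^ (∑ i ∈ J, lam i *
        mu (p i) (q i) (S i) (pt i) (w i) z₀) * ∏ i ∈ J, H i z ^ lam i =
        UU J p q S pt w α lam z := by
      have a1 : ∀ᶠ z in 𝓝[≠] z₀, ∀ i ∈ J, 0 ≤ H i z := (Finset.eventually_all J).2 hH2
      have a2 : ∀ᶠ z in 𝓝[≠] z₀, ∀ i ∈ J, uu (p i) (q i) (S i) (pt i) (w i) (α i) z =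
          ‖z - z₀‖ ^ (mu (p i) (q i) (S i) (pt i) (w i) z₀) * H i z :=
        (Finset.eventually_all J).2 hH3
      have a3 : ∀ᶠ z in 𝓝[≠] z₀, z ≠ z₀ := self_mem_nhdsWithin
      filter_upwards [a1, a2, a3] with z b1 b2 b3
      have hr : 0 < ‖z - z₀‖ := norm_pos_iff.2 (sub_ne_zero.2 b3)
      unfold UU
      rw [Real.rpow_sum_of_pos hr, ← Finset.prod_mul_distrib]
      refine Finset.prod_congr rfl fun i hi => ?_
      rw [b2 i hi, Real.mul_rpow (Real.rpow_nonneg hr.le _) (b1 i hi), ← Real.rpow_mul hr.le,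
        mul_comm (lam i)]
    refine Tendsto.congr' e ?_
    have t1 : Tendsto (fun z => ‖z - z₀‖ ^ (∑ i ∈ J, lam i *
        mu (p i) (q i) (S i) (pt i) (w i) z₀)) (𝓝 z₀) (𝓝 0) := by
      have : ContinuousAt (fun z => ‖z - z₀‖ ^ (∑ i ∈ J, lam i *
        mu (p i) (q i) (S i) (pt i) (w i) z₀)) z₀ := by
        have c : ContinuousAt (fun z => ‖z - z₀‖) z₀ := by fun_prop
        exact c.rpow_const (Or.inr hs.le)
      have t := this.tendsto
      simp only [sub_self, norm_zero] at t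
      rwa [Real.zero_rpow hs.ne'] at t
    have t2 : Tendsto (fun z => ∏ i ∈ J, H i z ^ lam i) (𝓝 z₀) (𝓝 (∏ i ∈ J, H i z₀ ^ lam i)) :=
      tendsto_finsetProd J fun i hi => ((hH1 i hi).rpow_const (Or.inr (hlam i hi).le)).tendsto
    have t3 := (t1.mul t2).mono_left (nhdsWithin_le_nhds (s := {z₀}ᶜ))
    rwa [zero_mul] at t3
  · push Not at hz
    exact tendsto_finsetProd J fun i hi =>
      ((uu_cont (hp i hi) (hq i hi) (h i hi) (hα i hi) (hz i hi)).rpow_const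
        (Or.inr (hlam i hi).le)).tendsto

theorem lap_ball (z₁ ζ : ℂ) {R : ℝ} (hR : 0 < R ^ 2 - ‖ζ - z₁‖ ^ 2) :
    ∃ g₁ g₂, HasLap (fun z => Real.log (R ^ 2 - ‖z - z₁‖ ^ 2)) ζ g₁ g₂
      (-(4 * R ^ 2 / (R ^ 2 - ‖ζ - z₁‖ ^ 2) ^ 2)) := by
  have hF : Differentiable ℂ (fun z : ℂ => z - z₁) := differentiable_id.sub_const z₁
  have h1 := lap_normSq hF ζ
  have hd : deriv (fun z : ℂ => z - z₁) ζ = 1 := by
    rw [deriv_sub_const]; simp
  rw [hd, mul_one, norm_one] at h1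
  have h2 := (HasLap.const (R ^ 2) ζ).add (h1.const_mul (-1))
  have h3 : HasLap (fun z => R ^ 2 - ‖z - z₁‖ ^ 2) ζ
      (-(2 * ((starRingEnd ℂ) (ζ - z₁)).re)) (-(2 * ((starRingEnd ℂ) (ζ - z₁) * I).re)) (-4) :=
    (h2.congr (Eventually.of_forall fun z => by ring)).vals (by ring) (by ring) (by ring)
  have h4 := lap_log h3 hR
  refine ⟨_, _, h4.vals rfl rfl ?_⟩
  have e := re_sq_add ((starRingEnd ℂ) (ζ - z₁))
  rw [Complex.norm_conj] at e
  have e' : (-(2 * ((starRingEnd ℂ) (ζ - z₁)).re)) ^ 2 +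
      (-(2 * ((starRingEnd ℂ) (ζ - z₁) * I).re)) ^ 2 = 4 * ‖ζ - z₁‖ ^ 2 := by
    rw [← e]; ring
  rw [e']
  field_simp
  ring

/-- Ahlfors–Schwarz on the whole plane. -/
theorem maxp (hJ : J.Nonempty) (hlam : ∀ i ∈ J, 0 < lam i)
    (hp : ∀ i ∈ J, Differentiable ℂ (p i)) (hq : ∀ i ∈ J, Differentiable ℂ (q i))
    (h : ∀ i ∈ J, ∀ z, p i z ≠ 0 ∨ q i z ≠ 0)
    (hα : ∀ i ∈ J, 0 < α i)
    (hw0 : ∀ i ∈ J, ∀ a ∈ S i, 0 < w i a)
    {c : ℝ} (hc : 0 < c)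
    (hcurv : ∀ i ∈ J, ∀ z, (∀ a ∈ S i, ell (p i) (q i) (pt i a) z ≠ 0) → WW (p i) (q i) z ≠ 0 →
      ∃ g₁ g₂ Λ, HasLap (fun x => Real.log (uu (p i) (q i) (S i) (pt i) (w i) (α i) x)) z g₁ g₂ Λ ∧
        c * uu (p i) (q i) (S i) (pt i) (w i) (α i) z ^ 2 ≤ Λ)
    (hcont : Continuous (UU J p q S pt w α lam)) (z₁ : ℂ) :
    UU J p q S pt w α lam z₁ = 0 := by
  set U := UU J p q S pt w α lam with hU
  by_contra hne0
  have hU0 : ∀ z, 0 ≤ U z := UU_nonneg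
  have hpos : 0 < U z₁ := lt_of_le_of_ne (hU0 z₁) (Ne.symm hne0)
  set L := ∑ i ∈ J, lam i with hL
  have hL0 : 0 < L := Finset.sum_pos hlam hJ
  obtain ⟨l₀, hl₀, hl₀'⟩ : ∃ l : ℝ, 0 < l ∧ ∀ i ∈ J, l ≤ lam i := by
    obtain ⟨a, ha, hmin⟩ := J.exists_min_image lam hJ
    exact ⟨lam a, hlam a ha, fun b hb => hmin b hb⟩
  set M := Real.sqrt (4 * L / (l₀ * c)) with hM
  have hM0 : 0 ≤ M := Real.sqrt_nonneg _
  have hM2 : M ^ 2 = 4 * L / (l₀ * c) := Real.sq_sqrt (by positivity)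
  have key : ∀ R : ℝ, 0 < R → U z₁ ≤ (M / R) ^ L := by
    intro R hR
    set Ψ : ℂ → ℝ := fun z => U z * (R ^ 2 - ‖z - z₁‖ ^ 2) ^ L with hΨ
    have hΨc : Continuous Ψ := by
      refine hcont.mul ?_
      have : Continuous fun z : ℂ => R ^ 2 - ‖z - z₁‖ ^ 2 := by fun_prop
      exact this.rpow_const fun z => Or.inr hL0.le
    obtain ⟨ζ, hζ, hmax⟩ := (isCompact_closedBall z₁ R).exists_isMaxOn
      ⟨z₁, Metric.mem_closedBall_self hR.le⟩ hΨc.continuousOn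
    have hmax' : ∀ z, ‖z - z₁‖ ≤ R → Ψ z ≤ Ψ ζ := fun z hz =>
      hmax (by rw [Metric.mem_closedBall, dist_eq_norm]; exact hz)
    have h1 : Ψ z₁ ≤ Ψ ζ := hmax' z₁ (by simpa using hR.le)
    have h1' : Ψ z₁ = U z₁ * (R ^ 2) ^ L := by simp [hΨ]
    have h2 : 0 < Ψ z₁ := by rw [h1']; positivity
    have h3 : 0 < Ψ ζ := lt_of_lt_of_le h2 h1
    have hζR : ‖ζ - z₁‖ ≤ R := by
      rw [Metric.mem_closedBall, dist_eq_norm] at hζ; exact hζ
    have hlt : ‖ζ - z₁‖ < R := by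
      rcases lt_or_eq_of_le hζR with h | h
      · exact h
      · exfalso
        have : Ψ ζ = 0 := by simp only [hΨ, h, sub_self, Real.zero_rpow hL0.ne', mul_zero]
        linarith
    have hφ : 0 < R ^ 2 - ‖ζ - z₁‖ ^ 2 := by nlinarith [norm_nonneg (ζ - z₁)]
    have hUζ : U ζ ≠ 0 := by
      intro h0
      have : Ψ ζ = 0 := by simp only [hΨ, h0, zero_mul]
      linarith
    have hui : ∀ i ∈ J, uu (p i) (q i) (S i) (pt i) (w i) (α i) ζ ≠ 0 := by
      intro i hi h0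
      apply hUζ
      rw [hU]; unfold UU
      refine Finset.prod_eq_zero hi ?_
      rw [h0, Real.zero_rpow (hlam i hi).ne']
    have hell : ∀ i ∈ J, ∀ a ∈ S i, ell (p i) (q i) (pt i a) ζ ≠ 0 := fun i hi a ha h0 =>
      hui i hi (uu_zero (hw0 i hi) ha h0)
    have hWW : ∀ i ∈ J, WW (p i) (q i) ζ ≠ 0 := by
      intro i hi h0
      apply hui i hi
      unfold uu
      rw [h0]; simp
    have hupos : ∀ i ∈ J, 0 < uu (p i) (q i) (S i) (pt i) (w i) (α i) ζ := fun i hi =>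
      lt_of_le_of_ne (uu_nonneg _ _ _ _ _) (hui i hi).symm
    have hLap : ∀ i ∈ J, ∃ g₁ g₂ Λ, HasLap (fun x =>
        Real.log (uu (p i) (q i) (S i) (pt i) (w i) (α i) x)) ζ g₁ g₂ Λ ∧
        c * uu (p i) (q i) (S i) (pt i) (w i) (α i) ζ ^ 2 ≤ Λ := fun i hi =>
      hcurv i hi ζ (hell i hi) (hWW i hi)
    choose! G₁ G₂ Lm hLm hLm' using hLap
    obtain ⟨b₁, b₂, hB⟩ := lap_ball z₁ ζ hφ
    have htot := (HasLap.sum J fun i hi => (hLm i hi).const_mul (lam i)).add (hB.const_mul L)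
    have hlm : IsLocalMax (fun x => ∑ i ∈ J, lam i *
        Real.log (uu (p i) (q i) (S i) (pt i) (w i) (α i) x) +
        L * Real.log (R ^ 2 - ‖x - z₁‖ ^ 2)) ζ := by
      have e1 : ∀ x, (∀ i ∈ J, 0 < uu (p i) (q i) (S i) (pt i) (w i) (α i) x) →
          0 < R ^ 2 - ‖x - z₁‖ ^ 2 → Real.log (Ψ x) = ∑ i ∈ J, lam i *
          Real.log (uu (p i) (q i) (S i) (pt i) (w i) (α i) x) +
          L * Real.log (R ^ 2 - ‖x - z₁‖ ^ 2) := by
        intro x hx hx'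
        simp only [hΨ, hU]
        unfold UU
        rw [Real.log_mul (Finset.prod_ne_zero_iff.2 fun i hi =>
          (Real.rpow_pos_of_pos (hx i hi) _).ne') (Real.rpow_pos_of_pos hx' _).ne',
          Real.log_prod (fun i hi => (Real.rpow_pos_of_pos (hx i hi) _).ne'), Real.log_rpow hx']
        congr 1
        exact Finset.sum_congr rfl fun i hi => Real.log_rpow (hx i hi) _
      have a1 : ∀ᶠ x in 𝓝 ζ, ∀ i ∈ J, 0 < uu (p i) (q i) (S i) (pt i) (w i) (α i) x :=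
        (Finset.eventually_all J).2 fun i hi =>
          (uu_cont (hp i hi) (hq i hi) (h i hi) (hα i hi) (hell i hi)).eventually
            (lt_mem_nhds (hupos i hi))
      have a2 : ∀ᶠ x in 𝓝 ζ, 0 < R ^ 2 - ‖x - z₁‖ ^ 2 := by
        have : Continuous fun z : ℂ => R ^ 2 - ‖z - z₁‖ ^ 2 := by fun_prop
        exact this.continuousAt.eventually (lt_mem_nhds hφ)
      filter_upwards [a1, a2] with x b1 b2
      rw [← e1 x b1 b2, ← e1 ζ hupos hφ]
      have hxR : ‖x - z₁‖ ≤ R := by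
        by_contra hh
        push Not at hh
        nlinarith
      have hxp : 0 < Ψ x := by
        simp only [hΨ, hU]
        unfold UU
        exact mul_pos (Finset.prod_pos fun i hi => Real.rpow_pos_of_pos (b1 i hi) _)
          (Real.rpow_pos_of_pos b2 _)
      exact Real.log_le_log hxp (hmax' x hxR)
    have hnp := htot.nonpos hlm
    set φ := R ^ 2 - ‖ζ - z₁‖ ^ 2 with hφdef
    have hbound : ∀ i ∈ J, uu (p i) (q i) (S i) (pt i) (w i) (α i) ζ ≤ M * R / φ := by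
      intro i hi
      have s1 : lam i * (c * uu (p i) (q i) (S i) (pt i) (w i) (α i) ζ ^ 2) ≤
          ∑ j ∈ J, lam j * Lm j := by
        refine le_trans (mul_le_mul_of_nonneg_left (hLm' i hi) (hlam i hi).le) ?_
        refine Finset.single_le_sum (f := fun j => lam j * Lm j) (fun j hj => ?_) hi
        have := hLm' j hj
        have h5 : 0 ≤ Lm j := le_trans (by positivity) this
        exact mul_nonneg (hlam j hj).le h5
      have s2 : ∑ j ∈ J, lam j * Lm j ≤ L * (4 * R ^ 2 / φ ^ 2) := by linarith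
      have s3 : l₀ * c * uu (p i) (q i) (S i) (pt i) (w i) (α i) ζ ^ 2 ≤
          L * (4 * R ^ 2 / φ ^ 2) := by
        refine le_trans ?_ (s1.trans s2)
        rw [mul_assoc]
        exact mul_le_mul_of_nonneg_right (hl₀' i hi) (by positivity)
      have s4 : uu (p i) (q i) (S i) (pt i) (w i) (α i) ζ ^ 2 ≤ (M * R / φ) ^ 2 := by
        rw [div_pow, mul_pow, hM2]
        have : uu (p i) (q i) (S i) (pt i) (w i) (α i) ζ ^ 2 ≤
            L * (4 * R ^ 2 / φ ^ 2) / (l₀ * c) := by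
          rw [le_div_iff₀ (by positivity)]
          linarith
        refine this.trans (le_of_eq ?_)
        field_simp
      exact le_of_sq_le_sq s4 (by positivity) |> fun h => h
    have hUb : U ζ ≤ (M * R / φ) ^ L := by
      rw [hL, Real.rpow_sum_of_nonneg (by positivity) fun i hi => (hlam i hi).le]
      rw [hU]; unfold UU
      exact Finset.prod_le_prod (fun i _ => Real.rpow_nonneg (uu_nonneg _ _ _ _ _) _)
        fun i hi => Real.rpow_le_rpow (uu_nonneg _ _ _ _ _) (hbound i hi) (hlam i hi).le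
    have hfin : U z₁ * (R ^ 2) ^ L ≤ (M * R) ^ L := by
      rw [← h1']
      refine h1.trans ?_
      have : Ψ ζ ≤ (M * R / φ) ^ L * φ ^ L :=
        mul_le_mul_of_nonneg_right hUb (Real.rpow_nonneg hφ.le _)
      refine this.trans (le_of_eq ?_)
      rw [← Real.mul_rpow (by positivity) hφ.le, div_mul_cancel₀ _ hφ.ne']
    have e5 : (M / R) ^ L = (M * R) ^ L / (R ^ 2) ^ L := by
      rw [← Real.div_rpow (by positivity) (by positivity)]
      congr 1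
      field_simp
    rw [e5, le_div_iff₀ (by positivity)]
    exact hfin
  have ht : Tendsto (fun R : ℝ => (M / R) ^ L) atTop (𝓝 0) := by
    have t1 : Tendsto (fun R : ℝ => M / R) atTop (𝓝 0) := tendsto_const_nhds.div_atTop tendsto_id
    have t2 := t1.rpow_const (p := L) (Or.inr hL0.le)
    rwa [Real.zero_rpow hL0.ne'] at t2
  have := ge_of_tendsto ht (by
    filter_upwards [eventually_gt_atTop 0] with R hR using key R hR)
  linarith

end

end H121R3
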