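import Mathlib

/-!
# Siegel upper half space, the symplectic action and the group `Γ_g(2,4)`
-/

namespace H121R3

open Matrix

/-- Complex `g × g` matrices, as a normed space. -/
abbrev Mat (g : ℕ) := Fin g → Fin g → ℂ

/-- The Siegel upper half space: complex symmetric matrices with positive definite imaginary
part. -/
def siegel (g : ℕ) : Set (Mat g) :=
  {τ | (∀ i j, τ i j = τ j i) ∧
    ∀ x : Fin g → ℝ, x ≠ 0 → 0 < ∑ i, ∑ j, x i * (τ i j).im * x j}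

/-- The block `a` of a symplectic matrix, with complex entries. -/
def bA {g : ℕ} (γ : symplecticGroup (Fin g) ℤ) : Matrix (Fin g) (Fin g) ℂ :=
  (γ.1.toBlocks₁₁).map (Int.cast : ℤ → ℂ)

/-- The block `b` of a symplectic matrix, with complex entries. -/
def bB {g : ℕ} (γ : symplecticGroup (Fin g) ℤ) : Matrix (Fin g) (Fin g) ℂ :=
  (γ.1.toBlocks₁₂).map (Int.cast : ℤ → ℂ)

/-- The block `c` of a symplectic matrix, with complex entries. -/
def bC {g : ℕ} (γ : symplecticGroup (Fin g) ℤ) : Matrix (Fin g) (Fin g) ℂ :=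
  (γ.1.toBlocks₂₁).map (Int.cast : ℤ → ℂ)

/-- The block `d` of a symplectic matrix, with complex entries. -/
def bD {g : ℕ} (γ : symplecticGroup (Fin g) ℤ) : Matrix (Fin g) (Fin g) ℂ :=
  (γ.1.toBlocks₂₂).map (Int.cast : ℤ → ℂ)

/-- The action `τ ↦ (a τ + b) (c τ + d)⁻¹` of `Sp(2g, ℤ)`. -/
noncomputable def act {g : ℕ} (γ : symplecticGroup (Fin g) ℤ) (τ : Mat g) : Mat g :=
  Matrix.of.symm ((bA γ * Matrix.of τ + bB γ) * (bC γ * Matrix.of τ + bD γ)⁻¹)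

variable {g : ℕ}

theorem fourBlocks (γ : symplecticGroup (Fin g) ℤ) :
    fromBlocks (γ.1.toBlocks₁₁) (γ.1.toBlocks₁₂) (γ.1.toBlocks₂₁) (γ.1.toBlocks₂₂) = γ.1 :=
  fromBlocks_toBlocks _

theorem relsZ (γ : symplecticGroup (Fin g) ℤ) :
    (γ.1.toBlocks₁₁)ᵀ * γ.1.toBlocks₂₁ = (γ.1.toBlocks₂₁)ᵀ * γ.1.toBlocks₁₁ ∧
    (γ.1.toBlocks₁₂)ᵀ * γ.1.toBlocks₂₂ = (γ.1.toBlocks₂₂)ᵀ * γ.1.toBlocks₁₂ ∧
    (γ.1.toBlocks₁₁)ᵀ * γ.1.toBlocks₂₂ - (γ.1.toBlocks₂₁)ᵀ * γ.1.toBlocks₁₂ = 1 ∧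
    (γ.1.toBlocks₂₂)ᵀ * γ.1.toBlocks₁₁ - (γ.1.toBlocks₁₂)ᵀ * γ.1.toBlocks₂₁ = 1 := by
  have h := SymplecticGroup.mem_iff'.1 γ.2
  rw [← fourBlocks γ, J, fromBlocks_transpose, fromBlocks_multiply, fromBlocks_multiply,
    fromBlocks_inj] at h
  obtain ⟨h1, h2, h3, h4⟩ := h
  simp only [Matrix.mul_zero, Matrix.mul_one, Matrix.mul_neg, zero_add, add_zero, Matrix.neg_mul,
    toBlocks_fromBlocks₁₁, toBlocks_fromBlocks₁₂, toBlocks_fromBlocks₂₁,
    toBlocks_fromBlocks₂₂] at h1 h2 h3 h4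
  refine ⟨?_, ?_, ?_, ?_⟩
  · exact (add_neg_eq_zero.1 h1).symm
  · exact (add_neg_eq_zero.1 h4).symm
  · have := congrArg Neg.neg h2
    rw [neg_neg] at this
    rw [← this]; abel_nf
  · rw [← h3]; abel_nf

theorem mapT (M : Matrix (Fin g) (Fin g) ℤ) :
    (Mᵀ).map (Int.cast : ℤ → ℂ) = (M.map (Int.cast : ℤ → ℂ))ᵀ := rfl

theorem mapMul (M N : Matrix (Fin g) (Fin g) ℤ) :
    (M * N).map (Int.cast : ℤ → ℂ) = M.map (Int.cast : ℤ → ℂ) * N.map (Int.cast : ℤ → ℂ) :=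
  Matrix.map_mul (f := Int.castRingHom ℂ)

theorem mapSub (M N : Matrix (Fin g) (Fin g) ℤ) :
    (M - N).map (Int.cast : ℤ → ℂ) = M.map (Int.cast : ℤ → ℂ) - N.map (Int.cast : ℤ → ℂ) := by
  ext i j; simp

theorem mapAdd (M N : Matrix (Fin g) (Fin g) ℤ) :
    (M + N).map (Int.cast : ℤ → ℂ) = M.map (Int.cast : ℤ → ℂ) + N.map (Int.cast : ℤ → ℂ) := by
  ext i j; simp

theorem mapOne : (1 : Matrix (Fin g) (Fin g) ℤ).map (Int.cast : ℤ → ℂ) = 1 := by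
  ext i j; by_cases h : i = j <;> simp [h, Matrix.one_apply]

theorem rels (γ : symplecticGroup (Fin g) ℤ) :
    (bA γ)ᵀ * bC γ = (bC γ)ᵀ * bA γ ∧ (bB γ)ᵀ * bD γ = (bD γ)ᵀ * bB γ ∧
    (bA γ)ᵀ * bD γ - (bC γ)ᵀ * bB γ = 1 ∧ (bD γ)ᵀ * bA γ - (bB γ)ᵀ * bC γ = 1 := by
  obtain ⟨h1, h2, h3, h4⟩ := relsZ γ
  unfold bA bB bC bD
  refine ⟨?_, ?_, ?_, ?_⟩
  · have := congrArg (fun M => M.map (Int.cast : ℤ → ℂ)) h1
    simpa only [mapMul, mapT] using this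
  · have := congrArg (fun M => M.map (Int.cast : ℤ → ℂ)) h2
    simpa only [mapMul, mapT] using this
  · have := congrArg (fun M => M.map (Int.cast : ℤ → ℂ)) h3
    simpa only [mapMul, mapT, mapSub, mapOne] using this
  · have := congrArg (fun M => M.map (Int.cast : ℤ → ℂ)) h4
    simpa only [mapMul, mapT, mapSub, mapOne] using this

theorem conjT_map (M : Matrix (Fin g) (Fin g) ℤ) :
    (M.map (Int.cast : ℤ → ℂ))ᴴ = (M.map (Int.cast : ℤ → ℂ))ᵀ := by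
  ext i j; simp [conjTranspose_apply, transpose_apply]

/-- `Q^* P - P^* Q = τ - τ^*` for `P = aτ+b`, `Q = cτ+d`. -/
theorem herm (γ : symplecticGroup (Fin g) ℤ) (T : Matrix (Fin g) (Fin g) ℂ) :
    (bC γ * T + bD γ)ᴴ * (bA γ * T + bB γ) - (bA γ * T + bB γ)ᴴ * (bC γ * T + bD γ) = T - Tᴴ := by
  obtain ⟨h1, h2, h3, h4⟩ := rels γ
  have e1 : (bA γ)ᴴ = (bA γ)ᵀ := conjT_map _
  have e2 : (bB γ)ᴴ = (bB γ)ᵀ := conjT_map _
  have e3 : (bC γ)ᴴ = (bC γ)ᵀ := conjT_map _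
  have e4 : (bD γ)ᴴ = (bD γ)ᵀ := conjT_map _
  rw [conjTranspose_add, conjTranspose_add, conjTranspose_mul, conjTranspose_mul, e1, e2, e3, e4]
  have : (Tᴴ * (bC γ)ᵀ + (bD γ)ᵀ) * (bA γ * T + bB γ) -
      (Tᴴ * (bA γ)ᵀ + (bB γ)ᵀ) * (bC γ * T + bD γ)
      = Tᴴ * ((bC γ)ᵀ * bA γ - (bA γ)ᵀ * bC γ) * T
        - Tᴴ * ((bA γ)ᵀ * bD γ - (bC γ)ᵀ * bB γ)
        + ((bD γ)ᵀ * bA γ - (bB γ)ᵀ * bC γ) * T
        + ((bD γ)ᵀ * bB γ - (bB γ)ᵀ * bD γ) := by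
    noncomm_ring
  rw [this, h1, h2, h3, h4]
  simp
  abel

/-- `Q^T P - P^T Q = 0` for symmetric `τ`. -/
theorem symm_rel (γ : symplecticGroup (Fin g) ℤ) (T : Matrix (Fin g) (Fin g) ℂ) (hT : Tᵀ = T) :
    (bC γ * T + bD γ)ᵀ * (bA γ * T + bB γ) = (bA γ * T + bB γ)ᵀ * (bC γ * T + bD γ) := by
  obtain ⟨h1, h2, h3, h4⟩ := rels γ
  rw [transpose_add, transpose_add, transpose_mul, transpose_mul, hT, ← sub_eq_zero]
  have : (T * (bC γ)ᵀ + (bD γ)ᵀ) * (bA γ * T + bB γ) -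
      (T * (bA γ)ᵀ + (bB γ)ᵀ) * (bC γ * T + bD γ)
      = T * ((bC γ)ᵀ * bA γ - (bA γ)ᵀ * bC γ) * T
        - T * ((bA γ)ᵀ * bD γ - (bC γ)ᵀ * bB γ)
        + ((bD γ)ᵀ * bA γ - (bB γ)ᵀ * bC γ) * T
        + ((bD γ)ᵀ * bB γ - (bB γ)ᵀ * bD γ) := by
    noncomm_ring
  rw [this, h1, h2, h3, h4]
  simp

/-- The quadratic form of the imaginary part at a complex vector. -/
theorem quad_split (Y : Fin g → Fin g → ℝ) (hY : ∀ i j, Y i j = Y j i) (v : Fin g → ℂ) :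
    (∑ i, ∑ j, (starRingEnd ℂ (v i)) * (Y i j : ℂ) * v j) =
      ((∑ i, ∑ j, (v i).re * Y i j * (v j).re) + (∑ i, ∑ j, (v i).im * Y i j * (v j).im) : ℝ) := by
  have hre : ∀ i j, ((starRingEnd ℂ (v i)) * (Y i j : ℂ) * v j).re =
      (v i).re * Y i j * (v j).re + (v i).im * Y i j * (v j).im := by
    intro i j; simp
  have him : ∀ i j, ((starRingEnd ℂ (v i)) * (Y i j : ℂ) * v j).im =
      (v i).re * Y i j * (v j).im - (v i).im * Y i j * (v j).re := by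
    intro i j; simp; ring
  apply Complex.ext
  · rw [Complex.ofReal_re]
    simp only [Complex.re_sum, hre, Finset.sum_add_distrib]
  · rw [Complex.ofReal_im]
    simp only [Complex.im_sum, him, Finset.sum_sub_distrib]
    rw [sub_eq_zero, Finset.sum_comm]
    refine Finset.sum_congr rfl fun i _ => Finset.sum_congr rfl fun j _ => ?_
    rw [hY]; ring

theorem quad_pos {τ : Mat g} (hτ : τ ∈ siegel g) {v : Fin g → ℂ} (hv : v ≠ 0) :
    0 < (∑ i, ∑ j, (v i).re * (τ i j).im * (v j).re) +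
      (∑ i, ∑ j, (v i).im * (τ i j).im * (v j).im) := by
  have nn : ∀ x : Fin g → ℝ, 0 ≤ ∑ i, ∑ j, x i * (τ i j).im * x j := by
    intro x
    by_cases hx : x = 0
    · simp [hx]
    · exact (hτ.2 x hx).le
  by_cases h1 : (fun i => (v i).re) = 0
  · have h2 : (fun i => (v i).im) ≠ 0 := by
      intro h2
      apply hv
      ext i
      exact Complex.ext (congrFun h1 i) (congrFun h2 i)
    have := hτ.2 _ h2
    have := nn fun i => (v i).re
    linarith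
  · have := hτ.2 _ h1
    have := nn fun i => (v i).im
    linarith

theorem tsub (τ : Mat g) (hτ : ∀ i j, τ i j = τ j i) (v : Fin g → ℂ) :
    star v ⬝ᵥ ((Matrix.of τ - (Matrix.of τ)ᴴ) *ᵥ v) =
      2 * Complex.I * (∑ i, ∑ j, (starRingEnd ℂ (v i)) * ((τ i j).im : ℂ) * v j) := by
  have e : ∀ i j, (Matrix.of τ - (Matrix.of τ)ᴴ) i j = 2 * Complex.I * ((τ i j).im : ℂ) := by
    intro i j
    simp only [Matrix.sub_apply, conjTranspose_apply, of_apply]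
    rw [hτ j i]
    have := Complex.sub_conj (τ i j)
    simp only [Complex.star_def]
    rw [this]; push_cast; ring
  simp only [dotProduct, mulVec, e, Pi.star_apply, Complex.star_def, Finset.mul_sum]
  refine Finset.sum_congr rfl fun i _ => Finset.sum_congr rfl fun j _ => ?_
  ring

theorem quad_id (γ : symplecticGroup (Fin g) ℤ) (T : Matrix (Fin g) (Fin g) ℂ) (v : Fin g → ℂ) :
    star ((bC γ * T + bD γ) *ᵥ v) ⬝ᵥ ((bA γ * T + bB γ) *ᵥ v) -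
      star ((bA γ * T + bB γ) *ᵥ v) ⬝ᵥ ((bC γ * T + bD γ) *ᵥ v) = star v ⬝ᵥ ((T - Tᴴ) *ᵥ v) := by
  rw [← herm γ T, sub_mulVec, dotProduct_sub, ← mulVec_mulVec, ← mulVec_mulVec,
    dotProduct_mulVec (star v), dotProduct_mulVec (star v), ← star_mulVec, ← star_mulVec]

theorem denom_inj (γ : symplecticGroup (Fin g) ℤ) {τ : Mat g} (hτ : τ ∈ siegel g)
    {v : Fin g → ℂ} (hv : (bC γ * Matrix.of τ + bD γ) *ᵥ v = 0) : v = 0 := by
  by_contra hne
  have h := quad_id γ (Matrix.of τ) v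
  rw [hv, tsub τ hτ.1, quad_split _ (fun i j => by rw [hτ.1]) v] at h
  simp only [star_zero, zero_dotProduct, dotProduct_zero, sub_zero] at h
  have hp := quad_pos hτ hne
  have h' := h.symm
  simp only [mul_eq_zero, Complex.I_ne_zero, OfNat.ofNat_ne_zero, or_self, false_or] at h'
  exact hp.ne' (by exact_mod_cast h')

theorem denom_unit (γ : symplecticGroup (Fin g) ℤ) {τ : Mat g} (hτ : τ ∈ siegel g) :
    IsUnit (bC γ * Matrix.of τ + bD γ).det := by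
  rw [isUnit_iff_ne_zero]
  intro h
  obtain ⟨v, hv0, hv⟩ := Matrix.exists_mulVec_eq_zero_iff.2 h
  exact hv0 (denom_inj γ hτ hv)

theorem act_mul_denom (γ : symplecticGroup (Fin g) ℤ) {τ : Mat g} (hτ : τ ∈ siegel g) :
    Matrix.of (act γ τ) * (bC γ * Matrix.of τ + bD γ) = bA γ * Matrix.of τ + bB γ := by
  unfold act
  rw [Equiv.apply_symm_apply, Matrix.mul_assoc, Matrix.nonsing_inv_mul _ (denom_unit γ hτ),
    Matrix.mul_one]

/-- `Q^* (τ' - τ'^*) Q = τ - τ^*`. -/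
theorem act_herm (γ : symplecticGroup (Fin g) ℤ) {τ : Mat g} (hτ : τ ∈ siegel g) :
    (bC γ * Matrix.of τ + bD γ)ᴴ * (Matrix.of (act γ τ) - (Matrix.of (act γ τ))ᴴ) *
      (bC γ * Matrix.of τ + bD γ) = Matrix.of τ - (Matrix.of τ)ᴴ := by
  rw [← herm γ (Matrix.of τ), Matrix.mul_sub, Matrix.sub_mul, Matrix.mul_assoc,
    act_mul_denom γ hτ]
  congr 1
  rw [← conjTranspose_mul, act_mul_denom γ hτ]

theorem act_symm (γ : symplecticGroup (Fin g) ℤ) {τ : Mat g} (hτ : τ ∈ siegel g) (i j : Fin g) :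
    act γ τ i j = act γ τ j i := by
  have hT : (Matrix.of τ)ᵀ = Matrix.of τ := by
    ext i j; simp only [transpose_apply, of_apply]; exact hτ.1 j i
  have h := symm_rel γ (Matrix.of τ) hT
  set Q := bC γ * Matrix.of τ + bD γ with hQ
  have hu : IsUnit Q.det := denom_unit γ hτ
  rw [← act_mul_denom γ hτ, transpose_mul] at h
  have h' : Qᵀ * (Matrix.of (act γ τ) - (Matrix.of (act γ τ))ᵀ) * Q = 0 := by
    rw [Matrix.mul_sub, Matrix.sub_mul, sub_eq_zero, Matrix.mul_assoc]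
    exact h
  have huT : IsUnit (Qᵀ).det := by rwa [det_transpose]
  have h2 : (Matrix.of (act γ τ) - (Matrix.of (act γ τ))ᵀ) = 0 := by
    have := congrArg (fun M => (Qᵀ)⁻¹ * M * Q⁻¹) h'
    simp only [Matrix.mul_zero, Matrix.zero_mul] at this
    rw [← Matrix.mul_assoc, ← Matrix.mul_assoc, Matrix.nonsing_inv_mul _ huT, Matrix.one_mul,
      Matrix.mul_assoc, Matrix.mul_nonsing_inv _ hu, Matrix.mul_one] at this
    exact this
  have h3 := congrFun (congrFun h2 i) j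
  simp only [Matrix.sub_apply, transpose_apply, of_apply, Matrix.zero_apply] at h3
  exact sub_eq_zero.1 h3

theorem act_mem (γ : symplecticGroup (Fin g) ℤ) {τ : Mat g} (hτ : τ ∈ siegel g) :
    act γ τ ∈ siegel g := by
  refine ⟨act_symm γ hτ, fun x hx => ?_⟩
  set Q := bC γ * Matrix.of τ + bD γ with hQ
  have hu : IsUnit Q.det := denom_unit γ hτ
  set v : Fin g → ℂ := Q⁻¹ *ᵥ (fun i => (x i : ℂ)) with hv
  have hQv : Q *ᵥ v = fun i => (x i : ℂ) := by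
    rw [hv, mulVec_mulVec, Matrix.mul_nonsing_inv _ hu, one_mulVec]
  have hv0 : v ≠ 0 := by
    intro h0
    apply hx
    rw [h0, mulVec_zero] at hQv
    ext i
    have := congrFun hQv i
    simpa using this.symm
  have h1 : star (Q *ᵥ v) ⬝ᵥ ((Matrix.of (act γ τ) - (Matrix.of (act γ τ))ᴴ) *ᵥ (Q *ᵥ v)) =
      star v ⬝ᵥ ((Matrix.of τ - (Matrix.of τ)ᴴ) *ᵥ v) := by
    rw [← act_herm γ hτ, ← mulVec_mulVec, ← mulVec_mulVec, dotProduct_mulVec (star v),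
      ← star_mulVec]
  rw [tsub _ (act_symm γ hτ), tsub _ hτ.1, quad_split _ (fun i j => by rw [act_symm γ hτ]),
    quad_split _ (fun i j => by rw [hτ.1]), hQv] at h1
  have h2 := mul_left_cancel₀ (by simp) h1
  have h3 := Complex.ofReal_injective h2
  simp only [Complex.ofReal_re, Complex.ofReal_im, zero_mul, mul_zero, Finset.sum_const_zero,
    add_zero] at h3
  rw [h3]
  exact quad_pos hτ hv0

theorem blocks_mul (γ δ : symplecticGroup (Fin g) ℤ) :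
    bA (γ * δ) = bA γ * bA δ + bB γ * bC δ ∧ bB (γ * δ) = bA γ * bB δ + bB γ * bD δ ∧
    bC (γ * δ) = bC γ * bA δ + bD γ * bC δ ∧ bD (γ * δ) = bC γ * bB δ + bD γ * bD δ := by
  have h : (γ * δ).1 = γ.1 * δ.1 := rfl
  have h2 := fromBlocks_multiply (γ.1.toBlocks₁₁) (γ.1.toBlocks₁₂) (γ.1.toBlocks₂₁)
    (γ.1.toBlocks₂₂) (δ.1.toBlocks₁₁) (δ.1.toBlocks₁₂) (δ.1.toBlocks₂₁) (δ.1.toBlocks₂₂)
  rw [fourBlocks, fourBlocks] at h2
  unfold bA bB bC bD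
  rw [h, h2]
  simp only [toBlocks_fromBlocks₁₁, toBlocks_fromBlocks₁₂, toBlocks_fromBlocks₂₁,
    toBlocks_fromBlocks₂₂, mapAdd, mapMul, and_self]

theorem act_mul (γ δ : symplecticGroup (Fin g) ℤ) {τ : Mat g} (hτ : τ ∈ siegel g) :
    act (γ * δ) τ = act γ (act δ τ) := by
  obtain ⟨h1, h2, h3, h4⟩ := blocks_mul γ δ
  have hu := denom_unit δ hτ
  have hu2 := denom_unit γ (act_mem δ hτ)
  have hu3 := denom_unit (γ * δ) hτ
  set T := Matrix.of τ with hT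
  set P := bA δ * T + bB δ with hP
  set Q := bC δ * T + bD δ with hQ
  have hPQ : Matrix.of (act δ τ) * Q = P := act_mul_denom δ hτ
  have e1 : bA (γ * δ) * T + bB (γ * δ) = (bA γ * Matrix.of (act δ τ) + bB γ) * Q := by
    have : (bA γ * Matrix.of (act δ τ) + bB γ) * Q = bA γ * P + bB γ * Q := by
      rw [Matrix.add_mul, Matrix.mul_assoc, hPQ]
    rw [this, h1, h2, hP, hQ]
    noncomm_ring
  have e2 : bC (γ * δ) * T + bD (γ * δ) = (bC γ * Matrix.of (act δ τ) + bD γ) * Q := by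
    have : (bC γ * Matrix.of (act δ τ) + bD γ) * Q = bC γ * P + bD γ * Q := by
      rw [Matrix.add_mul, Matrix.mul_assoc, hPQ]
    rw [this, h3, h4, hP, hQ]
    noncomm_ring
  have key : Matrix.of (act (γ * δ) τ) = Matrix.of (act γ (act δ τ)) := by
    have k1 := act_mul_denom (γ * δ) hτ
    rw [← hT, e1] at k1
    have k2 := act_mul_denom γ (act_mem δ hτ)
    rw [← k2, Matrix.mul_assoc, ← e2] at k1
    have := congrArg (fun M => M * (bC (γ * δ) * T + bD (γ * δ))⁻¹) k1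
    simpa only [Matrix.mul_assoc, Matrix.mul_nonsing_inv _ hu3, Matrix.mul_one] using this
  exact Matrix.of.injective key

theorem act_one (τ : Mat g) : act (1 : symplecticGroup (Fin g) ℤ) τ = τ := by
  have h : (1 : symplecticGroup (Fin g) ℤ).1 = fromBlocks 1 0 0 1 := by
    rw [fromBlocks_one]; rfl
  have h0 : (0 : Matrix (Fin g) (Fin g) ℤ).map (Int.cast : ℤ → ℂ) = 0 := by ext; simp
  unfold act bA bB bC bD
  rw [h]
  simp only [toBlocks_fromBlocks₁₁, toBlocks_fromBlocks₁₂, toBlocks_fromBlocks₂₁,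
    toBlocks_fromBlocks₂₂, mapOne, h0]
  simp

/-- The theta level two subgroup `Γ_g(2,4)` of `Sp(2g, ℤ)`. -/
def Gam24 (g : ℕ) : Set (symplecticGroup (Fin g) ℤ) :=
  {γ | (∀ i j, (2 : ℤ) ∣ γ.1 i j - (1 : Matrix (Fin g ⊕ Fin g) (Fin g ⊕ Fin g) ℤ) i j) ∧
    ∀ i, (4 : ℤ) ∣ (γ.1.toBlocks₁₁ * (γ.1.toBlocks₁₂)ᵀ) i i ∧
      (4 : ℤ) ∣ (γ.1.toBlocks₂₁ * (γ.1.toBlocks₂₂)ᵀ) i i}

end H121R3
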