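import Pool.Agent.H121R3.Lap

/-!
# A negatively curved pseudo-metric on the projective line with fractional poles
-/

namespace H121R3

open Topology Filter Complex

noncomputable section

/-- Squared norm of `(p, q)`. -/
def NN (p q : ℂ → ℂ) (z : ℂ) : ℝ := ‖p z‖ ^ 2 + ‖q z‖ ^ 2

/-- The linear form vanishing at the point `a` of the projective line, along `(p, q)`. -/
def ell (p q : ℂ → ℂ) (a : ℂ × ℂ) (z : ℂ) : ℂ := a.2 * p z - a.1 * q z

/-- The Wronskian. -/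
def WW (p q : ℂ → ℂ) (z : ℂ) : ℂ := deriv p z * q z - p z * deriv q z

/-- Squared chordal distance to `a`. -/
def sg (p q : ℂ → ℂ) (a : ℂ × ℂ) (z : ℂ) : ℝ := ‖ell p q a z‖ ^ 2 / NN p q z

/-- The pseudo-metric. -/
def uu {τ : Type*} (p q : ℂ → ℂ) (S : Finset τ) (pt : τ → ℂ × ℂ) (w : τ → ℝ) (α : ℝ) (z : ℂ) : ℝ :=
  ‖WW p q z‖ / NN p q z *
    ∏ a ∈ S, ((1 + sg p q (pt a) z ^ α) * sg p q (pt a) z ^ (-(w a) / 2))

variable {p q : ℂ → ℂ}

theorem deriv_diff {F : ℂ → ℂ} (hF : Differentiable ℂ F) : Differentiable ℂ (deriv F) := fun x =>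
  ((hF.differentiableOn (s := Set.univ)).deriv isOpen_univ).differentiableAt
    (isOpen_univ.mem_nhds (Set.mem_univ x))

theorem ell_diff (hp : Differentiable ℂ p) (hq : Differentiable ℂ q) (a : ℂ × ℂ) :
    Differentiable ℂ (ell p q a) := (hp.const_mul _).sub (hq.const_mul _)

theorem WW_diff (hp : Differentiable ℂ p) (hq : Differentiable ℂ q) :
    Differentiable ℂ (WW p q) := ((deriv_diff hp).mul hq).sub (hp.mul (deriv_diff hq))

theorem ell_deriv (hp : Differentiable ℂ p) (hq : Differentiable ℂ q) (a : ℂ × ℂ) (z : ℂ) :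
    deriv (ell p q a) z = a.2 * deriv p z - a.1 * deriv q z := by
  unfold ell
  rw [deriv_fun_sub ((hp z).const_mul _) ((hq z).const_mul _), deriv_const_mul _ (hp z),
    deriv_const_mul _ (hq z)]

theorem NN_pos (h : ∀ z, p z ≠ 0 ∨ q z ≠ 0) (z : ℂ) : 0 < NN p q z := by
  unfold NN
  rcases h z with h | h
  · have : 0 < ‖p z‖ := norm_pos_iff.2 h
    positivity
  · have : 0 < ‖q z‖ := norm_pos_iff.2 h
    positivity

/-- Lagrange identity. -/
theorem lagr (a b c d : ℂ) :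
    (‖c‖ ^ 2 + ‖d‖ ^ 2) * (‖a‖ ^ 2 + ‖b‖ ^ 2) -
      ‖(starRingEnd ℂ) a * c + (starRingEnd ℂ) b * d‖ ^ 2 = ‖c * b - a * d‖ ^ 2 := by
  simp only [← Complex.normSq_eq_norm_sq, Complex.normSq_apply, Complex.mul_re, Complex.mul_im,
    Complex.add_re, Complex.add_im, Complex.sub_re, Complex.sub_im, Complex.conj_re,
    Complex.conj_im]
  ring

theorem re_sq_add (s : ℂ) : (2 * s.re) ^ 2 + (2 * (s * I).re) ^ 2 = 4 * ‖s‖ ^ 2 := by
  rw [← Complex.normSq_eq_norm_sq, Complex.normSq_apply]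
  simp; ring

theorem lap_logN (hp : Differentiable ℂ p) (hq : Differentiable ℂ q)
    (h : ∀ z, p z ≠ 0 ∨ q z ≠ 0) (z : ℂ) :
    HasLap (fun x => Real.log (NN p q x)) z
      (2 * ((starRingEnd ℂ) (p z) * deriv p z + (starRingEnd ℂ) (q z) * deriv q z).re / NN p q z)
      (2 * (((starRingEnd ℂ) (p z) * deriv p z + (starRingEnd ℂ) (q z) * deriv q z) * I).re /
        NN p q z)
      (4 * ‖WW p q z‖ ^ 2 / NN p q z ^ 2) := by
  have h1 := (lap_normSq hp z).add (lap_normSq hq z)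
  have hN := NN_pos h z
  have h2 := lap_log h1 (by exact hN)
  have hN' : NN p q z ≠ 0 := hN.ne'
  have e1 : 2 * ((starRingEnd ℂ) (p z) * deriv p z).re + 2 * ((starRingEnd ℂ) (q z) * deriv q z).re
      = 2 * ((starRingEnd ℂ) (p z) * deriv p z + (starRingEnd ℂ) (q z) * deriv q z).re := by
    rw [Complex.add_re]; ring
  have e2 : 2 * ((starRingEnd ℂ) (p z) * deriv p z * I).re +
      2 * ((starRingEnd ℂ) (q z) * deriv q z * I).re
      = 2 * (((starRingEnd ℂ) (p z) * deriv p z + (starRingEnd ℂ) (q z) * deriv q z) * I).re := by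
    rw [add_mul, Complex.add_re]; ring
  have e3 : ‖p z‖ ^ 2 + ‖q z‖ ^ 2 = NN p q z := rfl
  rw [e1, e2, re_sq_add, e3] at h2
  refine HasLap.vals h2 rfl rfl ?_
  have l := lagr (p z) (q z) (deriv p z) (deriv q z)
  unfold WW
  rw [← l, e3]
  field_simp

theorem lap_lognormSq {F : ℂ → ℂ} (hF : Differentiable ℂ F) (z : ℂ) (h0 : F z ≠ 0) :
    HasLap (fun x => Real.log (‖F x‖ ^ 2)) z
      (2 * ((starRingEnd ℂ) (F z) * deriv F z).re / ‖F z‖ ^ 2)
      (2 * ((starRingEnd ℂ) (F z) * deriv F z * I).re / ‖F z‖ ^ 2) 0 := by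
  have hp : 0 < ‖F z‖ := norm_pos_iff.2 h0
  have h2 := lap_log (lap_normSq hF z) (by positivity)
  convert h2 using 1
  rw [re_sq_add, norm_mul, Complex.norm_conj]
  field_simp
  ring

/-- The key identity for the gradient of the logarithmic chordal distance. -/
theorem grad_id {P Q P' Q' : ℂ} {a : ℂ × ℂ} (ha : ‖a.1‖ ^ 2 + ‖a.2‖ ^ 2 = 1)
    (hl : a.2 * P - a.1 * Q ≠ 0) (hN : 0 < ‖P‖ ^ 2 + ‖Q‖ ^ 2) :
    ‖(starRingEnd ℂ) (a.2 * P - a.1 * Q) * (a.2 * P' - a.1 * Q') /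
        ((‖a.2 * P - a.1 * Q‖ ^ 2 : ℝ) : ℂ) -
      ((starRingEnd ℂ) P * P' + (starRingEnd ℂ) Q * Q') / ((‖P‖ ^ 2 + ‖Q‖ ^ 2 : ℝ) : ℂ)‖ ^ 2 =
    (‖P‖ ^ 2 + ‖Q‖ ^ 2 - ‖a.2 * P - a.1 * Q‖ ^ 2) * ‖P' * Q - P * Q'‖ ^ 2 /
      (‖a.2 * P - a.1 * Q‖ ^ 2 * (‖P‖ ^ 2 + ‖Q‖ ^ 2) ^ 2) := by
  set l := a.2 * P - a.1 * Q with hldef
  set N : ℝ := ‖P‖ ^ 2 + ‖Q‖ ^ 2 with hNdef
  have hl2 : ((‖l‖ ^ 2 : ℝ) : ℂ) = (starRingEnd ℂ) l * l := by
    rw [← Complex.normSq_eq_norm_sq, Complex.normSq_eq_conj_mul_self]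
  have hN2 : ((N : ℝ) : ℂ) = (starRingEnd ℂ) P * P + (starRingEnd ℂ) Q * Q := by
    rw [hNdef]; push_cast
    rw [← Complex.ofReal_pow, ← Complex.ofReal_pow, ← Complex.normSq_eq_norm_sq,
      ← Complex.normSq_eq_norm_sq, Complex.normSq_eq_conj_mul_self,
      Complex.normSq_eq_conj_mul_self]
  have hN0 : ((N : ℝ) : ℂ) ≠ 0 := by exact_mod_cast hN.ne'
  have hcl : (starRingEnd ℂ) l ≠ 0 := by simpa using hl
  have e1 : (starRingEnd ℂ) l * (a.2 * P' - a.1 * Q') / ((‖l‖ ^ 2 : ℝ) : ℂ) -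
      ((starRingEnd ℂ) P * P' + (starRingEnd ℂ) Q * Q') / ((N : ℝ) : ℂ) =
      (a.1 * (starRingEnd ℂ) P + a.2 * (starRingEnd ℂ) Q) * (P' * Q - P * Q') / (l * N) := by
    rw [hl2]
    field_simp
    rw [hN2, hldef]
    ring
  rw [e1, norm_div, norm_mul, norm_mul, div_pow, mul_pow, mul_pow, Complex.norm_real,
    Real.norm_eq_abs, sq_abs]
  congr 1
  congr 1
  have e2 : ‖a.1 * (starRingEnd ℂ) P + a.2 * (starRingEnd ℂ) Q‖ ^ 2 + ‖l‖ ^ 2 =
      (‖a.1‖ ^ 2 + ‖a.2‖ ^ 2) * N := by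
    rw [hldef, hNdef]
    simp only [← Complex.normSq_eq_norm_sq, Complex.normSq_apply, Complex.mul_re, Complex.mul_im,
      Complex.add_re, Complex.add_im, Complex.sub_re, Complex.sub_im, Complex.conj_re,
      Complex.conj_im]
    ring
  rw [ha, one_mul] at e2
  linarith

/-- `y_a = log |ell_a|² - log N`. -/
theorem lap_y (hp : Differentiable ℂ p) (hq : Differentiable ℂ q)
    (h : ∀ z, p z ≠ 0 ∨ q z ≠ 0) {a : ℂ × ℂ} (ha : ‖a.1‖ ^ 2 + ‖a.2‖ ^ 2 = 1) (z : ℂ)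
    (hl : ell p q a z ≠ 0) :
    ∃ g₁ g₂ : ℝ, HasLap (fun x => Real.log (‖ell p q a x‖ ^ 2) - Real.log (NN p q x)) z g₁ g₂
      (-(4 * ‖WW p q z‖ ^ 2 / NN p q z ^ 2)) ∧
      g₁ ^ 2 + g₂ ^ 2 = 4 * ((1 - sg p q a z) / sg p q a z * (‖WW p q z‖ ^ 2 / NN p q z ^ 2)) := by
  have h1 := (lap_lognormSq (ell_diff hp hq a) z hl).add ((lap_logN hp hq h z).const_mul (-1))
  have hN := NN_pos h z
  have hlp : 0 < ‖ell p q a z‖ := norm_pos_iff.2 hl
  have h1' : HasLap (fun x => Real.log (‖ell p q a x‖ ^ 2) - Real.log (NN p q x)) z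
      (2 * ((starRingEnd ℂ) (ell p q a z) * deriv (ell p q a) z).re / ‖ell p q a z‖ ^ 2 +
        -1 * (2 * ((starRingEnd ℂ) (p z) * deriv p z + (starRingEnd ℂ) (q z) * deriv q z).re /
          NN p q z))
      (2 * ((starRingEnd ℂ) (ell p q a z) * deriv (ell p q a) z * I).re /
        ‖ell p q a z‖ ^ 2 +
        -1 * (2 * (((starRingEnd ℂ) (p z) * deriv p z + (starRingEnd ℂ) (q z) * deriv q z) * I).re /
          NN p q z)) (-(4 * ‖WW p q z‖ ^ 2 / NN p q z ^ 2)) :=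
    (h1.congr (Eventually.of_forall fun x => by ring)).vals rfl rfl (by ring)
  refine ⟨_, _, h1', ?_⟩
  · have g := grad_id (P := p z) (Q := q z) (P' := deriv p z) (Q' := deriv q z) ha hl hN
    set δ : ℂ := (starRingEnd ℂ) (a.2 * p z - a.1 * q z) * (a.2 * deriv p z - a.1 * deriv q z) /
        ((‖a.2 * p z - a.1 * q z‖ ^ 2 : ℝ) : ℂ) -
      ((starRingEnd ℂ) (p z) * deriv p z + (starRingEnd ℂ) (q z) * deriv q z) /
        ((‖p z‖ ^ 2 + ‖q z‖ ^ 2 : ℝ) : ℂ) with hδ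
    have e1 : 2 * ((starRingEnd ℂ) (ell p q a z) * deriv (ell p q a) z).re / ‖ell p q a z‖ ^ 2 +
        -1 * (2 * ((starRingEnd ℂ) (p z) * deriv p z + (starRingEnd ℂ) (q z) * deriv q z).re /
          NN p q z) = 2 * δ.re := by
      rw [ell_deriv hp hq, hδ, Complex.sub_re, Complex.div_ofReal_re, Complex.div_ofReal_re]
      unfold ell NN
      ring
    have e2 : 2 * ((starRingEnd ℂ) (ell p q a z) * deriv (ell p q a) z * I).re /
        ‖ell p q a z‖ ^ 2 +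
        -1 * (2 * (((starRingEnd ℂ) (p z) * deriv p z + (starRingEnd ℂ) (q z) * deriv q z) * I).re /
          NN p q z) = 2 * (δ * I).re := by
      rw [ell_deriv hp hq, hδ, sub_mul, div_mul_eq_mul_div, div_mul_eq_mul_div, Complex.sub_re,
        Complex.div_ofReal_re, Complex.div_ofReal_re]
      unfold ell NN
      ring
    rw [e1, e2, re_sq_add, g]
    have e3 : NN p q z = ‖p z‖ ^ 2 + ‖q z‖ ^ 2 := rfl
    have e4 : ell p q a z = a.2 * p z - a.1 * q z := rfl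
    have e5 : WW p q z = deriv p z * q z - p z * deriv q z := rfl
    unfold sg
    rw [← e3, ← e4, ← e5]
    have hN' := hN.ne'
    field_simp

/-- Laplacian of `log (1 + exp (α y))`. -/
theorem lap_L {φ : ℂ → ℝ} {z : ℂ} {A₁ A₂ Λ : ℝ} (h : HasLap φ z A₁ A₂ Λ) (α : ℝ) :
    ∃ g₁ g₂, HasLap (fun x => Real.log (1 + Real.exp (α * φ x))) z g₁ g₂
      (Real.exp (α * φ z) / (1 + Real.exp (α * φ z)) ^ 2 * (α ^ 2 * (A₁ ^ 2 + A₂ ^ 2)) +
        Real.exp (α * φ z) / (1 + Real.exp (α * φ z)) * (α * Λ)) := by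
  have h1 := h.const_mul α
  have hL : ∀ x : ℝ, HasDerivAt (fun x => Real.log (1 + Real.exp x))
      (Real.exp x / (1 + Real.exp x)) x := by
    intro x
    have h2 : HasDerivAt (fun x => 1 + Real.exp x) (Real.exp x) x :=
      (Real.hasDerivAt_exp x).const_add 1
    exact h2.log (by positivity)
  have hL' : ∀ x : ℝ, HasDerivAt (fun x => Real.exp x / (1 + Real.exp x))
      (Real.exp x / (1 + Real.exp x) ^ 2) x := by
    intro x
    have h2 : HasDerivAt (fun x => 1 + Real.exp x) (Real.exp x) x :=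
      (Real.hasDerivAt_exp x).const_add 1
    refine ((Real.hasDerivAt_exp x).div h2 (by positivity)).congr_deriv ?_
    have : (1 + Real.exp x) ≠ 0 := by positivity
    field_simp
    ring
  have h2 := h1.comp (Eventually.of_forall hL) (hL' _)
  exact ⟨_, _, h2.vals rfl rfl (by ring)⟩

/-- The logarithm of the metric. -/
theorem lap_u (hp : Differentiable ℂ p) (hq : Differentiable ℂ q)
    (h : ∀ z, p z ≠ 0 ∨ q z ≠ 0) {τ : Type*} {S : Finset τ}
    {pt : τ → ℂ × ℂ} (hS : ∀ a ∈ S, ‖(pt a).1‖ ^ 2 + ‖(pt a).2‖ ^ 2 = 1) (w : τ → ℝ) (α : ℝ) (z : ℂ)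
    (hl : ∀ a ∈ S, ell p q (pt a) z ≠ 0) (hW : WW p q z ≠ 0) :
    ∃ g₁ g₂, HasLap (fun x => Real.log (uu p q S pt w α x)) z g₁ g₂
      (‖WW p q z‖ ^ 2 / NN p q z ^ 2 * (-4 + ∑ a ∈ S,
        (4 * α ^ 2 * (sg p q (pt a) z ^ α / (1 + sg p q (pt a) z ^ α) ^ 2) *
          ((1 - sg p q (pt a) z) / sg p q (pt a) z)
          - 4 * α * (sg p q (pt a) z ^ α / (1 + sg p q (pt a) z ^ α)) + 2 * w a))) := by
  have hN := NN_pos h z
  have sgpos : ∀ x, ∀ a, ell p q (pt a) x ≠ 0 → 0 < sg p q (pt a) x := by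
    intro x a hx
    have := NN_pos h x
    have : 0 < ‖ell p q (pt a) x‖ := norm_pos_iff.2 hx
    unfold sg; positivity
  have ey : ∀ x a, ell p q (pt a) x ≠ 0 →
      Real.exp (α * (Real.log (‖ell p q (pt a) x‖ ^ 2) - Real.log (NN p q x))) = sg p q (pt a) x ^ α := by
    intro x a hx
    have h1 := NN_pos h x
    have h2 : 0 < ‖ell p q (pt a) x‖ := norm_pos_iff.2 hx
    rw [← Real.log_div (by positivity) h1.ne', Real.rpow_def_of_pos (sgpos x a hx)]
    unfold sg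
    rw [mul_comm]
  -- Laplacian of each term
  have hterm : ∀ a ∈ S, ∃ g₁ g₂, HasLap (fun x =>
      Real.log (1 + Real.exp (α * (Real.log (‖ell p q (pt a) x‖ ^ 2) - Real.log (NN p q x)))) +
      (-(w a) / 2) * (Real.log (‖ell p q (pt a) x‖ ^ 2) - Real.log (NN p q x))) z g₁ g₂
      (‖WW p q z‖ ^ 2 / NN p q z ^ 2 *
        (4 * α ^ 2 * (sg p q (pt a) z ^ α / (1 + sg p q (pt a) z ^ α) ^ 2) *
          ((1 - sg p q (pt a) z) / sg p q (pt a) z)
          - 4 * α * (sg p q (pt a) z ^ α / (1 + sg p q (pt a) z ^ α)) + 2 * w a)) := by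
    intro a ha
    obtain ⟨g₁, g₂, hy, hg⟩ := lap_y hp hq h (hS a ha) z (hl a ha)
    obtain ⟨k₁, k₂, hL⟩ := lap_L hy α
    have h3 := hL.add (hy.const_mul (-(w a) / 2))
    exact ⟨_, _, h3.vals rfl rfl (by rw [ey z a (hl a ha), hg]; ring)⟩
  choose! G₁ G₂ hG using hterm
  have hsum := HasLap.sum S hG
  have hlogW := (lap_lognormSq (WW_diff hp hq) z hW).const_mul (1 / 2)
  have hlogN := (lap_logN hp hq h z).const_mul (-1)
  have htot := (hlogW.add hlogN).add hsum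
  have hcong : (fun x => 1 / 2 * Real.log (‖WW p q x‖ ^ 2) + -1 * Real.log (NN p q x) +
      ∑ a ∈ S, (Real.log (1 + Real.exp (α * (Real.log (‖ell p q (pt a) x‖ ^ 2) -
        Real.log (NN p q x)))) +
      (-(w a) / 2) * (Real.log (‖ell p q (pt a) x‖ ^ 2) - Real.log (NN p q x)))) =ᶠ[𝓝 z]
      fun x => Real.log (uu p q S pt w α x) := by
    have c1 : ∀ᶠ x in 𝓝 z, WW p q x ≠ 0 :=
      (WW_diff hp hq).continuous.continuousAt.eventually_ne hW
    have c2 : ∀ᶠ x in 𝓝 z, ∀ a ∈ S, ell p q (pt a) x ≠ 0 :=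
      (Finset.eventually_all S).2 fun a ha =>
        (ell_diff hp hq (pt a)).continuous.continuousAt.eventually_ne (hl a ha)
    filter_upwards [c1, c2] with x hx1 hx2
    have n1 := NN_pos h x
    have n2 : 0 < ‖WW p q x‖ := norm_pos_iff.2 hx1
    unfold uu
    rw [Real.log_mul (by positivity) (Finset.prod_ne_zero_iff.2 fun a ha => by
      have := sgpos x a (hx2 a ha)
      positivity), Real.log_div n2.ne' n1.ne', Real.log_prod (fun a ha => by
      have := sgpos x a (hx2 a ha)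
      positivity)]
    congr 1
    · rw [Real.log_pow]; push_cast; ring
    · refine Finset.sum_congr rfl fun a ha => ?_
      have s := sgpos x a (hx2 a ha)
      rw [ey x a (hx2 a ha), Real.log_mul (by positivity) (by positivity),
        Real.log_rpow s]
      congr 2
      unfold sg
      have : 0 < ‖ell p q (pt a) x‖ := norm_pos_iff.2 (hx2 a ha)
      rw [Real.log_div (by positivity) n1.ne']
  exact ⟨_, _, (htot.congr hcong).vals rfl rfl (by rw [← Finset.mul_sum]; ring)⟩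

end

end H121R3
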