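import Pool.Agent.H121R3.Ineq

/-!
# Behaviour of the pseudo-metric at the poles
-/

namespace H121R3

open Topology Filter Complex

noncomputable section

variable {p q : ℂ → ℂ}

theorem NN_cont (hp : Differentiable ℂ p) (hq : Differentiable ℂ q) : Continuous (NN p q) := by
  unfold NN
  exact (hp.continuous.norm.pow 2).add (hq.continuous.norm.pow 2)

theorem sg_cont (hp : Differentiable ℂ p) (hq : Differentiable ℂ q)
    (h : ∀ z, p z ≠ 0 ∨ q z ≠ 0) (a : ℂ × ℂ) : Continuous (sg p q a) := by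
  unfold sg
  exact ((ell_diff hp hq a).continuous.norm.pow 2).div (NN_cont hp hq) fun z => (NN_pos h z).ne'

theorem sg_pos (h : ∀ z, p z ≠ 0 ∨ q z ≠ 0) {a : ℂ × ℂ} {z : ℂ} (hz : ell p q a z ≠ 0) :
    0 < sg p q a z := by
  have := NN_pos h z
  have : 0 < ‖ell p q a z‖ := norm_pos_iff.2 hz
  unfold sg; positivity

theorem sg_zero {a : ℂ × ℂ} {z : ℂ} (hz : ell p q a z = 0) : sg p q a z = 0 := by
  unfold sg; rw [hz]; simp

theorem uu_nonneg {τ : Type*} (S : Finset τ) (pt : τ → ℂ × ℂ) (w : τ → ℝ) (α : ℝ) (z : ℂ) :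
    0 ≤ uu p q S pt w α z := by
  unfold uu
  refine mul_nonneg (div_nonneg (norm_nonneg _) (by unfold NN; positivity))
    (Finset.prod_nonneg fun a _ => ?_)
  have := sg_nonneg (p := p) (q := q) z (pt a)
  have := Real.rpow_nonneg this α
  positivity

theorem uu_zero {τ : Type*} {S : Finset τ} {pt : τ → ℂ × ℂ} {w : τ → ℝ} {α : ℝ} {z : ℂ}
    (hw0 : ∀ a ∈ S, 0 < w a) {b : τ} (hb : b ∈ S) (hz : ell p q (pt b) z = 0) :
    uu p q S pt w α z = 0 := by
  unfold uu
  rw [Finset.prod_eq_zero hb, mul_zero]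
  rw [sg_zero hz, Real.zero_rpow (by have := hw0 b hb; linarith : -(w b) / 2 ≠ 0), mul_zero]

/-- A single factor is continuous away from its pole. -/
theorem fac_cont (hp : Differentiable ℂ p) (hq : Differentiable ℂ q)
    (h : ∀ z, p z ≠ 0 ∨ q z ≠ 0) (a : ℂ × ℂ) {α : ℝ} (hα : 0 < α) (s : ℝ) {z : ℂ}
    (hz : ell p q a z ≠ 0) :
    ContinuousAt (fun x => (1 + sg p q a x ^ α) * sg p q a x ^ s) z := by
  have c := (sg_cont hp hq h a).continuousAt (x := z)
  exact (continuousAt_const.add (c.rpow_const (Or.inr hα.le))).mul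
    (c.rpow_const (Or.inl (sg_pos h hz).ne'))

theorem uu_cont (hp : Differentiable ℂ p) (hq : Differentiable ℂ q)
    (h : ∀ z, p z ≠ 0 ∨ q z ≠ 0) {τ : Type*} {S : Finset τ} {pt : τ → ℂ × ℂ} {w : τ → ℝ}
    {α : ℝ} (hα : 0 < α) {z : ℂ} (hz : ∀ a ∈ S, ell p q (pt a) z ≠ 0) :
    ContinuousAt (uu p q S pt w α) z := by
  unfold uu
  refine ContinuousAt.mul ?_ ?_
  · exact (WW_diff hp hq).continuous.continuousAt.norm.div (NN_cont hp hq).continuousAt
      (NN_pos h z).ne'
  · exact tendsto_finsetProd S fun a ha => (fac_cont hp hq h (pt a) hα _ (hz a ha))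

theorem ell_common {a b : ℂ × ℂ} (hab : a.1 * b.2 - a.2 * b.1 ≠ 0)
    (h : ∀ z, p z ≠ 0 ∨ q z ≠ 0) {z : ℂ} (ha : ell p q a z = 0) : ell p q b z ≠ 0 := by
  intro hb
  unfold ell at ha hb
  have e1 : (a.1 * b.2 - a.2 * b.1) * p z = 0 := by linear_combination a.1 * hb - b.1 * ha
  have e2 : (a.1 * b.2 - a.2 * b.1) * q z = 0 := by linear_combination a.2 * hb - b.2 * ha
  rcases h z with h | h
  · exact h ((mul_eq_zero.1 e1).resolve_left hab)
  · exact h ((mul_eq_zero.1 e2).resolve_left hab)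

open Classical in
/-- The exponent of the pseudo-metric at `z₀`. -/
def mu {τ : Type*} (p q : ℂ → ℂ) (S : Finset τ) (pt : τ → ℂ × ℂ) (w : τ → ℝ) (z₀ : ℂ) : ℝ :=
  ∑ a ∈ S with ell p q (pt a) z₀ = 0,
    ((analyticOrderNatAt (ell p q (pt a)) z₀ : ℝ) * (1 - w a) - 1)

/-- Local form of the pseudo-metric. -/
theorem uu_loc (hp : Differentiable ℂ p) (hq : Differentiable ℂ q)
    (h : ∀ z, p z ≠ 0 ∨ q z ≠ 0) {τ : Type*} {S : Finset τ} {pt : τ → ℂ × ℂ} {w : τ → ℝ}
    (hS : ∀ a ∈ S, ‖(pt a).1‖ ^ 2 + ‖(pt a).2‖ ^ 2 = 1)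
    (hne : ∀ a ∈ S, ∀ b ∈ S, a ≠ b → (pt a).1 * (pt b).2 - (pt a).2 * (pt b).1 ≠ 0)
    {α : ℝ} (hα : 0 < α) (z₀ : ℂ)
    (hfin : ∀ a ∈ S, analyticOrderAt (ell p q (pt a)) z₀ ≠ ⊤) :
    ∃ H : ℂ → ℝ, ContinuousAt H z₀ ∧ (∀ᶠ z in 𝓝[≠] z₀, 0 ≤ H z) ∧
      ∀ᶠ z in 𝓝[≠] z₀, uu p q S pt w α z = ‖z - z₀‖ ^ (mu p q S pt w z₀) * H z := by
  classical
  by_cases hz : ∀ a ∈ S, ell p q (pt a) z₀ ≠ 0
  · refine ⟨uu p q S pt w α, uu_cont hp hq h hα hz,
      Eventually.of_forall fun z => uu_nonneg S pt w α z, Eventually.of_forall fun z => ?_⟩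
    have : mu p q S pt w z₀ = 0 := by
      unfold mu
      rw [Finset.filter_false_of_mem fun a ha => hz a ha]
      simp
    rw [this, Real.rpow_zero, one_mul]
  · push Not at hz
    obtain ⟨b, hb, hzb⟩ := hz
    set m := analyticOrderNatAt (ell p q (pt b)) z₀ with hm
    have hmu : mu p q S pt w z₀ = (m : ℝ) * (1 - w b) - 1 := by
      unfold mu
      have : S.filter (fun a => ell p q (pt a) z₀ = 0) = {b} := by
        ext a
        simp only [Finset.mem_filter, Finset.mem_singleton]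
        constructor
        · rintro ⟨ha, ha'⟩
          by_contra hab
          exact ell_common (hne a ha b hb hab) h ha' hzb
        · rintro rfl; exact ⟨hb, hzb⟩
      rw [this, Finset.sum_singleton]
    have han : AnalyticAt ℂ (ell p q (pt b)) z₀ := (ell_diff hp hq (pt b)).analyticAt z₀
    have hm1 : 1 ≤ m := by
      rw [Nat.one_le_iff_ne_zero]
      intro h0
      have h1 : analyticOrderAt (ell p q (pt b)) z₀ = 0 := by
        rw [← Nat.cast_analyticOrderNatAt (hfin b hb), ← hm, h0]; rfl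
      exact (han.analyticOrderAt_eq_zero.1 h1) hzb
    obtain ⟨g, hg, hg0, hfac⟩ := han.analyticOrderAt_ne_top.1 (hfin b hb)
    rw [← hm] at hfac
    -- derivative
    have hder : deriv (ell p q (pt b)) =ᶠ[𝓝 z₀]
        fun z => (m : ℂ) * (z - z₀) ^ (m - 1) * g z + (z - z₀) ^ m * deriv g z := by
      filter_upwards [hfac.eventuallyEq_nhds, hg.eventually_analyticAt] with z hz hgz
      rw [hz.deriv_eq]
      have h1 : HasDerivAt (fun z : ℂ => (z - z₀) ^ m) ((m : ℂ) * (z - z₀) ^ (m - 1)) z := by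
        simpa using ((hasDerivAt_id z).sub_const z₀).fun_pow m
      exact (h1.mul hgz.differentiableAt.hasDerivAt).deriv
    -- the complementary form
    set v : ℂ → ℂ := fun z => (starRingEnd ℂ) (pt b).1 * p z + (starRingEnd ℂ) (pt b).2 * q z
      with hv
    have hvd : Differentiable ℂ v := (hp.const_mul _).add (hq.const_mul _)
    have hvder : ∀ z, deriv v z =
        (starRingEnd ℂ) (pt b).1 * deriv p z + (starRingEnd ℂ) (pt b).2 * deriv q z := by
      intro z
      rw [hv, deriv_fun_add ((hp z).const_mul _) ((hq z).const_mul _), deriv_const_mul _ (hp z),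
        deriv_const_mul _ (hq z)]
    have hW : ∀ z, WW p q z = deriv (ell p q (pt b)) z * v z - ell p q (pt b) z * deriv v z := by
      intro z
      have hu : (starRingEnd ℂ) (pt b).1 * (pt b).1 + (starRingEnd ℂ) (pt b).2 * (pt b).2 = 1 := by
        rw [← Complex.normSq_eq_conj_mul_self, ← Complex.normSq_eq_conj_mul_self,
          Complex.normSq_eq_norm_sq, Complex.normSq_eq_norm_sq]
        exact_mod_cast hS b hb
      rw [hvder, ell_deriv hp hq, hv]
      unfold WW ell
      linear_combination -(deriv p z * q z - p z * deriv q z) * hu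
    have hWfac : ∀ᶠ z in 𝓝 z₀, WW p q z = (z - z₀) ^ (m - 1) *
        ((m : ℂ) * g z * v z + (z - z₀) * (deriv g z * v z - g z * deriv v z)) := by
      filter_upwards [hfac, hder] with z h1 h2
      rw [hW, h1, h2]
      obtain ⟨k, hk⟩ : ∃ k, m = k + 1 := ⟨m - 1, by omega⟩
      rw [hk]
      simp only [smul_eq_mul, Nat.add_sub_cancel]
      push_cast
      ring
    set H₁ : ℂ → ℝ := fun z =>
      ‖(m : ℂ) * g z * v z + (z - z₀) * (deriv g z * v z - g z * deriv v z)‖ / NN p q z with hH₁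
    set H₂ : ℂ → ℝ := fun z => (1 + sg p q (pt b) z ^ α) * (‖g z‖ ^ 2 / NN p q z) ^ (-(w b) / 2)
      with hH₂
    set H₃ : ℂ → ℝ := fun z => ∏ a ∈ S.erase b,
      ((1 + sg p q (pt a) z ^ α) * sg p q (pt a) z ^ (-(w a) / 2)) with hH₃
    have c1 : ContinuousAt H₁ z₀ := by
      have cg := hg.continuousAt
      have cdg := hg.deriv.continuousAt
      have cv := hvd.continuous.continuousAt (x := z₀)
      have cdv := (deriv_diff hvd).continuous.continuousAt (x := z₀)
      refine ContinuousAt.div ?_ (NN_cont hp hq).continuousAt (NN_pos h z₀).ne'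
      refine ContinuousAt.norm ?_
      exact ((continuousAt_const.mul cg).mul cv).add
        ((continuousAt_id.sub continuousAt_const).mul ((cdg.mul cv).sub (cg.mul cdv)))
    have c2 : ContinuousAt H₂ z₀ := by
      have c := (sg_cont hp hq h (pt b)).continuousAt (x := z₀)
      refine (continuousAt_const.add (c.rpow_const (Or.inr hα.le))).mul ?_
      have c' : ContinuousAt (fun z => ‖g z‖ ^ 2 / NN p q z) z₀ :=
        (hg.continuousAt.norm.pow 2).div (NN_cont hp hq).continuousAt (NN_pos h z₀).ne'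
      refine c'.rpow_const (Or.inl ?_)
      have := NN_pos h z₀
      have : 0 < ‖g z₀‖ := norm_pos_iff.2 hg0
      positivity
    have c3 : ContinuousAt H₃ z₀ := by
      refine tendsto_finsetProd _ fun a ha => ?_
      have ha' := Finset.mem_of_mem_erase ha
      exact fac_cont hp hq h (pt a) hα _
        (ell_common (hne b hb a ha' (Finset.ne_of_mem_erase ha).symm) h hzb)
    refine ⟨fun z => H₁ z * H₂ z * H₃ z, (c1.mul c2).mul c3, ?_, ?_⟩
    · refine Eventually.of_forall fun z => ?_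
      have hsg : ∀ a, 0 ≤ sg p q a z := fun a => sg_nonneg z a
      have hNn : 0 ≤ NN p q z := by unfold NN; positivity
      refine mul_nonneg (mul_nonneg (div_nonneg (norm_nonneg _) hNn) ?_)
        (Finset.prod_nonneg fun a _ => ?_)
      · have := Real.rpow_nonneg (hsg (pt b)) α
        have : 0 ≤ ‖g z‖ ^ 2 / NN p q z := by positivity
        positivity
      · have := Real.rpow_nonneg (hsg (pt a)) α
        have := hsg (pt a)
        positivity
    · have hne' : ∀ᶠ z in 𝓝[≠] z₀, z ≠ z₀ := self_mem_nhdsWithin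
      filter_upwards [hfac.filter_mono nhdsWithin_le_nhds, hWfac.filter_mono nhdsWithin_le_nhds,
        hne'] with z h1 h2 h3
      have hr : 0 < ‖z - z₀‖ := norm_pos_iff.2 (sub_ne_zero.2 h3)
      have hN := NN_pos h z
      rw [hmu]
      have e1 : sg p q (pt b) z ^ (-(w b) / 2) =
          ‖z - z₀‖ ^ (-(m : ℝ) * w b) * (‖g z‖ ^ 2 / NN p q z) ^ (-(w b) / 2) := by
        have : sg p q (pt b) z = (‖z - z₀‖ ^ (2 * m)) * (‖g z‖ ^ 2 / NN p q z) := by
          unfold sg
          rw [h1, smul_eq_mul, norm_mul, norm_pow, mul_pow, ← pow_mul, mul_comm m 2]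
          ring
        rw [this, Real.mul_rpow (by positivity) (by positivity)]
        congr 1
        rw [← Real.rpow_natCast, ← Real.rpow_mul hr.le]
        congr 1
        push_cast; ring
      have e2 : uu p q S pt w α z = ‖WW p q z‖ / NN p q z *
          (((1 + sg p q (pt b) z ^ α) * sg p q (pt b) z ^ (-(w b) / 2)) * H₃ z) := by
        unfold uu
        rw [← Finset.mul_prod_erase S _ hb]
      have e3 : ‖WW p q z‖ = ‖z - z₀‖ ^ ((m : ℝ) - 1) *
          ‖(m : ℂ) * g z * v z + (z - z₀) * (deriv g z * v z - g z * deriv v z)‖ := by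
        rw [h2, norm_mul, norm_pow]
        congr 1
        rw [← Real.rpow_natCast]
        congr 1
        rw [Nat.cast_sub hm1]; simp
      have e4 : ‖z - z₀‖ ^ ((m : ℝ) * (1 - w b) - 1) =
          ‖z - z₀‖ ^ ((m : ℝ) - 1) * ‖z - z₀‖ ^ (-(m : ℝ) * w b) := by
        rw [← Real.rpow_add hr]
        congr 1; ring
      rw [e2, e1, e3, e4]
      simp only [hH₁, hH₂]
      ring

end

end H121R3
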